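import Pool.Agent.MP_3ba9a9_lc.Stage

/-!
# The existential sentence of an instance
-/

namespace Pool.Agent.MP_3ba9a9_lc

/-- A variable as a polynomial expression. -/
def V (T w j : ℕ) : Term := .var (vr T w j)

/-- First coordinate of the `i`-th vertex of the curve. -/
def px (i : ℕ) : Term := V 0 i 0

/-- Second coordinate of the `i`-th vertex of the curve. -/
def py (i : ℕ) : Term := V 0 i 1

/-- One half. -/
def hf : Term := V 1 0 0

/-- The four coordinates of the ends of the `j`-th edge. -/
def ec (j r : ℕ) : Term := V 2 j r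

/-- The length of the `i`-th segment. -/
def len (i : ℕ) : Term := V 3 i 0

/-- The line through the `j`-th edge. -/
def edgeL (j : ℕ) : T3 :=
  (tsub (ec j 1) (ec j 3), tsub (ec j 2) (ec j 0),
    tsub (.mul (tsub (ec j 3) (ec j 1)) (ec j 0)) (.mul (tsub (ec j 2) (ec j 0)) (ec j 1)))

/-- The lines at distance `1` from the `i`-th segment. -/
def offL (i : ℕ) (σ : ℤ) : T3 :=
  (tsub (py i) (py (i + 1)), tsub (px (i + 1)) (px i),
    tsub (tsub (.mul (tsub (py (i + 1)) (py i)) (px i)) (.mul (tsub (px (i + 1)) (px i)) (py i)))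
      (.mul (.const σ) (len i)))

/-- The line through the common points of two unit circles. -/
def radL (i j : ℕ) : T3 :=
  (.mul (.const 2) (tsub (px j) (px i)), .mul (.const 2) (tsub (py j) (py i)),
    tsub (.add (tsq (px i)) (tsq (py i))) (.add (tsq (px j)) (tsq (py j))))

/-- All lines. -/
def LTs (n m : ℕ) : List T3 :=
  (List.range n).map (fun j => edgeL j) ++
    ((List.range m).flatMap (fun i => [offL i 1, offL i (-1)]) ++
      (List.range (m + 1)).flatMap fun i => (List.range (m + 1)).map fun j => radL i j)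

/-- The polynomial whose root is the abscissa of the common point of two lines. -/
def llP (L L' : T3) : T3 :=
  (.const 0, tsub (.mul L.1 L'.2.1) (.mul L'.1 L.2.1), tsub (.mul L.2.2 L'.2.1) (.mul L'.2.2 L.2.1))

/-- The polynomial whose roots are the abscissas of the common points of a line and a circle. -/
def lcP (L : T3) (i : ℕ) : T3 :=
  (.add (tsq L.1) (tsq L.2.1),
    tsub (.mul (.const 2) (.mul L.1 (.add L.2.2 (.mul L.2.1 (py i)))))
      (.mul (.const 2) (.mul (tsq L.2.1) (px i))),
    .add (.mul (tsq L.2.1) (tsq (px i)))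
      (tsub (tsq (.add L.2.2 (.mul L.2.1 (py i)))) (tsq L.2.1)))

/-- The polynomials whose roots are the events. -/
def EPs (n m : ℕ) : List T3 :=
  (LTs n m).flatMap (fun L => (LTs n m).map fun L' => llP L L') ++
    (LTs n m).flatMap fun L => (List.range (m + 1)).map fun i => lcP L i

/-- The events. -/
def Evs (n m : ℕ) : List Term :=
  (List.range (EPs n m).length).flatMap (fun a => [V 4 a 0, V 4 a 1]) ++
    ((List.range n).flatMap (fun j => [ec j 0, ec j 2]) ++
      (List.range (m + 1)).flatMap fun i => [.add (px i) (.const 1), tsub (px i) (.const 1)])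

/-- The midpoint of two events. -/
def sx (n m a b : ℕ) : Term :=
  .mul hf (.add ((Evs n m).getD a (.const 0)) ((Evs n m).getD b (.const 0)))

/-- The polynomials whose roots are the ordinates of the points with abscissa `s` on the curves. -/
def YPs (n m : ℕ) (s : Term) : List T3 :=
  (LTs n m).map (fun L => (.const 0, L.2.1, .add (.mul L.1 s) L.2.2)) ++
    (List.range (m + 1)).map fun i => (.const 1, .mul (.const (-2)) (py i),
      tsub (.add (tsq (tsub s (px i))) (tsq (py i))) (.const 1))

/-- The number of these polynomials. -/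
def NY (n m : ℕ) : ℕ := (LTs n m).length + (m + 1)

/-- The ordinates. -/
def Ys (n m w : ℕ) : List Term :=
  (List.range (NY n m)).flatMap fun c => [V 5 (Nat.pair w c) 0, V 5 (Nat.pair w c) 1]

/-- The ordinate of a sample point. -/
def sy (n m w c d : ℕ) : Term :=
  .mul hf (.add ((Ys n m w).getD c (.const 0))
    ((tsub ((Ys n m w).getD c (.const 0)) (.const 2) :: Ys n m w).getD d (.const 0)))

/-- The point `(X, Y)` is not on the line through the `j`-th edge. -/
def offF (X Y : Term) (j : ℕ) : Formula :=
  .or (.and (.not (.eq (ec j 0) (ec j 2)))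
      (.not (.eq (.mul (tsub (ec j 2) (ec j 0)) (tsub Y (ec j 1)))
        (.mul (tsub (ec j 3) (ec j 1)) (tsub X (ec j 0))))))
    (.and (.eq (ec j 0) (ec j 2)) (.not (.eq X (ec j 0))))

/-- The upward ray from `(X, Y)` crosses the `j`-th edge. -/
def crossF (X Y : Term) (j : ℕ) : Formula :=
  .or (.and (.le (ec j 0) X) (.and (.lt X (ec j 2))
      (.lt (.mul (tsub (ec j 2) (ec j 0)) (tsub Y (ec j 1)))
        (.mul (tsub (ec j 3) (ec j 1)) (tsub X (ec j 0))))))
    (.and (.le (ec j 2) X) (.and (.lt X (ec j 0))
      (.lt (.mul (tsub (ec j 3) (ec j 1)) (tsub X (ec j 0)))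
        (.mul (tsub (ec j 2) (ec j 0)) (tsub Y (ec j 1))))))

/-- One step of the computation of the parity of the number of crossed edges. -/
def stepF (X Y : Term) (w j : ℕ) : Formula :=
  .or (.and (crossF X Y j)
      (.eq (V 6 w (2 * (j + 1))) (tsub (.const 1) (V 6 w (2 * j)))))
    (.and (.not (crossF X Y j)) (.eq (V 6 w (2 * (j + 1))) (V 6 w (2 * j))))

/-- A point of the `i`-th segment. -/
def mid (l p q : Term) : Term := .add (.mul (tsub (.const 1) l) p) (.mul l q)

/-- The point `(X, Y)` has distance at most `1` from the `i`-th segment. -/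
def covF (X Y : Term) (w i : ℕ) : Formula :=
  .and (.le (.const 0) (V 6 w (2 * i + 1))) (.and (.le (V 6 w (2 * i + 1)) (.const 1))
    (.le (.add (tsq (tsub X (mid (V 6 w (2 * i + 1)) (px i) (px (i + 1)))))
      (tsq (tsub Y (mid (V 6 w (2 * i + 1)) (py i) (py (i + 1)))))) (.const 1)))

/-- The condition tested at a sample point. -/
def goodF (n m : ℕ) (X Y : Term) (w : ℕ) : Formula :=
  .and (.eq (V 6 w 0) (.const 0)) (.and (bigAnd ((List.range n).map fun j => stepF X Y w j))
    (.or (.not (bigAnd ((List.range n).map fun j => offF X Y j)))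
      (.or (.eq (V 6 w (2 * n)) (.const 0)) (bigOr ((List.range m).map fun i => covF X Y w i)))))

/-! ## The constraints -/

/-- The value of an expression is a given rational. -/
def isRat (t : Term) (r : ℚ) : Formula := .eq (.mul (.const (r.den : ℤ)) t) (.const r.num)

/-- Stage 1. -/
def F1 : Formula := .eq (.mul (.const 2) hf) (.const 1)

/-- Stage 2. -/
def F2 (e : (ℚ × ℚ) × (ℚ × ℚ)) (j : ℕ) : Formula :=
  bigAnd [isRat (ec j 0) e.1.1, isRat (ec j 1) e.1.2, isRat (ec j 2) e.2.1, isRat (ec j 3) e.2.2]

/-- Stage 3. -/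
def F3 (i : ℕ) : Formula :=
  .and (.le (.const 0) (len i)) (.eq (tsq (len i))
    (.add (tsq (tsub (px i) (px (i + 1)))) (tsq (tsub (py i) (py (i + 1))))))

/-- Stage 4. -/
def F4 (n m a : ℕ) : Formula :=
  roots ((EPs n m).getD a (.const 0, .const 0, .const 0)) (V 4 a 0) (V 4 a 1)

/-- Stage 5. -/
def F5 (n m a b c : ℕ) : Formula :=
  roots ((YPs n m (sx n m a b)).getD c (.const 0, .const 0, .const 0))
    (V 5 (Nat.pair (Nat.pair a b) c) 0) (V 5 (Nat.pair (Nat.pair a b) c) 1)

/-- Stage 6. -/
def F6 (n m a b c d : ℕ) : Formula :=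
  goodF n m (sx n m a b) (sy n m (Nat.pair a b) c d) (Nat.pair (Nat.pair a b) (Nat.pair c d))

/-- Sums. -/
def tsum (l : List Term) : Term := l.foldl (fun acc t => .add t acc) (.const 0)

/-- The bound on the length. -/
def FL (k : ℤ) (m : ℕ) : Formula := .le (tsum ((List.range m).map fun i => len i)) (.const k)

/-- The default edge. -/
def e0 : (ℚ × ℚ) × (ℚ × ℚ) := ((0, 0), (0, 0))

/-- All constraints. -/
def constraints (E : List ((ℚ × ℚ) × (ℚ × ℚ))) (k : ℤ) (m : ℕ) : List Formula :=
  [F1, FL k m] ++ ((List.range E.length).map (fun j => F2 (E.getD j e0) j) ++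
    ((List.range m).map (fun i => F3 i) ++
    ((List.range (EPs E.length m).length).map (fun a => F4 E.length m a) ++
    ((List.range (Evs E.length m).length).flatMap (fun a =>
      (List.range (Evs E.length m).length).flatMap fun b =>
        (List.range (NY E.length m)).map fun c => F5 E.length m a b c) ++
    (List.range (Evs E.length m).length).flatMap (fun a =>
      (List.range (Evs E.length m).length).flatMap fun b =>
        (List.range (2 * NY E.length m)).flatMap fun c =>
          (List.range (2 * NY E.length m + 1)).map fun d => F6 E.length m a b c d)))))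

/-- The sentence of an instance. -/
def sentence (I : Instance) : Formula := bigAnd (constraints I.edges (I.k : ℤ) I.m)

end Pool.Agent.MP_3ba9a9_lc
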