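import Pool.Agent.MP_3ba9a9_lc.Defs

/-!
# Cells between graphs of functions
-/

open Set Filter Topology

namespace Pool.Agent.MP_3ba9a9_lc

theorem lt_on {α β : ℝ} {g h : ℝ → ℝ} (hg : ContinuousOn g (Ioo α β))
    (hh : ContinuousOn h (Ioo α β)) (hne : ∀ x ∈ Ioo α β, g x ≠ h x) {x₀ : ℝ}
    (hx₀ : x₀ ∈ Ioo α β) (h0 : g x₀ < h x₀) : ∀ x ∈ Ioo α β, g x < h x := by
  intro x hx
  by_contra hcon
  push Not at hcon
  obtain ⟨y, hy, he⟩ := isPreconnected_Ioo.intermediate_value₂ hx₀ hx hg hh h0.le hcon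
  exact hne y hy he

theorem le_on {α β : ℝ} {g h : ℝ → ℝ} (hg : ContinuousOn g (Ioo α β))
    (hh : ContinuousOn h (Ioo α β))
    (hne : (∀ x ∈ Ioo α β, g x ≠ h x) ∨ ∀ x ∈ Ioo α β, g x = h x) {x₀ : ℝ}
    (hx₀ : x₀ ∈ Ioo α β) (h0 : g x₀ ≤ h x₀) : ∀ x ∈ Ioo α β, g x ≤ h x := by
  intro x hx
  rcases hne with hne | heq
  · exact (lt_on hg hh hne hx₀ (lt_of_le_of_ne h0 (hne _ hx₀)) x hx).le
  · exact (heq x hx).le

theorem exists_cell {α β : ℝ} (hαβ : α < β) (B : Set (ℝ → ℝ)) (hfin : B.Finite)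
    (hcont : ∀ g ∈ B, ContinuousOn g (Ioo α β))
    (hne : ∀ g ∈ B, ∀ h ∈ B, (∀ x ∈ Ioo α β, g x ≠ h x) ∨ ∀ x ∈ Ioo α β, g x = h x)
    {x₀ y₀ : ℝ} (hx₀ : x₀ ∈ Ioo α β) (hy₀ : ∀ g ∈ B, g x₀ ≠ y₀) (hup : ∃ g ∈ B, y₀ < g x₀) :
    ∃ C : Set ℂ, IsPreconnected C ∧ (⟨x₀, y₀⟩ : ℂ) ∈ C ∧
      (∀ z ∈ C, z.re ∈ Ioo α β ∧ ∀ g ∈ B, z.im ≠ g z.re) ∧
      ∃ g ∈ B, ∃ u, (u = g ((α + β) / 2) - 2 ∨ ∃ h ∈ B, u = h ((α + β) / 2)) ∧
        (⟨(α + β) / 2, (g ((α + β) / 2) + u) / 2⟩ : ℂ) ∈ C := by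
  classical
  have hs : (α + β) / 2 ∈ Ioo α β := ⟨by linarith, by linarith⟩
  -- the function just above
  obtain ⟨gp, hgp, hgpmin⟩ : ∃ g ∈ {g ∈ B | y₀ < g x₀}, ∀ h ∈ {g ∈ B | y₀ < g x₀},
      g x₀ ≤ h x₀ := by
    have hf : {g ∈ B | y₀ < g x₀}.Finite := hfin.subset fun g hg => hg.1
    obtain ⟨g, hg, hg0⟩ := hup
    obtain ⟨g', hg', hmin⟩ := Finset.exists_min_image hf.toFinset (fun g : ℝ → ℝ => g x₀)
      ⟨g, hf.mem_toFinset.2 ⟨hg, hg0⟩⟩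
    exact ⟨g', hf.mem_toFinset.1 hg', fun h hh => hmin h (hf.mem_toFinset.2 hh)⟩
  have habove : ∀ g ∈ B, y₀ < g x₀ → ∀ x ∈ Ioo α β, gp x ≤ g x := fun g hg h0 =>
    le_on (hcont gp hgp.1) (hcont g hg) (hne gp hgp.1 g hg) hx₀ (hgpmin g ⟨hg, h0⟩)
  by_cases hdown : ∃ g ∈ B, g x₀ < y₀
  · -- the function just below
    obtain ⟨gm, hgm, hgmmax⟩ : ∃ g ∈ {g ∈ B | g x₀ < y₀}, ∀ h ∈ {g ∈ B | g x₀ < y₀},
        h x₀ ≤ g x₀ := by
      have hf : {g ∈ B | g x₀ < y₀}.Finite := hfin.subset fun g hg => hg.1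
      obtain ⟨g, hg, hg0⟩ := hdown
      obtain ⟨g', hg', hmax⟩ := Finset.exists_max_image hf.toFinset (fun g : ℝ → ℝ => g x₀)
        ⟨g, hf.mem_toFinset.2 ⟨hg, hg0⟩⟩
      exact ⟨g', hf.mem_toFinset.1 hg', fun h hh => hmax h (hf.mem_toFinset.2 hh)⟩
    have hbelow : ∀ g ∈ B, g x₀ < y₀ → ∀ x ∈ Ioo α β, g x ≤ gm x := fun g hg h0 =>
      le_on (hcont g hg) (hcont gm hgm.1) (hne g hg gm hgm.1) hx₀ (hgmmax g ⟨hg, h0⟩)
    have hlt : ∀ x ∈ Ioo α β, gm x < gp x := by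
      refine lt_on (hcont gm hgm.1) (hcont gp hgp.1) ?_ hx₀ (hgm.2.trans hgp.2)
      rcases hne gm hgm.1 gp hgp.1 with h | h
      · exact h
      · exact absurd (h x₀ hx₀) (hgm.2.trans hgp.2).ne
    set F : ℝ × ℝ → ℂ := fun p => ⟨p.1, (1 - p.2) * gm p.1 + p.2 * gp p.1⟩ with hF
    have hFc : ContinuousOn F (Ioo α β ×ˢ Ioo 0 1) := by
      have h1 : ContinuousOn (fun p : ℝ × ℝ => gm p.1) (Ioo α β ×ˢ Ioo 0 1) :=
        (hcont gm hgm.1).comp continuous_fst.continuousOn fun p hp => hp.1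
      have h2 : ContinuousOn (fun p : ℝ × ℝ => gp p.1) (Ioo α β ×ˢ Ioo 0 1) :=
        (hcont gp hgp.1).comp continuous_fst.continuousOn fun p hp => hp.1
      have h3 : ContinuousOn (fun p : ℝ × ℝ => (p.1, (1 - p.2) * gm p.1 + p.2 * gp p.1))
          (Ioo α β ×ˢ Ioo 0 1) :=
        continuousOn_fst.prodMk (((continuousOn_const.sub continuousOn_snd).mul h1).add
          (continuousOn_snd.mul h2))
      exact Complex.equivRealProdCLM.symm.continuous.comp_continuousOn h3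
    refine ⟨F '' (Ioo α β ×ˢ Ioo 0 1), (isPreconnected_Ioo.prod isPreconnected_Ioo).image _ hFc,
      ?_, ?_, ?_⟩
    · refine ⟨(x₀, (y₀ - gm x₀) / (gp x₀ - gm x₀)), ⟨hx₀, ?_, ?_⟩, ?_⟩
      · exact div_pos (sub_pos.2 hgm.2) (sub_pos.2 (hlt x₀ hx₀))
      · rw [div_lt_one (sub_pos.2 (hlt x₀ hx₀))]
        linarith [hgp.2]
      · have h0 : gp x₀ - gm x₀ ≠ 0 := (sub_pos.2 (hlt x₀ hx₀)).ne'
        simp only [hF]
        congr 1
        field_simp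
        ring
    · rintro _ ⟨⟨x, t⟩, ⟨hx, ht0, ht1⟩, rfl⟩
      refine ⟨hx, fun g hg => ?_⟩
      simp only [hF] at *
      have hl := hlt x hx
      have e1 : gm x < (1 - t) * gm x + t * gp x := by nlinarith
      have e2 : (1 - t) * gm x + t * gp x < gp x := by nlinarith
      rcases lt_or_gt_of_ne (hy₀ g hg) with h | h
      · have := hbelow g hg h x hx
        exact (this.trans_lt e1).ne'
      · have := habove g hg h x hx
        exact (e2.trans_le this).ne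
    · refine ⟨gp, hgp.1, gm ((α + β) / 2), Or.inr ⟨gm, hgm.1, rfl⟩,
        ⟨((α + β) / 2, 1 / 2), ⟨hs, by norm_num, by norm_num⟩, ?_⟩⟩
      simp only [hF]
      congr 1
      ring
  · push Not at hdown
    have hall : ∀ g ∈ B, y₀ < g x₀ := fun g hg => lt_of_le_of_ne (hdown g hg) (hy₀ g hg).symm
    set F : ℝ × ℝ → ℂ := fun p => ⟨p.1, gp p.1 - p.2⟩ with hF
    have hFc : ContinuousOn F (Ioo α β ×ˢ Ioi 0) := by
      have h2 : ContinuousOn (fun p : ℝ × ℝ => gp p.1) (Ioo α β ×ˢ Ioi 0) :=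
        (hcont gp hgp.1).comp continuous_fst.continuousOn fun p hp => hp.1
      have h3 : ContinuousOn (fun p : ℝ × ℝ => (p.1, gp p.1 - p.2)) (Ioo α β ×ˢ Ioi 0) :=
        continuousOn_fst.prodMk (h2.sub continuousOn_snd)
      exact Complex.equivRealProdCLM.symm.continuous.comp_continuousOn h3
    refine ⟨F '' (Ioo α β ×ˢ Ioi 0), (isPreconnected_Ioo.prod isPreconnected_Ioi).image _ hFc,
      ?_, ?_, ?_⟩
    · refine ⟨(x₀, gp x₀ - y₀), ⟨hx₀, sub_pos.2 hgp.2⟩, ?_⟩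
      simp [hF]
    · rintro _ ⟨⟨x, t⟩, ⟨hx, ht0⟩, rfl⟩
      refine ⟨hx, fun g hg => ?_⟩
      have e : gp x ≤ g x := habove g hg (hall g hg) x hx
      have ht : 0 < t := ht0
      have h1 : gp x - t < g x := by linarith
      simp only [hF]
      exact h1.ne
    · refine ⟨gp, hgp.1, gp ((α + β) / 2) - 2, Or.inl rfl,
        ⟨((α + β) / 2, 1), ⟨hs, by simp⟩, ?_⟩⟩
      simp only [hF]
      congr 1
      ring

end Pool.Agent.MP_3ba9a9_lc
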