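import Mathlib

/-!
# Lawn mowing and the existential theory of the reals: definitions
-/

namespace Pool.Agent.MP_3ba9a9_lc

/-! ## The existential theory of the reals -/

/-- Polynomial expressions with integer coefficients in the variables `x₀, x₁, …`. -/
inductive Term
  | var (n : ℕ) : Term
  | const (c : ℤ) : Term
  | add (s t : Term) : Term
  | mul (s t : Term) : Term

/-- The value of a polynomial expression. -/
def Term.eval (x : ℕ → ℝ) : Term → ℝ
  | .var n => x n
  | .const c => c
  | .add s t => s.eval x + t.eval x
  | .mul s t => s.eval x * t.eval x

/-- Quantifier-free formulas: Boolean combinations of polynomial equations and inequalities. -/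
inductive Formula
  | eq (s t : Term) : Formula
  | le (s t : Term) : Formula
  | lt (s t : Term) : Formula
  | not (φ : Formula) : Formula
  | and (φ ψ : Formula) : Formula
  | or (φ ψ : Formula) : Formula

/-- Truth of a quantifier-free formula for given real values of the variables. -/
def Formula.Holds (x : ℕ → ℝ) : Formula → Prop
  | .eq s t => s.eval x = t.eval x
  | .le s t => s.eval x ≤ t.eval x
  | .lt s t => s.eval x < t.eval x
  | .not φ => ¬ φ.Holds x
  | .and φ ψ => φ.Holds x ∧ ψ.Holds x
  | .or φ ψ => φ.Holds x ∨ ψ.Holds x

/-- Truth of the sentence `∃ x₀ x₁ …, φ` over the real numbers. -/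
def Formula.ExistsTrue (φ : Formula) : Prop := ∃ x : ℕ → ℝ, φ.Holds x

/-! ## Codes as bit strings -/

/-- The code of a pair whose components have the codes `x` and `y`. -/
def codePair (x y : List Bool) : List Bool := true :: (x ++ y)

/-- The code of a list, given the codes of its entries. -/
def codeList {α : Type} (c : α → List Bool) : List α → List Bool
  | [] => [false]
  | a :: l => true :: (c a ++ codeList c l)

/-- The code of a natural number, in unary. -/
def codeNat : ℕ → List Bool
  | 0 => [false]
  | n + 1 => true :: false :: codeNat n

/-- The code of a bit. -/
def codeBit (b : Bool) : List Bool := if b then [true, false, false] else [false]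

/-- The code of an integer: its sign and the list of the binary digits of its absolute value. -/
def codeInt (z : ℤ) : List Bool :=
  codePair (codeBit (decide (z < 0))) (codeList codeBit z.natAbs.bits)

/-- The code of a rational number: numerator and denominator, in binary. -/
def codeRat (r : ℚ) : List Bool := codePair (codeInt r.num) (codeInt (r.den : ℤ))

/-- The code of a polynomial expression; integer coefficients are written in binary. -/
def Term.code : Term → List Bool
  | .var n => codePair (codeNat 0) (codeNat n)
  | .const c => codePair (codeNat 1) (codeInt c)
  | .add s t => codePair (codeNat 2) (codePair s.code t.code)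
  | .mul s t => codePair (codeNat 3) (codePair s.code t.code)

/-- The code of a quantifier-free formula. -/
def Formula.code : Formula → List Bool
  | .eq s t => codePair (codeNat 0) (codePair s.code t.code)
  | .le s t => codePair (codeNat 1) (codePair s.code t.code)
  | .lt s t => codePair (codeNat 2) (codePair s.code t.code)
  | .not φ => codePair (codeNat 3) φ.code
  | .and φ ψ => codePair (codeNat 4) (codePair φ.code ψ.code)
  | .or φ ψ => codePair (codeNat 5) (codePair φ.code ψ.code)

/-- The class `∃ℝ`. A decision problem `Q`, whose instances are written as bit strings by `code`,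
belongs to `∃ℝ` if it has a polynomial-time many-one reduction (computed by a Turing machine,
Mathlib's `TM2`) to the problem of deciding existential sentences over the real numbers. -/
def InExistsR {α : Type} (code : α → List Bool) (Q : α → Prop) : Prop :=
  ∃ f : α → Formula, Nonempty (Turing.TM2ComputableInPolyTime code Formula.code f) ∧
    ∀ a, Q a ↔ (f a).ExistsTrue

/-! ## Lawn mowing -/

/-- An instance: the vertex lists of the outer boundary and of the holes, the bound `k` on the
length of the curve, and a bound `m` on the number of its segments. -/
structure Instance where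
  /-- vertices of the outer boundary -/
  outer : List (ℚ × ℚ)
  /-- vertices of the holes -/
  holes : List (List (ℚ × ℚ))
  /-- bound on the length -/
  k : ℕ
  /-- bound on the number of segments -/
  m : ℕ

/-- A rational point as a point of the plane `ℂ`. -/
def toC (p : ℚ × ℚ) : ℂ := ⟨(p.1 : ℝ), (p.2 : ℝ)⟩

/-- The edges of the closed polygon with the given list of vertices. -/
def edgesOf (l : List (ℚ × ℚ)) : List ((ℚ × ℚ) × (ℚ × ℚ)) :=
  (List.range l.length).map fun i => (l.getD i (0, 0), l.getD ((i + 1) % l.length) (0, 0))

namespace Instance

/-- All edges of the outer boundary and of the holes. -/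
def edges (I : Instance) : List ((ℚ × ℚ) × (ℚ × ℚ)) := (I.outer :: I.holes).flatMap edgesOf

/-- The upward vertical ray from `z` crosses the edge `e`. (The edge is taken without its right
end, so that a ray through a common end of two edges is counted correctly.) -/
def Crosses (z : ℂ) (e : (ℚ × ℚ) × (ℚ × ℚ)) : Prop :=
  (((e.1.1 : ℝ) ≤ z.re ∧ z.re < (e.2.1 : ℝ)) ∨ ((e.2.1 : ℝ) ≤ z.re ∧ z.re < (e.1.1 : ℝ))) ∧
  z.im < (e.1.2 : ℝ) + ((e.2.2 : ℝ) - e.1.2) * (z.re - e.1.1) / ((e.2.1 : ℝ) - e.1.1)

open Classical in
/-- The polygon with holes, as a closed region of the plane: the closure of the set of all points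
which lie on no edge and from which the upward vertical ray crosses an odd number of edges. -/
def region (I : Instance) : Set ℂ :=
  closure {z | (∀ e ∈ I.edges, z ∉ segment ℝ (toC e.1) (toC e.2)) ∧
    Odd (I.edges.filter fun e => decide (Crosses z e)).length}

/-- There is a polygonal curve `v₀ v₁ … vₘ` of length at most `k` such that every point of the
region has distance at most `1` from the curve. -/
def Mowable (I : Instance) : Prop :=
  ∃ v : ℕ → ℂ, ∑ i ∈ Finset.range I.m, dist (v i) (v (i + 1)) ≤ I.k ∧
    ∀ z ∈ I.region, ∃ i < I.m, ∃ w ∈ segment ℝ (v i) (v (i + 1)), dist z w ≤ 1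

/-- The code of an instance: the rational coordinates and `k` are written in binary, the number
`m` of segments is written in unary. -/
def code (I : Instance) : List Bool :=
  codePair (codeList (fun p => codePair (codeRat p.1) (codeRat p.2)) I.outer)
    (codePair (codeList (codeList fun p => codePair (codeRat p.1) (codeRat p.2)) I.holes)
      (codePair (codeInt (I.k : ℤ)) (codeNat I.m)))

end Instance

end Pool.Agent.MP_3ba9a9_lc
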