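import Pool.Agent.MP_3ba9a9_lc.Build

/-!
# The variables of the constraints
-/

namespace Pool.Agent.MP_3ba9a9_lc

theorem on_V {P : ℕ → Prop} {T w j : ℕ} : (V T w j).On P ↔ P (vr T w j) := Iff.rfl
@[simp] theorem on_px {P : ℕ → Prop} {i : ℕ} : (px i).On P ↔ P (vr 0 i 0) := Iff.rfl
@[simp] theorem on_py {P : ℕ → Prop} {i : ℕ} : (py i).On P ↔ P (vr 0 i 1) := Iff.rfl
@[simp] theorem on_hf {P : ℕ → Prop} : hf.On P ↔ P (vr 1 0 0) := Iff.rfl
@[simp] theorem on_ec {P : ℕ → Prop} {j r : ℕ} : (ec j r).On P ↔ P (vr 2 j r) := Iff.rfl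
@[simp] theorem on_len {P : ℕ → Prop} {i : ℕ} : (len i).On P ↔ P (vr 3 i 0) := Iff.rfl
@[simp] theorem on_add {P : ℕ → Prop} {s t : Term} : (Term.add s t).On P ↔ s.On P ∧ t.On P :=
  Iff.rfl
@[simp] theorem on_mul {P : ℕ → Prop} {s t : Term} : (Term.mul s t).On P ↔ s.On P ∧ t.On P :=
  Iff.rfl
@[simp] theorem on_const {P : ℕ → Prop} {c : ℤ} : (Term.const c).On P ↔ True := Iff.rfl
@[simp] theorem on_eq {P : ℕ → Prop} {s t : Term} : (Formula.eq s t).On P ↔ s.On P ∧ t.On P :=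
  Iff.rfl
@[simp] theorem on_le {P : ℕ → Prop} {s t : Term} : (Formula.le s t).On P ↔ s.On P ∧ t.On P :=
  Iff.rfl
@[simp] theorem on_lt {P : ℕ → Prop} {s t : Term} : (Formula.lt s t).On P ↔ s.On P ∧ t.On P :=
  Iff.rfl
@[simp] theorem on_not {P : ℕ → Prop} {φ : Formula} : (Formula.not φ).On P ↔ φ.On P := Iff.rfl
@[simp] theorem on_and {P : ℕ → Prop} {φ ψ : Formula} :
    (Formula.and φ ψ).On P ↔ φ.On P ∧ ψ.On P := Iff.rfl
@[simp] theorem on_or {P : ℕ → Prop} {φ ψ : Formula} :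
    (Formula.or φ ψ).On P ↔ φ.On P ∧ ψ.On P := Iff.rfl

theorem T3.On.mono {P Q : ℕ → Prop} (h : ∀ n, P n → Q n) {L : T3} (hL : L.On P) : L.On Q :=
  ⟨hL.1.mono h, hL.2.1.mono h, hL.2.2.mono h⟩

theorem on_getD {P : ℕ → Prop} {l : List Term} (h : ∀ t ∈ l, t.On P) (a : ℕ) :
    (l.getD a (.const 0)).On P := by
  rw [List.getD_eq_getElem?_getD]
  rcases lt_or_ge a l.length with ha | ha
  · rw [List.getElem?_eq_getElem ha]
    exact h _ (List.getElem_mem ha)
  · rw [List.getElem?_eq_none ha]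
    trivial

theorem on_getD3 {P : ℕ → Prop} {l : List T3} (h : ∀ t ∈ l, t.On P) (a : ℕ) :
    T3.On P (l.getD a (.const 0, .const 0, .const 0)) := by
  rw [List.getD_eq_getElem?_getD]
  rcases lt_or_ge a l.length with ha | ha
  · rw [List.getElem?_eq_getElem ha]
    exact h _ (List.getElem_mem ha)
  · rw [List.getElem?_eq_none ha]
    exact ⟨trivial, trivial, trivial⟩

theorem on_LTs (n m : ℕ) : ∀ L ∈ LTs n m, L.On fun k => stg k < 4 := by
  intro L hL
  simp only [LTs, List.mem_append, List.mem_map, List.mem_flatMap, List.mem_cons,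
    List.not_mem_nil, or_false] at hL
  rcases hL with ⟨j, -, rfl⟩ | ⟨i, -, rfl | rfl⟩ | ⟨i, -, j, -, rfl⟩ <;>
    simp [T3.On, edgeL, offL, radL]

theorem on_EPs (n m : ℕ) : ∀ L ∈ EPs n m, L.On fun k => stg k < 4 := by
  intro L hL
  simp only [EPs, List.mem_append, List.mem_map, List.mem_flatMap] at hL
  rcases hL with ⟨A, hA, B, hB, rfl⟩ | ⟨A, hA, i, -, rfl⟩
  · obtain ⟨h1, h2, h3⟩ := on_LTs n m A hA
    obtain ⟨h4, h5, h6⟩ := on_LTs n m B hB
    simp [T3.On, llP, *]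
  · obtain ⟨h1, h2, h3⟩ := on_LTs n m A hA
    simp [T3.On, lcP, *]

theorem on_Evs (n m : ℕ) : ∀ t ∈ Evs n m, t.On fun k => stg k < 5 := by
  intro L hL
  simp only [Evs, List.mem_append, List.mem_flatMap, List.mem_cons,
    List.not_mem_nil, or_false] at hL
  rcases hL with ⟨j, -, rfl | rfl⟩ | ⟨i, -, rfl | rfl⟩ | ⟨i, -, rfl | rfl⟩ <;>
    simp [on_V]

theorem on_sx (n m a b : ℕ) : (sx n m a b).On fun k => stg k < 5 := by
  have h1 := on_getD (on_Evs n m) a
  have h2 := on_getD (on_Evs n m) b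
  simp only [sx, on_mul, on_add, on_hf, stg_vr]
  exact ⟨by norm_num, h1, h2⟩

theorem on_YPs (n m : ℕ) {s : Term} (hs : s.On fun k => stg k < 5) :
    ∀ L ∈ YPs n m s, L.On fun k => stg k < 5 := by
  intro L hL
  simp only [YPs, List.mem_append, List.mem_map] at hL
  rcases hL with ⟨A, hA, rfl⟩ | ⟨i, -, rfl⟩
  · have := (on_LTs n m A hA).mono (Q := fun k => stg k < 5) (fun k hk => by omega)
    obtain ⟨h1, h2, h3⟩ := this
    simp [T3.On, *]
  · simp [T3.On, *]

theorem on_Ys (n m w : ℕ) : ∀ t ∈ Ys n m w, t.On fun k => stg k < 6 := by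
  intro L hL
  simp only [Ys, List.mem_flatMap, List.mem_cons, List.not_mem_nil, or_false] at hL
  rcases hL with ⟨j, -, rfl | rfl⟩ <;> simp [on_V]

theorem on_sy (n m w c d : ℕ) : (sy n m w c d).On fun k => stg k < 6 := by
  have h1 := on_getD (on_Ys n m w) c
  have h2 : ∀ t ∈ tsub ((Ys n m w).getD c (.const 0)) (.const 2) :: Ys n m w,
      t.On fun k => stg k < 6 := by
    intro t ht
    rcases List.mem_cons.1 ht with rfl | ht
    · exact on_tsub.2 ⟨h1, trivial⟩
    · exact on_Ys n m w t ht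
  have h3 := on_getD h2 d
  simp only [sy, on_mul, on_add, on_hf, stg_vr]
  exact ⟨by norm_num, h1, h3⟩

theorem on_goodF (n m : ℕ) {X Y : Term} (w : ℕ) (hX : X.On fun k => stg k < 6)
    (hY : Y.On fun k => stg k < 6) : (goodF n m X Y w).On (Dom 6 w) := by
  have hX' : X.On (Dom 6 w) := hX.mono fun k hk => Or.inl hk
  have hY' : Y.On (Dom 6 w) := hY.mono fun k hk => Or.inl hk
  have h6 : ∀ j, Dom 6 w (vr 6 w j) := fun j => Or.inr (by simp)
  have h2 : ∀ j r, Dom 6 w (vr 2 j r) := fun j r => Or.inl (by simp)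
  have h0 : ∀ j r, Dom 6 w (vr 0 j r) := fun j r => Or.inl (by simp)
  simp only [goodF, stepF, crossF, offF, covF, mid, on_and, on_or, on_not, on_eq, on_le, on_lt,
    on_bigAnd, on_bigOr, List.mem_map, on_V, on_const, on_add, on_mul, on_tsub, on_tsq, on_ec,
    on_px, on_py, h6, h2, h0, hX', hY', and_self, forall_exists_index, and_imp,
    forall_apply_eq_imp_iff₂, implies_true]

/-! ## The constraints as a function of the block -/

/-- The constraint of the block `w` of stage `T`. -/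
def FF (E : List ((ℚ × ℚ) × (ℚ × ℚ))) (m T w : ℕ) : Formula :=
  match T with
  | 2 => F2 (E.getD w e0) w
  | 3 => F3 w
  | 4 => F4 E.length m w
  | 5 => F5 E.length m w.unpair.1.unpair.1 w.unpair.1.unpair.2 w.unpair.2
  | 6 => F6 E.length m w.unpair.1.unpair.1 w.unpair.1.unpair.2 w.unpair.2.unpair.1
      w.unpair.2.unpair.2
  | _ => F1

/-- The blocks. -/
def PP (n m T w : ℕ) : Prop :=
  match T with
  | 1 => w = 0
  | 2 => w < n
  | 3 => w < m
  | 4 => True
  | 5 => True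
  | 6 => True
  | _ => False

theorem on_FF (E : List ((ℚ × ℚ) × (ℚ × ℚ))) (m T w : ℕ) (h : PP E.length m T w) :
    (FF E m T w).On (Dom T w) := by
  match T, h with
  | 1, h =>
    have h' : w = 0 := h
    subst h'
    simp [FF, F1, Dom]
  | 2, h => simp [FF, F2, isRat, Dom]
  | 3, h => simp [FF, F3, Dom]
  | 4, h =>
    exact on_roots ((on_getD3 (on_EPs E.length m) w).mono fun k hk => Or.inl hk)
      (on_V.2 (Or.inr (by simp))) (on_V.2 (Or.inr (by simp)))
  | 5, h =>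
    have e : w = Nat.pair (Nat.pair w.unpair.1.unpair.1 w.unpair.1.unpair.2) w.unpair.2 := by
      simp
    refine on_roots ((on_getD3 (on_YPs E.length m (on_sx _ _ _ _)) _).mono fun k hk => Or.inl hk)
      (on_V.2 (Or.inr ?_)) (on_V.2 (Or.inr ?_))
    · rw [← e]; simp
    · rw [← e]; simp
  | 6, h =>
    have e : w = Nat.pair (Nat.pair w.unpair.1.unpair.1 w.unpair.1.unpair.2)
        (Nat.pair w.unpair.2.unpair.1 w.unpair.2.unpair.2) := by
      simp
    have := on_goodF E.length m w (X := sx E.length m w.unpair.1.unpair.1 w.unpair.1.unpair.2)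
      (Y := sy E.length m (Nat.pair w.unpair.1.unpair.1 w.unpair.1.unpair.2)
        w.unpair.2.unpair.1 w.unpair.2.unpair.2)
      ((on_sx _ _ _ _).mono fun k hk => by omega) (on_sy _ _ _ _ _)
    simp only [FF, F6]
    rw [← e]
    exact this

end Pool.Agent.MP_3ba9a9_lc
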