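import Pool.Agent.MP_3ba9a9_lc.Sem

/-!
# Correctness of the reduction
-/

open Set

namespace Pool.Agent.MP_3ba9a9_lc

open Instance

section
variable {E : List Edge} {m : ℕ} {k : ℤ} {x : ℕ → ℝ}

theorem holds_constraints (x : ℕ → ℝ) (E : List Edge) (k : ℤ) (m : ℕ) :
    (bigAnd (constraints E k m)).Holds x ↔
      F1.Holds x ∧ (FL k m).Holds x ∧ (∀ j < E.length, (F2 (E.getD j e0) j).Holds x) ∧
      (∀ i < m, (F3 i).Holds x) ∧ (∀ a < (EPs E.length m).length, (F4 E.length m a).Holds x) ∧
      (∀ a < (Evs E.length m).length, ∀ b < (Evs E.length m).length, ∀ c < NY E.length m,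
        (F5 E.length m a b c).Holds x) ∧
      ∀ a < (Evs E.length m).length, ∀ b < (Evs E.length m).length, ∀ c < 2 * NY E.length m,
        ∀ d < 2 * NY E.length m + 1, (F6 E.length m a b c d).Holds x := by
  rw [holds_bigAnd]
  simp only [constraints, List.mem_append, List.mem_cons, List.not_mem_nil, or_false,
    List.mem_map, List.mem_flatMap, List.mem_range]
  constructor
  · intro h
    exact ⟨h _ (Or.inl (Or.inl rfl)), h _ (Or.inl (Or.inr rfl)),
      fun j hj => h _ (Or.inr (Or.inl ⟨j, hj, rfl⟩)),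
      fun i hi => h _ (Or.inr (Or.inr (Or.inl ⟨i, hi, rfl⟩))),
      fun a ha => h _ (Or.inr (Or.inr (Or.inr (Or.inl ⟨a, ha, rfl⟩)))),
      fun a ha b hb c hc =>
        h _ (Or.inr (Or.inr (Or.inr (Or.inr (Or.inl ⟨a, ha, b, hb, c, hc, rfl⟩))))),
      fun a ha b hb c hc d hd =>
        h _ (Or.inr (Or.inr (Or.inr (Or.inr (Or.inr ⟨a, ha, b, hb, c, hc, d, hd, rfl⟩)))))⟩
  · rintro ⟨h1, h2, h3, h4, h5, h6, h7⟩ φ ((rfl | rfl) | ⟨j, hj, rfl⟩ | ⟨i, hi, rfl⟩ |
      ⟨a, ha, rfl⟩ | ⟨a, ha, b, hb, c, hc, rfl⟩ | ⟨a, ha, b, hb, c, hc, d, hd, rfl⟩)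
    · exact h1
    · exact h2
    · exact h3 j hj
    · exact h4 i hi
    · exact h5 a ha
    · exact h6 a ha b hb c hc
    · exact h7 a ha b hb c hc d hd

theorem length_Ys (n m w : ℕ) : (Ys n m w).length = 2 * NY n m := by
  unfold Ys
  rw [List.length_flatMap]
  simp only [List.length_cons, List.length_nil]
  simp
  ring

/-- Soundness: the values of the variables describe a covering curve. -/
theorem sound (h : (bigAnd (constraints E k m)).Holds x) :
    ∑ i ∈ Finset.range m, dist (vx x i) (vx x (i + 1)) ≤ (k : ℝ) ∧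
    ∀ z ∈ closure {z : ℂ | (∀ e ∈ E, z ∉ segment ℝ (toC e.1) (toC e.2)) ∧ Odd (crossings E z)},
      Cov (vx x) m z := by
  obtain ⟨h1, hL, h2, h3, h4, h5, h6⟩ := (holds_constraints x E k m).1 h
  have hr : Rep E m x := rep_of_holds h1 h2 h3
  refine ⟨(holds_FL hr.len k).1 hL, sampling (events hr h4) ?_⟩
  rintro e ⟨t, ht, rfl⟩ e' ⟨t', ht', rfl⟩
  obtain ⟨a, ha, rfl⟩ := getD_of_mem ht
  obtain ⟨b, hb, rfl⟩ := getD_of_mem ht'
  have hs : (sx E.length m a b).eval x = (((Evs E.length m).getD a (.const 0)).eval x +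
      ((Evs E.length m).getD b (.const 0)).eval x) / 2 := by
    simp only [sx, Term.eval, hr.half]
    ring
  rw [← hs]
  refine ⟨{y | ∃ t ∈ Ys E.length m (Nat.pair a b), t.eval x = y},
    fun L hL hne y hy => ord_line hr (h5 a ha b hb) hL hne hy,
    fun i hi y hy => ord_circle (h5 a ha b hb) hi hy, ?_⟩
  rintro y ⟨u, hu, rfl⟩ y' hy'
  obtain ⟨c, hc, rfl⟩ := getD_of_mem hu
  have hc' : c < 2 * NY E.length m := by rw [← length_Ys]; exact hc
  obtain ⟨d, hd, hdy⟩ : ∃ d < 2 * NY E.length m + 1,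
      ((tsub ((Ys E.length m (Nat.pair a b)).getD c (.const 0)) (.const 2) ::
        Ys E.length m (Nat.pair a b)).getD d (.const 0)).eval x = y' := by
    rcases hy' with rfl | ⟨u', hu', rfl⟩
    · refine ⟨0, by omega, ?_⟩
      simp only [List.getD_cons_zero, eval_tsub, Term.eval, Int.cast_ofNat]
    · obtain ⟨d, hd, rfl⟩ := getD_of_mem hu'
      rw [length_Ys] at hd
      refine ⟨d + 1, by omega, ?_⟩
      simp only [List.getD_cons_succ]
  have hgood := good_of_holds hr (h6 a ha b hb c hc' d hd)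
  have hy : (sy E.length m (Nat.pair a b) c d).eval x =
      (((Ys E.length m (Nat.pair a b)).getD c (.const 0)).eval x + y') / 2 := by
    simp only [sy, Term.eval, hr.half, hdy]
    ring
  rw [hy] at hgood
  exact hgood

theorem fill_roots (x : ℕ → ℝ) {T w : ℕ} {L : T3} (hL : L.On fun k => stg k < T) :
    ∃ f, (roots L (V T w 0) (V T w 1)).Holds (fill x T w f) := by
  obtain ⟨r, s, h⟩ := exists_rootsIn (L.1.eval x) (L.2.1.eval x) (L.2.2.eval x)
  refine ⟨fun k => if k = 0 then r else s, ?_⟩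
  rw [holds_roots, eval_fill x _ hL.1, eval_fill x _ hL.2.1, eval_fill x _ hL.2.2]
  simpa [V, Term.eval] using h

/-- Completeness: a covering curve gives values of the variables. -/
theorem complete (v : ℕ → ℂ) (hv : ∑ i ∈ Finset.range m, dist (v i) (v (i + 1)) ≤ (k : ℝ))
    (hc : ∀ z ∈ closure {z : ℂ | (∀ e ∈ E, z ∉ segment ℝ (toC e.1) (toC e.2)) ∧
      Odd (crossings E z)}, Cov v m z) :
    ∃ x, (bigAnd (constraints E k m)).Holds x := by
  classical
  set x₀ : ℕ → ℝ := fun n => if pos n = 0 then (v (blk n)).re else (v (blk n)).im with hx₀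
  have hvx : ∀ x : ℕ → ℝ, (∀ n, stg n = 0 → x n = x₀ n) → vx x = v := by
    intro x hx
    funext i
    have h1 : (px i).eval x = (v i).re := by
      have : (px i).eval x = x (vr 0 i 0) := rfl
      rw [this, hx _ (by simp), hx₀]
      simp
    have h2 : (py i).eval x = (v i).im := by
      have : (py i).eval x = x (vr 0 i 1) := rfl
      rw [this, hx _ (by simp), hx₀]
      simp
    exact Complex.ext h1 h2
  obtain ⟨x, hx0, hx⟩ := staged (FF E m) (PP E.length m) x₀ (on_FF E m) (fun w h => h) (by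
    intro T x hx0 hprev w hw
    match T, hw with
    | 1, hw =>
      refine ⟨fun _ => 1 / 2, ?_⟩
      have hw0 : w = 0 := hw
      subst hw0
      refine (holds_F1 _).2 ?_
      have : hf.eval (fill x 1 0 fun _ => 1 / 2) = fill x 1 0 (fun _ => 1 / 2) (vr 1 0 0) := rfl
      rw [this, fill_own]
    | 2, hw =>
      refine ⟨fun r => if r = 0 then ((E.getD w e0).1.1 : ℝ) else if r = 1 then
        ((E.getD w e0).1.2 : ℝ) else if r = 2 then ((E.getD w e0).2.1 : ℝ) else
        ((E.getD w e0).2.2 : ℝ), ?_⟩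
      refine (holds_F2 _ _ _).2 ⟨?_, ?_, ?_, ?_⟩ <;> simp [ec, V, Term.eval]
    | 3, hw =>
      refine ⟨fun _ => dist (vx x w) (vx x (w + 1)), ?_⟩
      refine (holds_F3 _ _).2 ?_
      have h1 : ∀ i, vx (fill x 3 w fun _ => dist (vx x w) (vx x (w + 1))) i = vx x i := by
        intro i
        have h2 : (px i).eval (fill x 3 w fun _ => dist (vx x w) (vx x (w + 1))) = (px i).eval x :=
          eval_fill x _ (by simp)
        have h3 : (py i).eval (fill x 3 w fun _ => dist (vx x w) (vx x (w + 1))) = (py i).eval x :=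
          eval_fill x _ (by simp)
        exact Complex.ext h2 h3
      rw [h1, h1]
      have : (len w).eval (fill x 3 w fun _ => dist (vx x w) (vx x (w + 1))) =
        fill x 3 w (fun _ => dist (vx x w) (vx x (w + 1))) (vr 3 w 0) := rfl
      rw [this, fill_own]
    | 4, hw => exact fill_roots x (on_getD3 (on_EPs E.length m) w)
    | 5, hw =>
      have := fill_roots x (T := 5) (w := w)
        (on_getD3 (on_YPs E.length m (on_sx E.length m w.unpair.1.unpair.1 w.unpair.1.unpair.2))
          w.unpair.2)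
      have e : Nat.pair (Nat.pair w.unpair.1.unpair.1 w.unpair.1.unpair.2) w.unpair.2 = w := by
        simp
      simp only [FF, F5]
      rw [e]
      exact this
    | 6, hw =>
      have hr : Rep E m x := rep_of_holds (hprev 1 (by norm_num) 0 rfl)
        (fun j hj => hprev 2 (by norm_num) j hj) (fun i hi => hprev 3 (by norm_num) i hi)
      have hX : (sx E.length m w.unpair.1.unpair.1 w.unpair.1.unpair.2).On
          fun k => stg k < 6 := (on_sx _ _ _ _).mono fun k hk => by omega
      have hY := on_sy E.length m (Nat.pair w.unpair.1.unpair.1 w.unpair.1.unpair.2)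
        w.unpair.2.unpair.1 w.unpair.2.unpair.2
      have e : Nat.pair (Nat.pair w.unpair.1.unpair.1 w.unpair.1.unpair.2)
          (Nat.pair w.unpair.2.unpair.1 w.unpair.2.unpair.2) = w := by simp
      have := exists_good hr (w := w) hX hY (by
        intro hoff hodd
        rw [hvx x hx0]
        exact hc _ (subset_closure ⟨fun e he => not_mem_of_offLine (hoff e he), hodd⟩))
      simp only [FF, F6]
      rw [e]
      exact this) 7
  refine ⟨x, (holds_constraints x E k m).2 ?_⟩
  have h1 : F1.Holds x := hx 1 (by norm_num) 0 rfl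
  have h2 : ∀ j < E.length, (F2 (E.getD j e0) j).Holds x := fun j hj => hx 2 (by norm_num) j hj
  have h3 : ∀ i < m, (F3 i).Holds x := fun i hi => hx 3 (by norm_num) i hi
  have hr : Rep E m x := rep_of_holds h1 h2 h3
  refine ⟨h1, (holds_FL hr.len k).2 (by rw [hvx x hx0]; exact hv), h2, h3, ?_, ?_, ?_⟩
  · exact fun a _ => hx 4 (by norm_num) a trivial
  · intro a _ b _ c _
    have := hx 5 (by norm_num) (Nat.pair (Nat.pair a b) c) trivial
    simpa only [FF, Nat.unpair_pair] using this
  · intro a _ b _ c _ d _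
    have := hx 6 (by norm_num) (Nat.pair (Nat.pair a b) (Nat.pair c d)) trivial
    simpa only [FF, Nat.unpair_pair] using this

end

/-- The sentence of an instance is true exactly if the instance is a positive one. -/
theorem correct (I : Instance) : I.Mowable ↔ (sentence I).ExistsTrue := by
  constructor
  · rintro ⟨v, hv, hc⟩
    obtain ⟨x, hx⟩ := complete (E := I.edges) (k := (I.k : ℤ)) v (by simpa using hv) hc
    exact ⟨x, hx⟩
  · rintro ⟨x, hx⟩
    obtain ⟨h1, h2⟩ := sound hx
    exact ⟨vx x, by simpa using h1, h2⟩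

end Pool.Agent.MP_3ba9a9_lc
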