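import Pool.Agent.Lib.helper66.Raw
import Pool.Agent.MP_3ba9a9_lc.Build

/-!
# The sentence of an instance is computed in polynomial time
-/

open Pool.Agent.H66

namespace Pool.Agent.MP_3ba9a9_lc

/-! ### Encodings -/

instance : Enc ℤ := ⟨fun z => .node (Enc.toT (decide (z < 0))) (Enc.toT z.natAbs.bits)⟩
instance : Enc ℚ := ⟨fun r => .node (Enc.toT r.num) (Enc.toT (r.den : ℤ))⟩

/-- The tree that represents a polynomial expression. -/
def Term.toT : Term → T
  | .var n => .node (Enc.toT 0) (Enc.toT n)
  | .const c => .node (Enc.toT 1) (Enc.toT c)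
  | .add s t => .node (Enc.toT 2) (.node s.toT t.toT)
  | .mul s t => .node (Enc.toT 3) (.node s.toT t.toT)

instance : Enc Term := ⟨Term.toT⟩

/-- The tree that represents a formula. -/
def Formula.toT : Formula → T
  | .eq s t => .node (Enc.toT 0) (.node s.toT t.toT)
  | .le s t => .node (Enc.toT 1) (.node s.toT t.toT)
  | .lt s t => .node (Enc.toT 2) (.node s.toT t.toT)
  | .not φ => .node (Enc.toT 3) φ.toT
  | .and φ ψ => .node (Enc.toT 4) (.node φ.toT ψ.toT)
  | .or φ ψ => .node (Enc.toT 5) (.node φ.toT ψ.toT)

instance : Enc Formula := ⟨Formula.toT⟩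

instance : Enc Instance := ⟨fun I => Enc.toT (I.outer, (I.holes, ((I.k : ℤ), I.m)))⟩

instance : Inhabited Term := ⟨.const 0⟩
instance : Inhabited Formula := ⟨.eq (.const 0) (.const 0)⟩

theorem enc_int (z : ℤ) : enc z = true :: (enc (decide (z < 0)) ++ enc z.natAbs.bits) := rfl
theorem enc_rat (r : ℚ) : enc r = true :: (enc r.num ++ enc (r.den : ℤ)) := rfl
theorem enc_inst (I : Instance) : enc I = enc (I.outer, (I.holes, ((I.k : ℤ), I.m))) := rfl
theorem enc_var (n : ℕ) : enc (Term.var n) = enc (0, n) := rfl
theorem enc_const (c : ℤ) : enc (Term.const c) = enc (1, c) := rfl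
theorem enc_add (s t : Term) : enc (Term.add s t) = enc (2, (s, t)) := rfl
theorem enc_mul (s t : Term) : enc (Term.mul s t) = enc (3, (s, t)) := rfl
theorem enc_eq (s t : Term) : enc (Formula.eq s t) = enc (0, (s, t)) := rfl
theorem enc_le (s t : Term) : enc (Formula.le s t) = enc (1, (s, t)) := rfl
theorem enc_lt (s t : Term) : enc (Formula.lt s t) = enc (2, (s, t)) := rfl
theorem enc_not (φ : Formula) : enc (Formula.not φ) = enc (3, φ) := rfl
theorem enc_and (φ ψ : Formula) : enc (Formula.and φ ψ) = enc (4, (φ, ψ)) := rfl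
theorem enc_or (φ ψ : Formula) : enc (Formula.or φ ψ) = enc (5, (φ, ψ)) := rfl

/-! ### The codes of the definitions -/

theorem codeNat_eq (n : ℕ) : codeNat n = enc n := by
  induction n with
  | zero => rfl
  | succ n ih => rw [codeNat, enc_succ, ih]

theorem codeList_eq {α : Type} [Enc α] {c : α → List Bool} (hc : ∀ a, c a = enc a)
    (l : List α) : codeList c l = enc l := by
  induction l with
  | nil => rfl
  | cons a l ih => rw [codeList, enc_cons, hc, ih]

theorem codeBit_eq (b : Bool) : codeBit b = enc b := by cases b <;> rfl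

theorem codeInt_eq (z : ℤ) : codeInt z = enc z := by
  rw [enc_int, codeInt, codePair, codeBit_eq, codeList_eq codeBit_eq]

theorem codeRat_eq (r : ℚ) : codeRat r = enc r := by
  rw [enc_rat, codeRat, codePair, codeInt_eq, codeInt_eq]

theorem term_code_eq : ∀ t : Term, t.code = enc t
  | .var n => by rw [Term.code, enc_var, enc_pair, codePair, codeNat_eq, codeNat_eq]
  | .const c => by rw [Term.code, enc_const, enc_pair, codePair, codeNat_eq, codeInt_eq]
  | .add s t => by
    rw [Term.code, enc_add, enc_pair, enc_pair, codePair, codePair, codeNat_eq, term_code_eq s,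
      term_code_eq t]
  | .mul s t => by
    rw [Term.code, enc_mul, enc_pair, enc_pair, codePair, codePair, codeNat_eq, term_code_eq s,
      term_code_eq t]

theorem formula_code_eq : ∀ φ : Formula, φ.code = enc φ
  | .eq s t => by
    rw [Formula.code, enc_eq, enc_pair, enc_pair, codePair, codePair, codeNat_eq, term_code_eq s,
      term_code_eq t]
  | .le s t => by
    rw [Formula.code, enc_le, enc_pair, enc_pair, codePair, codePair, codeNat_eq, term_code_eq s,
      term_code_eq t]
  | .lt s t => by
    rw [Formula.code, enc_lt, enc_pair, enc_pair, codePair, codePair, codeNat_eq, term_code_eq s,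
      term_code_eq t]
  | .not φ => by
    rw [Formula.code, enc_not, enc_pair, codePair, codeNat_eq, formula_code_eq φ]
  | .and φ ψ => by
    rw [Formula.code, enc_and, enc_pair, enc_pair, codePair, codePair, codeNat_eq,
      formula_code_eq φ, formula_code_eq ψ]
  | .or φ ψ => by
    rw [Formula.code, enc_or, enc_pair, enc_pair, codePair, codePair, codeNat_eq,
      formula_code_eq φ, formula_code_eq ψ]

theorem inst_code_eq (I : Instance) : I.code = enc I := by
  have h1 : ∀ p : ℚ × ℚ, codePair (codeRat p.1) (codeRat p.2) = enc p := fun p => by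
    rw [codeRat_eq, codeRat_eq, enc_prod, codePair]
  rw [enc_inst, Instance.code, codeList_eq h1, codeList_eq (codeList_eq h1), codeInt_eq,
    codeNat_eq]
  rfl

/-! ### Syntax-directed rules -/

section rules
variable {α β γ δ : Type} [Enc α] [Enc β] [Enc γ] [Enc δ]

theorem ptFst {f : γ → α × β} (h : PolyTime f) : PolyTime fun c => (f c).1 := PolyTime.fst.comp h
theorem ptSnd {f : γ → α × β} (h : PolyTime f) : PolyTime fun c => (f c).2 := PolyTime.snd.comp h
theorem ptCons {a : γ → α} {l : γ → List α} (ha : PolyTime a) (hl : PolyTime l) :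
    PolyTime fun c => a c :: l c := PolyTime.cons.comp (ha.pair hl)
theorem ptIte {p : γ → Prop} [DecidablePred p] {f g : γ → α} (hp : PolyTime fun c => decide (p c))
    (hf : PolyTime f) (hg : PolyTime g) : PolyTime fun c => if p c then f c else g c :=
  (hp.ite hf hg).of_eq fun c => by by_cases h : p c <;> simp [h]

theorem ptPair {a b : γ → ℕ} (ha : PolyTime a) (hb : PolyTime b) :
    PolyTime fun c => Nat.pair (a c) (b c) := by
  unfold Nat.pair
  exact ptIte (PolyTime.ltb ha hb) (PolyTime.add (PolyTime.mul hb hb) ha)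
    (PolyTime.add (PolyTime.add (PolyTime.mul ha ha) ha) hb)

theorem ptEnc {f : γ → α} (g : γ → β) (hf : PolyTime f) (h : ∀ c, enc (g c) = enc (f c)) :
    PolyTime g := by
  obtain ⟨P, N, u, hu, hU, H⟩ := hf
  refine ⟨P, N, u, hu, hU, fun b S a => ?_⟩
  rw [h a]
  exact H b S a

theorem ptVar {n : γ → ℕ} (h : PolyTime n) : PolyTime fun c => Term.var (n c) :=
  ptEnc _ ((PolyTime.const 0).pair h) fun _ => enc_var _
theorem ptConst {n : γ → ℤ} (h : PolyTime n) : PolyTime fun c => Term.const (n c) :=
  ptEnc _ ((PolyTime.const 1).pair h) fun _ => enc_const _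
theorem ptAdd {s t : γ → Term} (hs : PolyTime s) (ht : PolyTime t) :
    PolyTime fun c => Term.add (s c) (t c) :=
  ptEnc _ ((PolyTime.const 2).pair (hs.pair ht)) fun _ => enc_add _ _
theorem ptMul {s t : γ → Term} (hs : PolyTime s) (ht : PolyTime t) :
    PolyTime fun c => Term.mul (s c) (t c) :=
  ptEnc _ ((PolyTime.const 3).pair (hs.pair ht)) fun _ => enc_mul _ _
theorem ptEq {s t : γ → Term} (hs : PolyTime s) (ht : PolyTime t) :
    PolyTime fun c => Formula.eq (s c) (t c) :=
  ptEnc _ ((PolyTime.const 0).pair (hs.pair ht)) fun _ => enc_eq _ _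
theorem ptLe {s t : γ → Term} (hs : PolyTime s) (ht : PolyTime t) :
    PolyTime fun c => Formula.le (s c) (t c) :=
  ptEnc _ ((PolyTime.const 1).pair (hs.pair ht)) fun _ => enc_le _ _
theorem ptLt {s t : γ → Term} (hs : PolyTime s) (ht : PolyTime t) :
    PolyTime fun c => Formula.lt (s c) (t c) :=
  ptEnc _ ((PolyTime.const 2).pair (hs.pair ht)) fun _ => enc_lt _ _
theorem ptNot {φ : γ → Formula} (h : PolyTime φ) : PolyTime fun c => Formula.not (φ c) :=
  ptEnc _ ((PolyTime.const 3).pair h) fun _ => enc_not _
theorem ptAnd {φ ψ : γ → Formula} (h : PolyTime φ) (h' : PolyTime ψ) :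
    PolyTime fun c => Formula.and (φ c) (ψ c) :=
  ptEnc _ ((PolyTime.const 4).pair (h.pair h')) fun _ => enc_and _ _
theorem ptOr {φ ψ : γ → Formula} (h : PolyTime φ) (h' : PolyTime ψ) :
    PolyTime fun c => Formula.or (φ c) (ψ c) :=
  ptEnc _ ((PolyTime.const 5).pair (h.pair h')) fun _ => enc_or _ _

/-- The projections of an instance. -/
theorem ptOuter : PolyTime fun I : Instance => I.outer :=
  ptFst (f := fun I : Instance => (I.outer, (I.holes, ((I.k : ℤ), I.m))))
    (PolyTime.of_enc_eq fun _ => rfl)
theorem ptHoles : PolyTime fun I : Instance => I.holes :=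
  ptFst (ptSnd (f := fun I : Instance => (I.outer, (I.holes, ((I.k : ℤ), I.m))))
    (PolyTime.of_enc_eq fun _ => rfl))
theorem ptK : PolyTime fun I : Instance => (I.k : ℤ) :=
  ptFst (ptSnd (ptSnd (f := fun I : Instance => (I.outer, (I.holes, ((I.k : ℤ), I.m))))
    (PolyTime.of_enc_eq fun _ => rfl)))
theorem ptM : PolyTime fun I : Instance => I.m :=
  ptSnd (ptSnd (ptSnd (f := fun I : Instance => (I.outer, (I.holes, ((I.k : ℤ), I.m))))
    (PolyTime.of_enc_eq fun _ => rfl)))

theorem ptNum {r : γ → ℚ} (h : PolyTime r) : PolyTime fun c => (r c).num :=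
  (polyTime_left (f := fun r : ℚ => r.num) fun _ => ⟨_, rfl⟩).comp h
theorem ptDen {r : γ → ℚ} (h : PolyTime r) : PolyTime fun c => ((r c).den : ℤ) :=
  (polyTime_right (f := fun r : ℚ => (r.den : ℤ)) fun _ => ⟨_, rfl⟩).comp h

theorem ptGetD {n : γ → ℕ} {l : γ → List α} (hn : PolyTime n) (hl : PolyTime l) (d : α) :
    PolyTime fun c => (l c).getD (n c) d := PolyTime.getD hn hl d

/-! ### Folds -/

theorem foldl_and_length (l : List Formula) : ∀ acc : Formula,
    (enc (l.foldl (fun acc φ => Formula.and φ acc) acc)).length ≤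
      (enc acc).length + 13 * (enc l).length := by
  induction l with
  | nil => intro acc; simp
  | cons a l ih =>
    intro acc
    rw [List.foldl_cons]
    have h1 := ih (Formula.and a acc)
    have h2 : (enc (Formula.and a acc)).length = 11 + (enc a).length + (enc acc).length := by
      rw [enc_and, enc_pair, enc_pair]
      simp only [List.length_cons, List.length_append, enc_nat_length]
      omega
    rw [enc_cons]
    simp only [List.length_cons, List.length_append]
    omega

theorem foldl_or_length (l : List Formula) : ∀ acc : Formula,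
    (enc (l.foldl (fun acc φ => Formula.or φ acc) acc)).length ≤
      (enc acc).length + 15 * (enc l).length := by
  induction l with
  | nil => intro acc; simp
  | cons a l ih =>
    intro acc
    rw [List.foldl_cons]
    have h1 := ih (Formula.or a acc)
    have h2 : (enc (Formula.or a acc)).length = 13 + (enc a).length + (enc acc).length := by
      rw [enc_or, enc_pair, enc_pair]
      simp only [List.length_cons, List.length_append, enc_nat_length]
      omega
    rw [enc_cons]
    simp only [List.length_cons, List.length_append]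
    omega

theorem foldl_add_length (l : List Term) : ∀ acc : Term,
    (enc (l.foldl (fun acc t => Term.add t acc) acc)).length ≤
      (enc acc).length + 15 * (enc l).length := by
  induction l with
  | nil => intro acc; simp
  | cons a l ih =>
    intro acc
    rw [List.foldl_cons]
    have h1 := ih (Term.add a acc)
    have h2 : (enc (Term.add a acc)).length = 7 + (enc a).length + (enc acc).length := by
      rw [enc_add, enc_pair, enc_pair]
      simp only [List.length_cons, List.length_append, enc_nat_length]
      omega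
    rw [enc_cons]
    simp only [List.length_cons, List.length_append]
    omega

theorem ptFold {ini : β} {f : β → α → β} [Inhabited α] {l : γ → List α} (hl : PolyTime l)
    (hf : PolyTime fun p : β × α => f p.1 p.2) (K : ℕ)
    (hb : ∀ (l : List α) (acc : β), (enc (l.foldl f acc)).length ≤
      (enc acc).length + K * (enc l).length) :
    PolyTime fun c => (l c).foldl f ini := by
  obtain ⟨s, hs, hs'⟩ := hl.size
  refine PolyTime.foldl (f := fun _ => f) (ini := fun _ => ini) hl (PolyTime.const ini)
    (hf.comp PolyTime.snd) (fun n => (enc ini).length + K * s n)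
    ((PB.const _).add ((PB.const K).mul hs)) fun c i => ?_
  refine (hb _ _).trans ?_
  have h1 := enc_take_le (l c) i
  have h2 := hs' c
  have h3 : K * (enc ((l c).take i)).length ≤ K * s (enc c).length :=
    Nat.mul_le_mul_left _ (h1.trans h2)
  omega

theorem ptBigAnd {l : γ → List Formula} (hl : PolyTime l) : PolyTime fun c => bigAnd (l c) :=
  ptFold hl (ptAnd (ptSnd PolyTime.id) (ptFst PolyTime.id)) 13 foldl_and_length

theorem ptBigOr {l : γ → List Formula} (hl : PolyTime l) : PolyTime fun c => bigOr (l c) :=
  ptFold hl (ptOr (ptSnd PolyTime.id) (ptFst PolyTime.id)) 15 foldl_or_length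

theorem ptTsum {l : γ → List Term} (hl : PolyTime l) : PolyTime fun c => tsum (l c) :=
  ptFold hl (ptAdd (ptSnd PolyTime.id) (ptFst PolyTime.id)) 15 foldl_add_length

end rules

end Pool.Agent.MP_3ba9a9_lc
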