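import Pool.Agent.MP_3ba9a9_lc.PT

/-!
# The sentence of an instance is computed in polynomial time: the constructions
-/

open Pool.Agent.H66

namespace Pool.Agent.MP_3ba9a9_lc

section
variable {γ : Type} [Enc γ]

theorem ptb_vr : PolyTime fun p : ℕ × (ℕ × ℕ) => vr (p.1) (p.2.1) (p.2.2) := by
  unfold vr
  repeat first
    | with_reducible exact PolyTime.const _
    | with_reducible exact PolyTime.id
    | with_reducible assumption
    | with_reducible apply ptFst
    | with_reducible apply ptSnd
    | with_reducible apply PolyTime.add
    | with_reducible apply PolyTime.mul
    | with_reducible apply PolyTime.range
    | with_reducible apply PolyTime.length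
    | with_reducible apply PolyTime.append
    | with_reducible apply PolyTime.map
    | with_reducible apply PolyTime.flatMap
    | with_reducible apply ptCons
    | with_reducible apply ptGetD
    | with_reducible apply ptPair
    | with_reducible apply ptVar
    | with_reducible apply ptConst
    | with_reducible apply ptNum
    | with_reducible apply ptDen
    | with_reducible apply ptAdd
    | with_reducible apply ptMul
    | with_reducible apply ptEq
    | with_reducible apply ptLe
    | with_reducible apply ptLt
    | with_reducible apply ptNot
    | with_reducible apply ptAnd
    | with_reducible apply ptOr
    | with_reducible apply ptBigAnd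
    | with_reducible apply ptBigOr
    | with_reducible apply ptTsum
    | with_reducible apply PolyTime.pair

theorem pt_vr {T : γ → ℕ} {w : γ → ℕ} {j : γ → ℕ}
    (h0 : PolyTime T) (h1 : PolyTime w) (h2 : PolyTime j) :
    PolyTime fun z => vr (T z) (w z) (j z) := by
  have h := ptb_vr.comp (h0.pair (h1.pair h2))
  exact h

theorem ptb_V : PolyTime fun p : ℕ × (ℕ × ℕ) => V (p.1) (p.2.1) (p.2.2) := by
  unfold V
  repeat first
    | with_reducible exact PolyTime.const _
    | with_reducible exact PolyTime.id
    | with_reducible assumption
    | with_reducible apply ptFst
    | with_reducible apply ptSnd
    | with_reducible apply PolyTime.add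
    | with_reducible apply PolyTime.mul
    | with_reducible apply PolyTime.range
    | with_reducible apply PolyTime.length
    | with_reducible apply PolyTime.append
    | with_reducible apply PolyTime.map
    | with_reducible apply PolyTime.flatMap
    | with_reducible apply ptCons
    | with_reducible apply ptGetD
    | with_reducible apply ptPair
    | with_reducible apply ptVar
    | with_reducible apply ptConst
    | with_reducible apply ptNum
    | with_reducible apply ptDen
    | with_reducible apply ptAdd
    | with_reducible apply ptMul
    | with_reducible apply ptEq
    | with_reducible apply ptLe
    | with_reducible apply ptLt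
    | with_reducible apply ptNot
    | with_reducible apply ptAnd
    | with_reducible apply ptOr
    | with_reducible apply ptBigAnd
    | with_reducible apply ptBigOr
    | with_reducible apply ptTsum
    | with_reducible apply pt_vr
    | with_reducible apply PolyTime.pair

theorem pt_V {T : γ → ℕ} {w : γ → ℕ} {j : γ → ℕ}
    (h0 : PolyTime T) (h1 : PolyTime w) (h2 : PolyTime j) :
    PolyTime fun z => V (T z) (w z) (j z) := by
  have h := ptb_V.comp (h0.pair (h1.pair h2))
  exact h

theorem ptb_px : PolyTime fun p : ℕ => px p := by
  unfold px
  repeat first
    | with_reducible exact PolyTime.const _
    | with_reducible exact PolyTime.id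
    | with_reducible assumption
    | with_reducible apply ptFst
    | with_reducible apply ptSnd
    | with_reducible apply PolyTime.add
    | with_reducible apply PolyTime.mul
    | with_reducible apply PolyTime.range
    | with_reducible apply PolyTime.length
    | with_reducible apply PolyTime.append
    | with_reducible apply PolyTime.map
    | with_reducible apply PolyTime.flatMap
    | with_reducible apply ptCons
    | with_reducible apply ptGetD
    | with_reducible apply ptPair
    | with_reducible apply ptVar
    | with_reducible apply ptConst
    | with_reducible apply ptNum
    | with_reducible apply ptDen
    | with_reducible apply ptAdd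
    | with_reducible apply ptMul
    | with_reducible apply ptEq
    | with_reducible apply ptLe
    | with_reducible apply ptLt
    | with_reducible apply ptNot
    | with_reducible apply ptAnd
    | with_reducible apply ptOr
    | with_reducible apply ptBigAnd
    | with_reducible apply ptBigOr
    | with_reducible apply ptTsum
    | with_reducible apply pt_vr
    | with_reducible apply pt_V
    | with_reducible apply PolyTime.pair

theorem pt_px {i : γ → ℕ}
    (h0 : PolyTime i) :
    PolyTime fun z => px (i z) := by
  have h := ptb_px.comp h0
  exact h

theorem ptb_py : PolyTime fun p : ℕ => py p := by
  unfold py
  repeat first
    | with_reducible exact PolyTime.const _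
    | with_reducible exact PolyTime.id
    | with_reducible assumption
    | with_reducible apply ptFst
    | with_reducible apply ptSnd
    | with_reducible apply PolyTime.add
    | with_reducible apply PolyTime.mul
    | with_reducible apply PolyTime.range
    | with_reducible apply PolyTime.length
    | with_reducible apply PolyTime.append
    | with_reducible apply PolyTime.map
    | with_reducible apply PolyTime.flatMap
    | with_reducible apply ptCons
    | with_reducible apply ptGetD
    | with_reducible apply ptPair
    | with_reducible apply ptVar
    | with_reducible apply ptConst
    | with_reducible apply ptNum
    | with_reducible apply ptDen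
    | with_reducible apply ptAdd
    | with_reducible apply ptMul
    | with_reducible apply ptEq
    | with_reducible apply ptLe
    | with_reducible apply ptLt
    | with_reducible apply ptNot
    | with_reducible apply ptAnd
    | with_reducible apply ptOr
    | with_reducible apply ptBigAnd
    | with_reducible apply ptBigOr
    | with_reducible apply ptTsum
    | with_reducible apply pt_vr
    | with_reducible apply pt_V
    | with_reducible apply pt_px
    | with_reducible apply PolyTime.pair

theorem pt_py {i : γ → ℕ}
    (h0 : PolyTime i) :
    PolyTime fun z => py (i z) := by
  have h := ptb_py.comp h0
  exact h

theorem ptb_ec : PolyTime fun p : ℕ × ℕ => ec (p.1) (p.2) := by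
  unfold ec
  repeat first
    | with_reducible exact PolyTime.const _
    | with_reducible exact PolyTime.id
    | with_reducible assumption
    | with_reducible apply ptFst
    | with_reducible apply ptSnd
    | with_reducible apply PolyTime.add
    | with_reducible apply PolyTime.mul
    | with_reducible apply PolyTime.range
    | with_reducible apply PolyTime.length
    | with_reducible apply PolyTime.append
    | with_reducible apply PolyTime.map
    | with_reducible apply PolyTime.flatMap
    | with_reducible apply ptCons
    | with_reducible apply ptGetD
    | with_reducible apply ptPair
    | with_reducible apply ptVar
    | with_reducible apply ptConst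
    | with_reducible apply ptNum
    | with_reducible apply ptDen
    | with_reducible apply ptAdd
    | with_reducible apply ptMul
    | with_reducible apply ptEq
    | with_reducible apply ptLe
    | with_reducible apply ptLt
    | with_reducible apply ptNot
    | with_reducible apply ptAnd
    | with_reducible apply ptOr
    | with_reducible apply ptBigAnd
    | with_reducible apply ptBigOr
    | with_reducible apply ptTsum
    | with_reducible apply pt_vr
    | with_reducible apply pt_V
    | with_reducible apply pt_px
    | with_reducible apply pt_py
    | with_reducible apply PolyTime.pair

theorem pt_ec {j : γ → ℕ} {r : γ → ℕ}
    (h0 : PolyTime j) (h1 : PolyTime r) :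
    PolyTime fun z => ec (j z) (r z) := by
  have h := ptb_ec.comp (h0.pair h1)
  exact h

theorem ptb_len : PolyTime fun p : ℕ => len p := by
  unfold len
  repeat first
    | with_reducible exact PolyTime.const _
    | with_reducible exact PolyTime.id
    | with_reducible assumption
    | with_reducible apply ptFst
    | with_reducible apply ptSnd
    | with_reducible apply PolyTime.add
    | with_reducible apply PolyTime.mul
    | with_reducible apply PolyTime.range
    | with_reducible apply PolyTime.length
    | with_reducible apply PolyTime.append
    | with_reducible apply PolyTime.map
    | with_reducible apply PolyTime.flatMap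
    | with_reducible apply ptCons
    | with_reducible apply ptGetD
    | with_reducible apply ptPair
    | with_reducible apply ptVar
    | with_reducible apply ptConst
    | with_reducible apply ptNum
    | with_reducible apply ptDen
    | with_reducible apply ptAdd
    | with_reducible apply ptMul
    | with_reducible apply ptEq
    | with_reducible apply ptLe
    | with_reducible apply ptLt
    | with_reducible apply ptNot
    | with_reducible apply ptAnd
    | with_reducible apply ptOr
    | with_reducible apply ptBigAnd
    | with_reducible apply ptBigOr
    | with_reducible apply ptTsum
    | with_reducible apply pt_vr
    | with_reducible apply pt_V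
    | with_reducible apply pt_px
    | with_reducible apply pt_py
    | with_reducible apply pt_ec
    | with_reducible apply PolyTime.pair

theorem pt_len {i : γ → ℕ}
    (h0 : PolyTime i) :
    PolyTime fun z => len (i z) := by
  have h := ptb_len.comp h0
  exact h

theorem ptb_tsub : PolyTime fun p : Term × Term => tsub (p.1) (p.2) := by
  unfold tsub
  repeat first
    | with_reducible exact PolyTime.const _
    | with_reducible exact PolyTime.id
    | with_reducible assumption
    | with_reducible apply ptFst
    | with_reducible apply ptSnd
    | with_reducible apply PolyTime.add
    | with_reducible apply PolyTime.mul
    | with_reducible apply PolyTime.range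
    | with_reducible apply PolyTime.length
    | with_reducible apply PolyTime.append
    | with_reducible apply PolyTime.map
    | with_reducible apply PolyTime.flatMap
    | with_reducible apply ptCons
    | with_reducible apply ptGetD
    | with_reducible apply ptPair
    | with_reducible apply ptVar
    | with_reducible apply ptConst
    | with_reducible apply ptNum
    | with_reducible apply ptDen
    | with_reducible apply ptAdd
    | with_reducible apply ptMul
    | with_reducible apply ptEq
    | with_reducible apply ptLe
    | with_reducible apply ptLt
    | with_reducible apply ptNot
    | with_reducible apply ptAnd
    | with_reducible apply ptOr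
    | with_reducible apply ptBigAnd
    | with_reducible apply ptBigOr
    | with_reducible apply ptTsum
    | with_reducible apply pt_vr
    | with_reducible apply pt_V
    | with_reducible apply pt_px
    | with_reducible apply pt_py
    | with_reducible apply pt_ec
    | with_reducible apply pt_len
    | with_reducible apply PolyTime.pair

theorem pt_tsub {s : γ → Term} {t : γ → Term}
    (h0 : PolyTime s) (h1 : PolyTime t) :
    PolyTime fun z => tsub (s z) (t z) := by
  have h := ptb_tsub.comp (h0.pair h1)
  exact h

theorem ptb_tsq : PolyTime fun p : Term => tsq p := by
  unfold tsq
  repeat first
    | with_reducible exact PolyTime.const _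
    | with_reducible exact PolyTime.id
    | with_reducible assumption
    | with_reducible apply ptFst
    | with_reducible apply ptSnd
    | with_reducible apply PolyTime.add
    | with_reducible apply PolyTime.mul
    | with_reducible apply PolyTime.range
    | with_reducible apply PolyTime.length
    | with_reducible apply PolyTime.append
    | with_reducible apply PolyTime.map
    | with_reducible apply PolyTime.flatMap
    | with_reducible apply ptCons
    | with_reducible apply ptGetD
    | with_reducible apply ptPair
    | with_reducible apply ptVar
    | with_reducible apply ptConst
    | with_reducible apply ptNum
    | with_reducible apply ptDen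
    | with_reducible apply ptAdd
    | with_reducible apply ptMul
    | with_reducible apply ptEq
    | with_reducible apply ptLe
    | with_reducible apply ptLt
    | with_reducible apply ptNot
    | with_reducible apply ptAnd
    | with_reducible apply ptOr
    | with_reducible apply ptBigAnd
    | with_reducible apply ptBigOr
    | with_reducible apply ptTsum
    | with_reducible apply pt_vr
    | with_reducible apply pt_V
    | with_reducible apply pt_px
    | with_reducible apply pt_py
    | with_reducible apply pt_ec
    | with_reducible apply pt_len
    | with_reducible apply pt_tsub
    | with_reducible apply PolyTime.pair

theorem pt_tsq {s : γ → Term}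
    (h0 : PolyTime s) :
    PolyTime fun z => tsq (s z) := by
  have h := ptb_tsq.comp h0
  exact h

theorem ptb_edgeL : PolyTime fun p : ℕ => edgeL p := by
  unfold edgeL
  repeat first
    | with_reducible exact PolyTime.const _
    | with_reducible exact PolyTime.id
    | with_reducible assumption
    | with_reducible apply ptFst
    | with_reducible apply ptSnd
    | with_reducible apply PolyTime.add
    | with_reducible apply PolyTime.mul
    | with_reducible apply PolyTime.range
    | with_reducible apply PolyTime.length
    | with_reducible apply PolyTime.append
    | with_reducible apply PolyTime.map
    | with_reducible apply PolyTime.flatMap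
    | with_reducible apply ptCons
    | with_reducible apply ptGetD
    | with_reducible apply ptPair
    | with_reducible apply ptVar
    | with_reducible apply ptConst
    | with_reducible apply ptNum
    | with_reducible apply ptDen
    | with_reducible apply ptAdd
    | with_reducible apply ptMul
    | with_reducible apply ptEq
    | with_reducible apply ptLe
    | with_reducible apply ptLt
    | with_reducible apply ptNot
    | with_reducible apply ptAnd
    | with_reducible apply ptOr
    | with_reducible apply ptBigAnd
    | with_reducible apply ptBigOr
    | with_reducible apply ptTsum
    | with_reducible apply pt_vr
    | with_reducible apply pt_V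
    | with_reducible apply pt_px
    | with_reducible apply pt_py
    | with_reducible apply pt_ec
    | with_reducible apply pt_len
    | with_reducible apply pt_tsub
    | with_reducible apply pt_tsq
    | with_reducible apply PolyTime.pair

theorem pt_edgeL {j : γ → ℕ}
    (h0 : PolyTime j) :
    PolyTime fun z => edgeL (j z) := by
  have h := ptb_edgeL.comp h0
  exact h

theorem ptb_offL : PolyTime fun p : ℕ × ℤ => offL (p.1) (p.2) := by
  unfold offL
  repeat first
    | with_reducible exact PolyTime.const _
    | with_reducible exact PolyTime.id
    | with_reducible assumption
    | with_reducible apply ptFst
    | with_reducible apply ptSnd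
    | with_reducible apply PolyTime.add
    | with_reducible apply PolyTime.mul
    | with_reducible apply PolyTime.range
    | with_reducible apply PolyTime.length
    | with_reducible apply PolyTime.append
    | with_reducible apply PolyTime.map
    | with_reducible apply PolyTime.flatMap
    | with_reducible apply ptCons
    | with_reducible apply ptGetD
    | with_reducible apply ptPair
    | with_reducible apply ptVar
    | with_reducible apply ptConst
    | with_reducible apply ptNum
    | with_reducible apply ptDen
    | with_reducible apply ptAdd
    | with_reducible apply ptMul
    | with_reducible apply ptEq
    | with_reducible apply ptLe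
    | with_reducible apply ptLt
    | with_reducible apply ptNot
    | with_reducible apply ptAnd
    | with_reducible apply ptOr
    | with_reducible apply ptBigAnd
    | with_reducible apply ptBigOr
    | with_reducible apply ptTsum
    | with_reducible apply pt_vr
    | with_reducible apply pt_V
    | with_reducible apply pt_px
    | with_reducible apply pt_py
    | with_reducible apply pt_ec
    | with_reducible apply pt_len
    | with_reducible apply pt_tsub
    | with_reducible apply pt_tsq
    | with_reducible apply pt_edgeL
    | with_reducible apply PolyTime.pair

theorem pt_offL {i : γ → ℕ} {s : γ → ℤ}
    (h0 : PolyTime i) (h1 : PolyTime s) :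
    PolyTime fun z => offL (i z) (s z) := by
  have h := ptb_offL.comp (h0.pair h1)
  exact h

theorem ptb_radL : PolyTime fun p : ℕ × ℕ => radL (p.1) (p.2) := by
  unfold radL
  repeat first
    | with_reducible exact PolyTime.const _
    | with_reducible exact PolyTime.id
    | with_reducible assumption
    | with_reducible apply ptFst
    | with_reducible apply ptSnd
    | with_reducible apply PolyTime.add
    | with_reducible apply PolyTime.mul
    | with_reducible apply PolyTime.range
    | with_reducible apply PolyTime.length
    | with_reducible apply PolyTime.append
    | with_reducible apply PolyTime.map
    | with_reducible apply PolyTime.flatMap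
    | with_reducible apply ptCons
    | with_reducible apply ptGetD
    | with_reducible apply ptPair
    | with_reducible apply ptVar
    | with_reducible apply ptConst
    | with_reducible apply ptNum
    | with_reducible apply ptDen
    | with_reducible apply ptAdd
    | with_reducible apply ptMul
    | with_reducible apply ptEq
    | with_reducible apply ptLe
    | with_reducible apply ptLt
    | with_reducible apply ptNot
    | with_reducible apply ptAnd
    | with_reducible apply ptOr
    | with_reducible apply ptBigAnd
    | with_reducible apply ptBigOr
    | with_reducible apply ptTsum
    | with_reducible apply pt_vr
    | with_reducible apply pt_V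
    | with_reducible apply pt_px
    | with_reducible apply pt_py
    | with_reducible apply pt_ec
    | with_reducible apply pt_len
    | with_reducible apply pt_tsub
    | with_reducible apply pt_tsq
    | with_reducible apply pt_edgeL
    | with_reducible apply pt_offL
    | with_reducible apply PolyTime.pair

theorem pt_radL {i : γ → ℕ} {j : γ → ℕ}
    (h0 : PolyTime i) (h1 : PolyTime j) :
    PolyTime fun z => radL (i z) (j z) := by
  have h := ptb_radL.comp (h0.pair h1)
  exact h

theorem ptb_LTs : PolyTime fun p : ℕ × ℕ => LTs (p.1) (p.2) := by
  unfold LTs
  repeat first
    | with_reducible exact PolyTime.const _
    | with_reducible exact PolyTime.id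
    | with_reducible assumption
    | with_reducible apply ptFst
    | with_reducible apply ptSnd
    | with_reducible apply PolyTime.add
    | with_reducible apply PolyTime.mul
    | with_reducible apply PolyTime.range
    | with_reducible apply PolyTime.length
    | with_reducible apply PolyTime.append
    | with_reducible apply PolyTime.map
    | with_reducible apply PolyTime.flatMap
    | with_reducible apply ptCons
    | with_reducible apply ptGetD
    | with_reducible apply ptPair
    | with_reducible apply ptVar
    | with_reducible apply ptConst
    | with_reducible apply ptNum
    | with_reducible apply ptDen
    | with_reducible apply ptAdd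
    | with_reducible apply ptMul
    | with_reducible apply ptEq
    | with_reducible apply ptLe
    | with_reducible apply ptLt
    | with_reducible apply ptNot
    | with_reducible apply ptAnd
    | with_reducible apply ptOr
    | with_reducible apply ptBigAnd
    | with_reducible apply ptBigOr
    | with_reducible apply ptTsum
    | with_reducible apply pt_vr
    | with_reducible apply pt_V
    | with_reducible apply pt_px
    | with_reducible apply pt_py
    | with_reducible apply pt_ec
    | with_reducible apply pt_len
    | with_reducible apply pt_tsub
    | with_reducible apply pt_tsq
    | with_reducible apply pt_edgeL
    | with_reducible apply pt_offL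
    | with_reducible apply pt_radL
    | with_reducible apply PolyTime.pair

theorem pt_LTs {n : γ → ℕ} {m : γ → ℕ}
    (h0 : PolyTime n) (h1 : PolyTime m) :
    PolyTime fun z => LTs (n z) (m z) := by
  have h := ptb_LTs.comp (h0.pair h1)
  exact h

theorem ptb_llP : PolyTime fun p : T3 × T3 => llP (p.1) (p.2) := by
  unfold llP
  repeat first
    | with_reducible exact PolyTime.const _
    | with_reducible exact PolyTime.id
    | with_reducible assumption
    | with_reducible apply ptFst
    | with_reducible apply ptSnd
    | with_reducible apply PolyTime.add
    | with_reducible apply PolyTime.mul
    | with_reducible apply PolyTime.range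
    | with_reducible apply PolyTime.length
    | with_reducible apply PolyTime.append
    | with_reducible apply PolyTime.map
    | with_reducible apply PolyTime.flatMap
    | with_reducible apply ptCons
    | with_reducible apply ptGetD
    | with_reducible apply ptPair
    | with_reducible apply ptVar
    | with_reducible apply ptConst
    | with_reducible apply ptNum
    | with_reducible apply ptDen
    | with_reducible apply ptAdd
    | with_reducible apply ptMul
    | with_reducible apply ptEq
    | with_reducible apply ptLe
    | with_reducible apply ptLt
    | with_reducible apply ptNot
    | with_reducible apply ptAnd
    | with_reducible apply ptOr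
    | with_reducible apply ptBigAnd
    | with_reducible apply ptBigOr
    | with_reducible apply ptTsum
    | with_reducible apply pt_vr
    | with_reducible apply pt_V
    | with_reducible apply pt_px
    | with_reducible apply pt_py
    | with_reducible apply pt_ec
    | with_reducible apply pt_len
    | with_reducible apply pt_tsub
    | with_reducible apply pt_tsq
    | with_reducible apply pt_edgeL
    | with_reducible apply pt_offL
    | with_reducible apply pt_radL
    | with_reducible apply pt_LTs
    | with_reducible apply PolyTime.pair

theorem pt_llP {L : γ → T3} {M : γ → T3}
    (h0 : PolyTime L) (h1 : PolyTime M) :
    PolyTime fun z => llP (L z) (M z) := by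
  have h := ptb_llP.comp (h0.pair h1)
  exact h

theorem ptb_lcP : PolyTime fun p : T3 × ℕ => lcP (p.1) (p.2) := by
  unfold lcP
  repeat first
    | with_reducible exact PolyTime.const _
    | with_reducible exact PolyTime.id
    | with_reducible assumption
    | with_reducible apply ptFst
    | with_reducible apply ptSnd
    | with_reducible apply PolyTime.add
    | with_reducible apply PolyTime.mul
    | with_reducible apply PolyTime.range
    | with_reducible apply PolyTime.length
    | with_reducible apply PolyTime.append
    | with_reducible apply PolyTime.map
    | with_reducible apply PolyTime.flatMap
    | with_reducible apply ptCons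
    | with_reducible apply ptGetD
    | with_reducible apply ptPair
    | with_reducible apply ptVar
    | with_reducible apply ptConst
    | with_reducible apply ptNum
    | with_reducible apply ptDen
    | with_reducible apply ptAdd
    | with_reducible apply ptMul
    | with_reducible apply ptEq
    | with_reducible apply ptLe
    | with_reducible apply ptLt
    | with_reducible apply ptNot
    | with_reducible apply ptAnd
    | with_reducible apply ptOr
    | with_reducible apply ptBigAnd
    | with_reducible apply ptBigOr
    | with_reducible apply ptTsum
    | with_reducible apply pt_vr
    | with_reducible apply pt_V
    | with_reducible apply pt_px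
    | with_reducible apply pt_py
    | with_reducible apply pt_ec
    | with_reducible apply pt_len
    | with_reducible apply pt_tsub
    | with_reducible apply pt_tsq
    | with_reducible apply pt_edgeL
    | with_reducible apply pt_offL
    | with_reducible apply pt_radL
    | with_reducible apply pt_LTs
    | with_reducible apply pt_llP
    | with_reducible apply PolyTime.pair

theorem pt_lcP {L : γ → T3} {i : γ → ℕ}
    (h0 : PolyTime L) (h1 : PolyTime i) :
    PolyTime fun z => lcP (L z) (i z) := by
  have h := ptb_lcP.comp (h0.pair h1)
  exact h

theorem ptb_EPs : PolyTime fun p : ℕ × ℕ => EPs (p.1) (p.2) := by
  unfold EPs
  repeat first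
    | with_reducible exact PolyTime.const _
    | with_reducible exact PolyTime.id
    | with_reducible assumption
    | with_reducible apply ptFst
    | with_reducible apply ptSnd
    | with_reducible apply PolyTime.add
    | with_reducible apply PolyTime.mul
    | with_reducible apply PolyTime.range
    | with_reducible apply PolyTime.length
    | with_reducible apply PolyTime.append
    | with_reducible apply PolyTime.map
    | with_reducible apply PolyTime.flatMap
    | with_reducible apply ptCons
    | with_reducible apply ptGetD
    | with_reducible apply ptPair
    | with_reducible apply ptVar
    | with_reducible apply ptConst
    | with_reducible apply ptNum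
    | with_reducible apply ptDen
    | with_reducible apply ptAdd
    | with_reducible apply ptMul
    | with_reducible apply ptEq
    | with_reducible apply ptLe
    | with_reducible apply ptLt
    | with_reducible apply ptNot
    | with_reducible apply ptAnd
    | with_reducible apply ptOr
    | with_reducible apply ptBigAnd
    | with_reducible apply ptBigOr
    | with_reducible apply ptTsum
    | with_reducible apply pt_vr
    | with_reducible apply pt_V
    | with_reducible apply pt_px
    | with_reducible apply pt_py
    | with_reducible apply pt_ec
    | with_reducible apply pt_len
    | with_reducible apply pt_tsub
    | with_reducible apply pt_tsq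
    | with_reducible apply pt_edgeL
    | with_reducible apply pt_offL
    | with_reducible apply pt_radL
    | with_reducible apply pt_LTs
    | with_reducible apply pt_llP
    | with_reducible apply pt_lcP
    | with_reducible apply PolyTime.pair

theorem pt_EPs {n : γ → ℕ} {m : γ → ℕ}
    (h0 : PolyTime n) (h1 : PolyTime m) :
    PolyTime fun z => EPs (n z) (m z) := by
  have h := ptb_EPs.comp (h0.pair h1)
  exact h

theorem ptb_Evs : PolyTime fun p : ℕ × ℕ => Evs (p.1) (p.2) := by
  unfold Evs
  repeat first
    | with_reducible exact PolyTime.const _
    | with_reducible exact PolyTime.id
    | with_reducible assumption
    | with_reducible apply ptFst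
    | with_reducible apply ptSnd
    | with_reducible apply PolyTime.add
    | with_reducible apply PolyTime.mul
    | with_reducible apply PolyTime.range
    | with_reducible apply PolyTime.length
    | with_reducible apply PolyTime.append
    | with_reducible apply PolyTime.map
    | with_reducible apply PolyTime.flatMap
    | with_reducible apply ptCons
    | with_reducible apply ptGetD
    | with_reducible apply ptPair
    | with_reducible apply ptVar
    | with_reducible apply ptConst
    | with_reducible apply ptNum
    | with_reducible apply ptDen
    | with_reducible apply ptAdd
    | with_reducible apply ptMul
    | with_reducible apply ptEq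
    | with_reducible apply ptLe
    | with_reducible apply ptLt
    | with_reducible apply ptNot
    | with_reducible apply ptAnd
    | with_reducible apply ptOr
    | with_reducible apply ptBigAnd
    | with_reducible apply ptBigOr
    | with_reducible apply ptTsum
    | with_reducible apply pt_vr
    | with_reducible apply pt_V
    | with_reducible apply pt_px
    | with_reducible apply pt_py
    | with_reducible apply pt_ec
    | with_reducible apply pt_len
    | with_reducible apply pt_tsub
    | with_reducible apply pt_tsq
    | with_reducible apply pt_edgeL
    | with_reducible apply pt_offL
    | with_reducible apply pt_radL
    | with_reducible apply pt_LTs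
    | with_reducible apply pt_llP
    | with_reducible apply pt_lcP
    | with_reducible apply pt_EPs
    | with_reducible apply PolyTime.pair

theorem pt_Evs {n : γ → ℕ} {m : γ → ℕ}
    (h0 : PolyTime n) (h1 : PolyTime m) :
    PolyTime fun z => Evs (n z) (m z) := by
  have h := ptb_Evs.comp (h0.pair h1)
  exact h

theorem ptb_sx : PolyTime fun p : ℕ × (ℕ × (ℕ × ℕ)) => sx (p.1) (p.2.1) (p.2.2.1) (p.2.2.2) := by
  unfold sx
  repeat first
    | with_reducible exact PolyTime.const _
    | with_reducible exact PolyTime.id
    | with_reducible assumption
    | with_reducible apply ptFst
    | with_reducible apply ptSnd
    | with_reducible apply PolyTime.add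
    | with_reducible apply PolyTime.mul
    | with_reducible apply PolyTime.range
    | with_reducible apply PolyTime.length
    | with_reducible apply PolyTime.append
    | with_reducible apply PolyTime.map
    | with_reducible apply PolyTime.flatMap
    | with_reducible apply ptCons
    | with_reducible apply ptGetD
    | with_reducible apply ptPair
    | with_reducible apply ptVar
    | with_reducible apply ptConst
    | with_reducible apply ptNum
    | with_reducible apply ptDen
    | with_reducible apply ptAdd
    | with_reducible apply ptMul
    | with_reducible apply ptEq
    | with_reducible apply ptLe
    | with_reducible apply ptLt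
    | with_reducible apply ptNot
    | with_reducible apply ptAnd
    | with_reducible apply ptOr
    | with_reducible apply ptBigAnd
    | with_reducible apply ptBigOr
    | with_reducible apply ptTsum
    | with_reducible apply pt_vr
    | with_reducible apply pt_V
    | with_reducible apply pt_px
    | with_reducible apply pt_py
    | with_reducible apply pt_ec
    | with_reducible apply pt_len
    | with_reducible apply pt_tsub
    | with_reducible apply pt_tsq
    | with_reducible apply pt_edgeL
    | with_reducible apply pt_offL
    | with_reducible apply pt_radL
    | with_reducible apply pt_LTs
    | with_reducible apply pt_llP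
    | with_reducible apply pt_lcP
    | with_reducible apply pt_EPs
    | with_reducible apply pt_Evs
    | with_reducible apply PolyTime.pair

theorem pt_sx {n : γ → ℕ} {m : γ → ℕ} {a : γ → ℕ} {b : γ → ℕ}
    (h0 : PolyTime n) (h1 : PolyTime m) (h2 : PolyTime a) (h3 : PolyTime b) :
    PolyTime fun z => sx (n z) (m z) (a z) (b z) := by
  have h := ptb_sx.comp (h0.pair (h1.pair (h2.pair h3)))
  exact h

theorem ptb_YPs : PolyTime fun p : ℕ × (ℕ × Term) => YPs (p.1) (p.2.1) (p.2.2) := by
  unfold YPs
  repeat first
    | with_reducible exact PolyTime.const _
    | with_reducible exact PolyTime.id
    | with_reducible assumption
    | with_reducible apply ptFst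
    | with_reducible apply ptSnd
    | with_reducible apply PolyTime.add
    | with_reducible apply PolyTime.mul
    | with_reducible apply PolyTime.range
    | with_reducible apply PolyTime.length
    | with_reducible apply PolyTime.append
    | with_reducible apply PolyTime.map
    | with_reducible apply PolyTime.flatMap
    | with_reducible apply ptCons
    | with_reducible apply ptGetD
    | with_reducible apply ptPair
    | with_reducible apply ptVar
    | with_reducible apply ptConst
    | with_reducible apply ptNum
    | with_reducible apply ptDen
    | with_reducible apply ptAdd
    | with_reducible apply ptMul
    | with_reducible apply ptEq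
    | with_reducible apply ptLe
    | with_reducible apply ptLt
    | with_reducible apply ptNot
    | with_reducible apply ptAnd
    | with_reducible apply ptOr
    | with_reducible apply ptBigAnd
    | with_reducible apply ptBigOr
    | with_reducible apply ptTsum
    | with_reducible apply pt_vr
    | with_reducible apply pt_V
    | with_reducible apply pt_px
    | with_reducible apply pt_py
    | with_reducible apply pt_ec
    | with_reducible apply pt_len
    | with_reducible apply pt_tsub
    | with_reducible apply pt_tsq
    | with_reducible apply pt_edgeL
    | with_reducible apply pt_offL
    | with_reducible apply pt_radL
    | with_reducible apply pt_LTs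
    | with_reducible apply pt_llP
    | with_reducible apply pt_lcP
    | with_reducible apply pt_EPs
    | with_reducible apply pt_Evs
    | with_reducible apply pt_sx
    | with_reducible apply PolyTime.pair

theorem pt_YPs {n : γ → ℕ} {m : γ → ℕ} {s : γ → Term}
    (h0 : PolyTime n) (h1 : PolyTime m) (h2 : PolyTime s) :
    PolyTime fun z => YPs (n z) (m z) (s z) := by
  have h := ptb_YPs.comp (h0.pair (h1.pair h2))
  exact h

theorem ptb_NY : PolyTime fun p : ℕ × ℕ => NY (p.1) (p.2) := by
  unfold NY
  repeat first
    | with_reducible exact PolyTime.const _
    | with_reducible exact PolyTime.id
    | with_reducible assumption
    | with_reducible apply ptFst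
    | with_reducible apply ptSnd
    | with_reducible apply PolyTime.add
    | with_reducible apply PolyTime.mul
    | with_reducible apply PolyTime.range
    | with_reducible apply PolyTime.length
    | with_reducible apply PolyTime.append
    | with_reducible apply PolyTime.map
    | with_reducible apply PolyTime.flatMap
    | with_reducible apply ptCons
    | with_reducible apply ptGetD
    | with_reducible apply ptPair
    | with_reducible apply ptVar
    | with_reducible apply ptConst
    | with_reducible apply ptNum
    | with_reducible apply ptDen
    | with_reducible apply ptAdd
    | with_reducible apply ptMul
    | with_reducible apply ptEq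
    | with_reducible apply ptLe
    | with_reducible apply ptLt
    | with_reducible apply ptNot
    | with_reducible apply ptAnd
    | with_reducible apply ptOr
    | with_reducible apply ptBigAnd
    | with_reducible apply ptBigOr
    | with_reducible apply ptTsum
    | with_reducible apply pt_vr
    | with_reducible apply pt_V
    | with_reducible apply pt_px
    | with_reducible apply pt_py
    | with_reducible apply pt_ec
    | with_reducible apply pt_len
    | with_reducible apply pt_tsub
    | with_reducible apply pt_tsq
    | with_reducible apply pt_edgeL
    | with_reducible apply pt_offL
    | with_reducible apply pt_radL
    | with_reducible apply pt_LTs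
    | with_reducible apply pt_llP
    | with_reducible apply pt_lcP
    | with_reducible apply pt_EPs
    | with_reducible apply pt_Evs
    | with_reducible apply pt_sx
    | with_reducible apply pt_YPs
    | with_reducible apply PolyTime.pair

theorem pt_NY {n : γ → ℕ} {m : γ → ℕ}
    (h0 : PolyTime n) (h1 : PolyTime m) :
    PolyTime fun z => NY (n z) (m z) := by
  have h := ptb_NY.comp (h0.pair h1)
  exact h

theorem ptb_Ys : PolyTime fun p : ℕ × (ℕ × ℕ) => Ys (p.1) (p.2.1) (p.2.2) := by
  unfold Ys
  repeat first
    | with_reducible exact PolyTime.const _
    | with_reducible exact PolyTime.id
    | with_reducible assumption
    | with_reducible apply ptFst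
    | with_reducible apply ptSnd
    | with_reducible apply PolyTime.add
    | with_reducible apply PolyTime.mul
    | with_reducible apply PolyTime.range
    | with_reducible apply PolyTime.length
    | with_reducible apply PolyTime.append
    | with_reducible apply PolyTime.map
    | with_reducible apply PolyTime.flatMap
    | with_reducible apply ptCons
    | with_reducible apply ptGetD
    | with_reducible apply ptPair
    | with_reducible apply ptVar
    | with_reducible apply ptConst
    | with_reducible apply ptNum
    | with_reducible apply ptDen
    | with_reducible apply ptAdd
    | with_reducible apply ptMul
    | with_reducible apply ptEq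
    | with_reducible apply ptLe
    | with_reducible apply ptLt
    | with_reducible apply ptNot
    | with_reducible apply ptAnd
    | with_reducible apply ptOr
    | with_reducible apply ptBigAnd
    | with_reducible apply ptBigOr
    | with_reducible apply ptTsum
    | with_reducible apply pt_vr
    | with_reducible apply pt_V
    | with_reducible apply pt_px
    | with_reducible apply pt_py
    | with_reducible apply pt_ec
    | with_reducible apply pt_len
    | with_reducible apply pt_tsub
    | with_reducible apply pt_tsq
    | with_reducible apply pt_edgeL
    | with_reducible apply pt_offL
    | with_reducible apply pt_radL
    | with_reducible apply pt_LTs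
    | with_reducible apply pt_llP
    | with_reducible apply pt_lcP
    | with_reducible apply pt_EPs
    | with_reducible apply pt_Evs
    | with_reducible apply pt_sx
    | with_reducible apply pt_YPs
    | with_reducible apply pt_NY
    | with_reducible apply PolyTime.pair

theorem pt_Ys {n : γ → ℕ} {m : γ → ℕ} {w : γ → ℕ}
    (h0 : PolyTime n) (h1 : PolyTime m) (h2 : PolyTime w) :
    PolyTime fun z => Ys (n z) (m z) (w z) := by
  have h := ptb_Ys.comp (h0.pair (h1.pair h2))
  exact h

theorem ptb_sy : PolyTime fun p : ℕ × (ℕ × (ℕ × (ℕ × ℕ))) => sy (p.1) (p.2.1) (p.2.2.1) (p.2.2.2.1) (p.2.2.2.2) := by
  unfold sy
  repeat first
    | with_reducible exact PolyTime.const _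
    | with_reducible exact PolyTime.id
    | with_reducible assumption
    | with_reducible apply ptFst
    | with_reducible apply ptSnd
    | with_reducible apply PolyTime.add
    | with_reducible apply PolyTime.mul
    | with_reducible apply PolyTime.range
    | with_reducible apply PolyTime.length
    | with_reducible apply PolyTime.append
    | with_reducible apply PolyTime.map
    | with_reducible apply PolyTime.flatMap
    | with_reducible apply ptCons
    | with_reducible apply ptGetD
    | with_reducible apply ptPair
    | with_reducible apply ptVar
    | with_reducible apply ptConst
    | with_reducible apply ptNum
    | with_reducible apply ptDen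
    | with_reducible apply ptAdd
    | with_reducible apply ptMul
    | with_reducible apply ptEq
    | with_reducible apply ptLe
    | with_reducible apply ptLt
    | with_reducible apply ptNot
    | with_reducible apply ptAnd
    | with_reducible apply ptOr
    | with_reducible apply ptBigAnd
    | with_reducible apply ptBigOr
    | with_reducible apply ptTsum
    | with_reducible apply pt_vr
    | with_reducible apply pt_V
    | with_reducible apply pt_px
    | with_reducible apply pt_py
    | with_reducible apply pt_ec
    | with_reducible apply pt_len
    | with_reducible apply pt_tsub
    | with_reducible apply pt_tsq
    | with_reducible apply pt_edgeL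
    | with_reducible apply pt_offL
    | with_reducible apply pt_radL
    | with_reducible apply pt_LTs
    | with_reducible apply pt_llP
    | with_reducible apply pt_lcP
    | with_reducible apply pt_EPs
    | with_reducible apply pt_Evs
    | with_reducible apply pt_sx
    | with_reducible apply pt_YPs
    | with_reducible apply pt_NY
    | with_reducible apply pt_Ys
    | with_reducible apply PolyTime.pair

theorem pt_sy {n : γ → ℕ} {m : γ → ℕ} {w : γ → ℕ} {c : γ → ℕ} {d : γ → ℕ}
    (h0 : PolyTime n) (h1 : PolyTime m) (h2 : PolyTime w) (h3 : PolyTime c) (h4 : PolyTime d) :
    PolyTime fun z => sy (n z) (m z) (w z) (c z) (d z) := by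
  have h := ptb_sy.comp (h0.pair (h1.pair (h2.pair (h3.pair h4))))
  exact h

theorem ptb_offF : PolyTime fun p : Term × (Term × ℕ) => offF (p.1) (p.2.1) (p.2.2) := by
  unfold offF
  repeat first
    | with_reducible exact PolyTime.const _
    | with_reducible exact PolyTime.id
    | with_reducible assumption
    | with_reducible apply ptFst
    | with_reducible apply ptSnd
    | with_reducible apply PolyTime.add
    | with_reducible apply PolyTime.mul
    | with_reducible apply PolyTime.range
    | with_reducible apply PolyTime.length
    | with_reducible apply PolyTime.append
    | with_reducible apply PolyTime.map
    | with_reducible apply PolyTime.flatMap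
    | with_reducible apply ptCons
    | with_reducible apply ptGetD
    | with_reducible apply ptPair
    | with_reducible apply ptVar
    | with_reducible apply ptConst
    | with_reducible apply ptNum
    | with_reducible apply ptDen
    | with_reducible apply ptAdd
    | with_reducible apply ptMul
    | with_reducible apply ptEq
    | with_reducible apply ptLe
    | with_reducible apply ptLt
    | with_reducible apply ptNot
    | with_reducible apply ptAnd
    | with_reducible apply ptOr
    | with_reducible apply ptBigAnd
    | with_reducible apply ptBigOr
    | with_reducible apply ptTsum
    | with_reducible apply pt_vr
    | with_reducible apply pt_V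
    | with_reducible apply pt_px
    | with_reducible apply pt_py
    | with_reducible apply pt_ec
    | with_reducible apply pt_len
    | with_reducible apply pt_tsub
    | with_reducible apply pt_tsq
    | with_reducible apply pt_edgeL
    | with_reducible apply pt_offL
    | with_reducible apply pt_radL
    | with_reducible apply pt_LTs
    | with_reducible apply pt_llP
    | with_reducible apply pt_lcP
    | with_reducible apply pt_EPs
    | with_reducible apply pt_Evs
    | with_reducible apply pt_sx
    | with_reducible apply pt_YPs
    | with_reducible apply pt_NY
    | with_reducible apply pt_Ys
    | with_reducible apply pt_sy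
    | with_reducible apply PolyTime.pair

theorem pt_offF {X : γ → Term} {Y : γ → Term} {j : γ → ℕ}
    (h0 : PolyTime X) (h1 : PolyTime Y) (h2 : PolyTime j) :
    PolyTime fun z => offF (X z) (Y z) (j z) := by
  have h := ptb_offF.comp (h0.pair (h1.pair h2))
  exact h

theorem ptb_crossF : PolyTime fun p : Term × (Term × ℕ) => crossF (p.1) (p.2.1) (p.2.2) := by
  unfold crossF
  repeat first
    | with_reducible exact PolyTime.const _
    | with_reducible exact PolyTime.id
    | with_reducible assumption
    | with_reducible apply ptFst
    | with_reducible apply ptSnd
    | with_reducible apply PolyTime.add
    | with_reducible apply PolyTime.mul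
    | with_reducible apply PolyTime.range
    | with_reducible apply PolyTime.length
    | with_reducible apply PolyTime.append
    | with_reducible apply PolyTime.map
    | with_reducible apply PolyTime.flatMap
    | with_reducible apply ptCons
    | with_reducible apply ptGetD
    | with_reducible apply ptPair
    | with_reducible apply ptVar
    | with_reducible apply ptConst
    | with_reducible apply ptNum
    | with_reducible apply ptDen
    | with_reducible apply ptAdd
    | with_reducible apply ptMul
    | with_reducible apply ptEq
    | with_reducible apply ptLe
    | with_reducible apply ptLt
    | with_reducible apply ptNot
    | with_reducible apply ptAnd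
    | with_reducible apply ptOr
    | with_reducible apply ptBigAnd
    | with_reducible apply ptBigOr
    | with_reducible apply ptTsum
    | with_reducible apply pt_vr
    | with_reducible apply pt_V
    | with_reducible apply pt_px
    | with_reducible apply pt_py
    | with_reducible apply pt_ec
    | with_reducible apply pt_len
    | with_reducible apply pt_tsub
    | with_reducible apply pt_tsq
    | with_reducible apply pt_edgeL
    | with_reducible apply pt_offL
    | with_reducible apply pt_radL
    | with_reducible apply pt_LTs
    | with_reducible apply pt_llP
    | with_reducible apply pt_lcP
    | with_reducible apply pt_EPs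
    | with_reducible apply pt_Evs
    | with_reducible apply pt_sx
    | with_reducible apply pt_YPs
    | with_reducible apply pt_NY
    | with_reducible apply pt_Ys
    | with_reducible apply pt_sy
    | with_reducible apply pt_offF
    | with_reducible apply PolyTime.pair

theorem pt_crossF {X : γ → Term} {Y : γ → Term} {j : γ → ℕ}
    (h0 : PolyTime X) (h1 : PolyTime Y) (h2 : PolyTime j) :
    PolyTime fun z => crossF (X z) (Y z) (j z) := by
  have h := ptb_crossF.comp (h0.pair (h1.pair h2))
  exact h

theorem ptb_stepF : PolyTime fun p : Term × (Term × (ℕ × ℕ)) => stepF (p.1) (p.2.1) (p.2.2.1) (p.2.2.2) := by
  unfold stepF
  repeat first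
    | with_reducible exact PolyTime.const _
    | with_reducible exact PolyTime.id
    | with_reducible assumption
    | with_reducible apply ptFst
    | with_reducible apply ptSnd
    | with_reducible apply PolyTime.add
    | with_reducible apply PolyTime.mul
    | with_reducible apply PolyTime.range
    | with_reducible apply PolyTime.length
    | with_reducible apply PolyTime.append
    | with_reducible apply PolyTime.map
    | with_reducible apply PolyTime.flatMap
    | with_reducible apply ptCons
    | with_reducible apply ptGetD
    | with_reducible apply ptPair
    | with_reducible apply ptVar
    | with_reducible apply ptConst
    | with_reducible apply ptNum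
    | with_reducible apply ptDen
    | with_reducible apply ptAdd
    | with_reducible apply ptMul
    | with_reducible apply ptEq
    | with_reducible apply ptLe
    | with_reducible apply ptLt
    | with_reducible apply ptNot
    | with_reducible apply ptAnd
    | with_reducible apply ptOr
    | with_reducible apply ptBigAnd
    | with_reducible apply ptBigOr
    | with_reducible apply ptTsum
    | with_reducible apply pt_vr
    | with_reducible apply pt_V
    | with_reducible apply pt_px
    | with_reducible apply pt_py
    | with_reducible apply pt_ec
    | with_reducible apply pt_len
    | with_reducible apply pt_tsub
    | with_reducible apply pt_tsq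
    | with_reducible apply pt_edgeL
    | with_reducible apply pt_offL
    | with_reducible apply pt_radL
    | with_reducible apply pt_LTs
    | with_reducible apply pt_llP
    | with_reducible apply pt_lcP
    | with_reducible apply pt_EPs
    | with_reducible apply pt_Evs
    | with_reducible apply pt_sx
    | with_reducible apply pt_YPs
    | with_reducible apply pt_NY
    | with_reducible apply pt_Ys
    | with_reducible apply pt_sy
    | with_reducible apply pt_offF
    | with_reducible apply pt_crossF
    | with_reducible apply PolyTime.pair

theorem pt_stepF {X : γ → Term} {Y : γ → Term} {w : γ → ℕ} {j : γ → ℕ}
    (h0 : PolyTime X) (h1 : PolyTime Y) (h2 : PolyTime w) (h3 : PolyTime j) :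
    PolyTime fun z => stepF (X z) (Y z) (w z) (j z) := by
  have h := ptb_stepF.comp (h0.pair (h1.pair (h2.pair h3)))
  exact h

theorem ptb_mid : PolyTime fun p : Term × (Term × Term) => mid (p.1) (p.2.1) (p.2.2) := by
  unfold mid
  repeat first
    | with_reducible exact PolyTime.const _
    | with_reducible exact PolyTime.id
    | with_reducible assumption
    | with_reducible apply ptFst
    | with_reducible apply ptSnd
    | with_reducible apply PolyTime.add
    | with_reducible apply PolyTime.mul
    | with_reducible apply PolyTime.range
    | with_reducible apply PolyTime.length
    | with_reducible apply PolyTime.append
    | with_reducible apply PolyTime.map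
    | with_reducible apply PolyTime.flatMap
    | with_reducible apply ptCons
    | with_reducible apply ptGetD
    | with_reducible apply ptPair
    | with_reducible apply ptVar
    | with_reducible apply ptConst
    | with_reducible apply ptNum
    | with_reducible apply ptDen
    | with_reducible apply ptAdd
    | with_reducible apply ptMul
    | with_reducible apply ptEq
    | with_reducible apply ptLe
    | with_reducible apply ptLt
    | with_reducible apply ptNot
    | with_reducible apply ptAnd
    | with_reducible apply ptOr
    | with_reducible apply ptBigAnd
    | with_reducible apply ptBigOr
    | with_reducible apply ptTsum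
    | with_reducible apply pt_vr
    | with_reducible apply pt_V
    | with_reducible apply pt_px
    | with_reducible apply pt_py
    | with_reducible apply pt_ec
    | with_reducible apply pt_len
    | with_reducible apply pt_tsub
    | with_reducible apply pt_tsq
    | with_reducible apply pt_edgeL
    | with_reducible apply pt_offL
    | with_reducible apply pt_radL
    | with_reducible apply pt_LTs
    | with_reducible apply pt_llP
    | with_reducible apply pt_lcP
    | with_reducible apply pt_EPs
    | with_reducible apply pt_Evs
    | with_reducible apply pt_sx
    | with_reducible apply pt_YPs
    | with_reducible apply pt_NY
    | with_reducible apply pt_Ys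
    | with_reducible apply pt_sy
    | with_reducible apply pt_offF
    | with_reducible apply pt_crossF
    | with_reducible apply pt_stepF
    | with_reducible apply PolyTime.pair

theorem pt_mid {l : γ → Term} {p : γ → Term} {q : γ → Term}
    (h0 : PolyTime l) (h1 : PolyTime p) (h2 : PolyTime q) :
    PolyTime fun z => mid (l z) (p z) (q z) := by
  have h := ptb_mid.comp (h0.pair (h1.pair h2))
  exact h

theorem ptb_covF : PolyTime fun p : Term × (Term × (ℕ × ℕ)) => covF (p.1) (p.2.1) (p.2.2.1) (p.2.2.2) := by
  unfold covF
  repeat first
    | with_reducible exact PolyTime.const _
    | with_reducible exact PolyTime.id
    | with_reducible assumption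
    | with_reducible apply ptFst
    | with_reducible apply ptSnd
    | with_reducible apply PolyTime.add
    | with_reducible apply PolyTime.mul
    | with_reducible apply PolyTime.range
    | with_reducible apply PolyTime.length
    | with_reducible apply PolyTime.append
    | with_reducible apply PolyTime.map
    | with_reducible apply PolyTime.flatMap
    | with_reducible apply ptCons
    | with_reducible apply ptGetD
    | with_reducible apply ptPair
    | with_reducible apply ptVar
    | with_reducible apply ptConst
    | with_reducible apply ptNum
    | with_reducible apply ptDen
    | with_reducible apply ptAdd
    | with_reducible apply ptMul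
    | with_reducible apply ptEq
    | with_reducible apply ptLe
    | with_reducible apply ptLt
    | with_reducible apply ptNot
    | with_reducible apply ptAnd
    | with_reducible apply ptOr
    | with_reducible apply ptBigAnd
    | with_reducible apply ptBigOr
    | with_reducible apply ptTsum
    | with_reducible apply pt_vr
    | with_reducible apply pt_V
    | with_reducible apply pt_px
    | with_reducible apply pt_py
    | with_reducible apply pt_ec
    | with_reducible apply pt_len
    | with_reducible apply pt_tsub
    | with_reducible apply pt_tsq
    | with_reducible apply pt_edgeL
    | with_reducible apply pt_offL
    | with_reducible apply pt_radL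
    | with_reducible apply pt_LTs
    | with_reducible apply pt_llP
    | with_reducible apply pt_lcP
    | with_reducible apply pt_EPs
    | with_reducible apply pt_Evs
    | with_reducible apply pt_sx
    | with_reducible apply pt_YPs
    | with_reducible apply pt_NY
    | with_reducible apply pt_Ys
    | with_reducible apply pt_sy
    | with_reducible apply pt_offF
    | with_reducible apply pt_crossF
    | with_reducible apply pt_stepF
    | with_reducible apply pt_mid
    | with_reducible apply PolyTime.pair

theorem pt_covF {X : γ → Term} {Y : γ → Term} {w : γ → ℕ} {i : γ → ℕ}
    (h0 : PolyTime X) (h1 : PolyTime Y) (h2 : PolyTime w) (h3 : PolyTime i) :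
    PolyTime fun z => covF (X z) (Y z) (w z) (i z) := by
  have h := ptb_covF.comp (h0.pair (h1.pair (h2.pair h3)))
  exact h

theorem ptb_goodF : PolyTime fun p : ℕ × (ℕ × (Term × (Term × ℕ))) => goodF (p.1) (p.2.1) (p.2.2.1) (p.2.2.2.1) (p.2.2.2.2) := by
  unfold goodF
  repeat first
    | with_reducible exact PolyTime.const _
    | with_reducible exact PolyTime.id
    | with_reducible assumption
    | with_reducible apply ptFst
    | with_reducible apply ptSnd
    | with_reducible apply PolyTime.add
    | with_reducible apply PolyTime.mul
    | with_reducible apply PolyTime.range
    | with_reducible apply PolyTime.length
    | with_reducible apply PolyTime.append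
    | with_reducible apply PolyTime.map
    | with_reducible apply PolyTime.flatMap
    | with_reducible apply ptCons
    | with_reducible apply ptGetD
    | with_reducible apply ptPair
    | with_reducible apply ptVar
    | with_reducible apply ptConst
    | with_reducible apply ptNum
    | with_reducible apply ptDen
    | with_reducible apply ptAdd
    | with_reducible apply ptMul
    | with_reducible apply ptEq
    | with_reducible apply ptLe
    | with_reducible apply ptLt
    | with_reducible apply ptNot
    | with_reducible apply ptAnd
    | with_reducible apply ptOr
    | with_reducible apply ptBigAnd
    | with_reducible apply ptBigOr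
    | with_reducible apply ptTsum
    | with_reducible apply pt_vr
    | with_reducible apply pt_V
    | with_reducible apply pt_px
    | with_reducible apply pt_py
    | with_reducible apply pt_ec
    | with_reducible apply pt_len
    | with_reducible apply pt_tsub
    | with_reducible apply pt_tsq
    | with_reducible apply pt_edgeL
    | with_reducible apply pt_offL
    | with_reducible apply pt_radL
    | with_reducible apply pt_LTs
    | with_reducible apply pt_llP
    | with_reducible apply pt_lcP
    | with_reducible apply pt_EPs
    | with_reducible apply pt_Evs
    | with_reducible apply pt_sx
    | with_reducible apply pt_YPs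
    | with_reducible apply pt_NY
    | with_reducible apply pt_Ys
    | with_reducible apply pt_sy
    | with_reducible apply pt_offF
    | with_reducible apply pt_crossF
    | with_reducible apply pt_stepF
    | with_reducible apply pt_mid
    | with_reducible apply pt_covF
    | with_reducible apply PolyTime.pair

theorem pt_goodF {n : γ → ℕ} {m : γ → ℕ} {X : γ → Term} {Y : γ → Term} {w : γ → ℕ}
    (h0 : PolyTime n) (h1 : PolyTime m) (h2 : PolyTime X) (h3 : PolyTime Y) (h4 : PolyTime w) :
    PolyTime fun z => goodF (n z) (m z) (X z) (Y z) (w z) := by
  have h := ptb_goodF.comp (h0.pair (h1.pair (h2.pair (h3.pair h4))))
  exact h

theorem ptb_roots : PolyTime fun p : T3 × (Term × Term) => roots (p.1) (p.2.1) (p.2.2) := by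
  unfold roots
  repeat first
    | with_reducible exact PolyTime.const _
    | with_reducible exact PolyTime.id
    | with_reducible assumption
    | with_reducible apply ptFst
    | with_reducible apply ptSnd
    | with_reducible apply PolyTime.add
    | with_reducible apply PolyTime.mul
    | with_reducible apply PolyTime.range
    | with_reducible apply PolyTime.length
    | with_reducible apply PolyTime.append
    | with_reducible apply PolyTime.map
    | with_reducible apply PolyTime.flatMap
    | with_reducible apply ptCons
    | with_reducible apply ptGetD
    | with_reducible apply ptPair
    | with_reducible apply ptVar
    | with_reducible apply ptConst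
    | with_reducible apply ptNum
    | with_reducible apply ptDen
    | with_reducible apply ptAdd
    | with_reducible apply ptMul
    | with_reducible apply ptEq
    | with_reducible apply ptLe
    | with_reducible apply ptLt
    | with_reducible apply ptNot
    | with_reducible apply ptAnd
    | with_reducible apply ptOr
    | with_reducible apply ptBigAnd
    | with_reducible apply ptBigOr
    | with_reducible apply ptTsum
    | with_reducible apply pt_vr
    | with_reducible apply pt_V
    | with_reducible apply pt_px
    | with_reducible apply pt_py
    | with_reducible apply pt_ec
    | with_reducible apply pt_len
    | with_reducible apply pt_tsub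
    | with_reducible apply pt_tsq
    | with_reducible apply pt_edgeL
    | with_reducible apply pt_offL
    | with_reducible apply pt_radL
    | with_reducible apply pt_LTs
    | with_reducible apply pt_llP
    | with_reducible apply pt_lcP
    | with_reducible apply pt_EPs
    | with_reducible apply pt_Evs
    | with_reducible apply pt_sx
    | with_reducible apply pt_YPs
    | with_reducible apply pt_NY
    | with_reducible apply pt_Ys
    | with_reducible apply pt_sy
    | with_reducible apply pt_offF
    | with_reducible apply pt_crossF
    | with_reducible apply pt_stepF
    | with_reducible apply pt_mid
    | with_reducible apply pt_covF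
    | with_reducible apply pt_goodF
    | with_reducible apply PolyTime.pair

theorem pt_roots {L : γ → T3} {r : γ → Term} {s : γ → Term}
    (h0 : PolyTime L) (h1 : PolyTime r) (h2 : PolyTime s) :
    PolyTime fun z => roots (L z) (r z) (s z) := by
  have h := ptb_roots.comp (h0.pair (h1.pair h2))
  exact h

theorem ptb_isRat : PolyTime fun p : Term × ℚ => isRat (p.1) (p.2) := by
  unfold isRat
  repeat first
    | with_reducible exact PolyTime.const _
    | with_reducible exact PolyTime.id
    | with_reducible assumption
    | with_reducible apply ptFst
    | with_reducible apply ptSnd
    | with_reducible apply PolyTime.add
    | with_reducible apply PolyTime.mul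
    | with_reducible apply PolyTime.range
    | with_reducible apply PolyTime.length
    | with_reducible apply PolyTime.append
    | with_reducible apply PolyTime.map
    | with_reducible apply PolyTime.flatMap
    | with_reducible apply ptCons
    | with_reducible apply ptGetD
    | with_reducible apply ptPair
    | with_reducible apply ptVar
    | with_reducible apply ptConst
    | with_reducible apply ptNum
    | with_reducible apply ptDen
    | with_reducible apply ptAdd
    | with_reducible apply ptMul
    | with_reducible apply ptEq
    | with_reducible apply ptLe
    | with_reducible apply ptLt
    | with_reducible apply ptNot
    | with_reducible apply ptAnd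
    | with_reducible apply ptOr
    | with_reducible apply ptBigAnd
    | with_reducible apply ptBigOr
    | with_reducible apply ptTsum
    | with_reducible apply pt_vr
    | with_reducible apply pt_V
    | with_reducible apply pt_px
    | with_reducible apply pt_py
    | with_reducible apply pt_ec
    | with_reducible apply pt_len
    | with_reducible apply pt_tsub
    | with_reducible apply pt_tsq
    | with_reducible apply pt_edgeL
    | with_reducible apply pt_offL
    | with_reducible apply pt_radL
    | with_reducible apply pt_LTs
    | with_reducible apply pt_llP
    | with_reducible apply pt_lcP
    | with_reducible apply pt_EPs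
    | with_reducible apply pt_Evs
    | with_reducible apply pt_sx
    | with_reducible apply pt_YPs
    | with_reducible apply pt_NY
    | with_reducible apply pt_Ys
    | with_reducible apply pt_sy
    | with_reducible apply pt_offF
    | with_reducible apply pt_crossF
    | with_reducible apply pt_stepF
    | with_reducible apply pt_mid
    | with_reducible apply pt_covF
    | with_reducible apply pt_goodF
    | with_reducible apply pt_roots
    | with_reducible apply PolyTime.pair

theorem pt_isRat {t : γ → Term} {r : γ → ℚ}
    (h0 : PolyTime t) (h1 : PolyTime r) :
    PolyTime fun z => isRat (t z) (r z) := by
  have h := ptb_isRat.comp (h0.pair h1)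
  exact h

theorem ptb_F2 : PolyTime fun p : ((ℚ × ℚ) × (ℚ × ℚ)) × ℕ => F2 (p.1) (p.2) := by
  unfold F2
  repeat first
    | with_reducible exact PolyTime.const _
    | with_reducible exact PolyTime.id
    | with_reducible assumption
    | with_reducible apply ptFst
    | with_reducible apply ptSnd
    | with_reducible apply PolyTime.add
    | with_reducible apply PolyTime.mul
    | with_reducible apply PolyTime.range
    | with_reducible apply PolyTime.length
    | with_reducible apply PolyTime.append
    | with_reducible apply PolyTime.map
    | with_reducible apply PolyTime.flatMap
    | with_reducible apply ptCons
    | with_reducible apply ptGetD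
    | with_reducible apply ptPair
    | with_reducible apply ptVar
    | with_reducible apply ptConst
    | with_reducible apply ptNum
    | with_reducible apply ptDen
    | with_reducible apply ptAdd
    | with_reducible apply ptMul
    | with_reducible apply ptEq
    | with_reducible apply ptLe
    | with_reducible apply ptLt
    | with_reducible apply ptNot
    | with_reducible apply ptAnd
    | with_reducible apply ptOr
    | with_reducible apply ptBigAnd
    | with_reducible apply ptBigOr
    | with_reducible apply ptTsum
    | with_reducible apply pt_vr
    | with_reducible apply pt_V
    | with_reducible apply pt_px
    | with_reducible apply pt_py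
    | with_reducible apply pt_ec
    | with_reducible apply pt_len
    | with_reducible apply pt_tsub
    | with_reducible apply pt_tsq
    | with_reducible apply pt_edgeL
    | with_reducible apply pt_offL
    | with_reducible apply pt_radL
    | with_reducible apply pt_LTs
    | with_reducible apply pt_llP
    | with_reducible apply pt_lcP
    | with_reducible apply pt_EPs
    | with_reducible apply pt_Evs
    | with_reducible apply pt_sx
    | with_reducible apply pt_YPs
    | with_reducible apply pt_NY
    | with_reducible apply pt_Ys
    | with_reducible apply pt_sy
    | with_reducible apply pt_offF
    | with_reducible apply pt_crossF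
    | with_reducible apply pt_stepF
    | with_reducible apply pt_mid
    | with_reducible apply pt_covF
    | with_reducible apply pt_goodF
    | with_reducible apply pt_roots
    | with_reducible apply pt_isRat
    | with_reducible apply PolyTime.pair

theorem pt_F2 {e : γ → (ℚ × ℚ) × (ℚ × ℚ)} {j : γ → ℕ}
    (h0 : PolyTime e) (h1 : PolyTime j) :
    PolyTime fun z => F2 (e z) (j z) := by
  have h := ptb_F2.comp (h0.pair h1)
  exact h

theorem ptb_F3 : PolyTime fun p : ℕ => F3 p := by
  unfold F3
  repeat first
    | with_reducible exact PolyTime.const _
    | with_reducible exact PolyTime.id
    | with_reducible assumption
    | with_reducible apply ptFst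
    | with_reducible apply ptSnd
    | with_reducible apply PolyTime.add
    | with_reducible apply PolyTime.mul
    | with_reducible apply PolyTime.range
    | with_reducible apply PolyTime.length
    | with_reducible apply PolyTime.append
    | with_reducible apply PolyTime.map
    | with_reducible apply PolyTime.flatMap
    | with_reducible apply ptCons
    | with_reducible apply ptGetD
    | with_reducible apply ptPair
    | with_reducible apply ptVar
    | with_reducible apply ptConst
    | with_reducible apply ptNum
    | with_reducible apply ptDen
    | with_reducible apply ptAdd
    | with_reducible apply ptMul
    | with_reducible apply ptEq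
    | with_reducible apply ptLe
    | with_reducible apply ptLt
    | with_reducible apply ptNot
    | with_reducible apply ptAnd
    | with_reducible apply ptOr
    | with_reducible apply ptBigAnd
    | with_reducible apply ptBigOr
    | with_reducible apply ptTsum
    | with_reducible apply pt_vr
    | with_reducible apply pt_V
    | with_reducible apply pt_px
    | with_reducible apply pt_py
    | with_reducible apply pt_ec
    | with_reducible apply pt_len
    | with_reducible apply pt_tsub
    | with_reducible apply pt_tsq
    | with_reducible apply pt_edgeL
    | with_reducible apply pt_offL
    | with_reducible apply pt_radL
    | with_reducible apply pt_LTs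
    | with_reducible apply pt_llP
    | with_reducible apply pt_lcP
    | with_reducible apply pt_EPs
    | with_reducible apply pt_Evs
    | with_reducible apply pt_sx
    | with_reducible apply pt_YPs
    | with_reducible apply pt_NY
    | with_reducible apply pt_Ys
    | with_reducible apply pt_sy
    | with_reducible apply pt_offF
    | with_reducible apply pt_crossF
    | with_reducible apply pt_stepF
    | with_reducible apply pt_mid
    | with_reducible apply pt_covF
    | with_reducible apply pt_goodF
    | with_reducible apply pt_roots
    | with_reducible apply pt_isRat
    | with_reducible apply pt_F2
    | with_reducible apply PolyTime.pair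

theorem pt_F3 {i : γ → ℕ}
    (h0 : PolyTime i) :
    PolyTime fun z => F3 (i z) := by
  have h := ptb_F3.comp h0
  exact h

theorem ptb_F4 : PolyTime fun p : ℕ × (ℕ × ℕ) => F4 (p.1) (p.2.1) (p.2.2) := by
  unfold F4
  repeat first
    | with_reducible exact PolyTime.const _
    | with_reducible exact PolyTime.id
    | with_reducible assumption
    | with_reducible apply ptFst
    | with_reducible apply ptSnd
    | with_reducible apply PolyTime.add
    | with_reducible apply PolyTime.mul
    | with_reducible apply PolyTime.range
    | with_reducible apply PolyTime.length
    | with_reducible apply PolyTime.append
    | with_reducible apply PolyTime.map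
    | with_reducible apply PolyTime.flatMap
    | with_reducible apply ptCons
    | with_reducible apply ptGetD
    | with_reducible apply ptPair
    | with_reducible apply ptVar
    | with_reducible apply ptConst
    | with_reducible apply ptNum
    | with_reducible apply ptDen
    | with_reducible apply ptAdd
    | with_reducible apply ptMul
    | with_reducible apply ptEq
    | with_reducible apply ptLe
    | with_reducible apply ptLt
    | with_reducible apply ptNot
    | with_reducible apply ptAnd
    | with_reducible apply ptOr
    | with_reducible apply ptBigAnd
    | with_reducible apply ptBigOr
    | with_reducible apply ptTsum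
    | with_reducible apply pt_vr
    | with_reducible apply pt_V
    | with_reducible apply pt_px
    | with_reducible apply pt_py
    | with_reducible apply pt_ec
    | with_reducible apply pt_len
    | with_reducible apply pt_tsub
    | with_reducible apply pt_tsq
    | with_reducible apply pt_edgeL
    | with_reducible apply pt_offL
    | with_reducible apply pt_radL
    | with_reducible apply pt_LTs
    | with_reducible apply pt_llP
    | with_reducible apply pt_lcP
    | with_reducible apply pt_EPs
    | with_reducible apply pt_Evs
    | with_reducible apply pt_sx
    | with_reducible apply pt_YPs
    | with_reducible apply pt_NY
    | with_reducible apply pt_Ys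
    | with_reducible apply pt_sy
    | with_reducible apply pt_offF
    | with_reducible apply pt_crossF
    | with_reducible apply pt_stepF
    | with_reducible apply pt_mid
    | with_reducible apply pt_covF
    | with_reducible apply pt_goodF
    | with_reducible apply pt_roots
    | with_reducible apply pt_isRat
    | with_reducible apply pt_F2
    | with_reducible apply pt_F3
    | with_reducible apply PolyTime.pair

theorem pt_F4 {n : γ → ℕ} {m : γ → ℕ} {a : γ → ℕ}
    (h0 : PolyTime n) (h1 : PolyTime m) (h2 : PolyTime a) :
    PolyTime fun z => F4 (n z) (m z) (a z) := by
  have h := ptb_F4.comp (h0.pair (h1.pair h2))
  exact h

theorem ptb_F5 : PolyTime fun p : ℕ × (ℕ × (ℕ × (ℕ × ℕ))) => F5 (p.1) (p.2.1) (p.2.2.1) (p.2.2.2.1) (p.2.2.2.2) := by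
  unfold F5
  repeat first
    | with_reducible exact PolyTime.const _
    | with_reducible exact PolyTime.id
    | with_reducible assumption
    | with_reducible apply ptFst
    | with_reducible apply ptSnd
    | with_reducible apply PolyTime.add
    | with_reducible apply PolyTime.mul
    | with_reducible apply PolyTime.range
    | with_reducible apply PolyTime.length
    | with_reducible apply PolyTime.append
    | with_reducible apply PolyTime.map
    | with_reducible apply PolyTime.flatMap
    | with_reducible apply ptCons
    | with_reducible apply ptGetD
    | with_reducible apply ptPair
    | with_reducible apply ptVar
    | with_reducible apply ptConst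
    | with_reducible apply ptNum
    | with_reducible apply ptDen
    | with_reducible apply ptAdd
    | with_reducible apply ptMul
    | with_reducible apply ptEq
    | with_reducible apply ptLe
    | with_reducible apply ptLt
    | with_reducible apply ptNot
    | with_reducible apply ptAnd
    | with_reducible apply ptOr
    | with_reducible apply ptBigAnd
    | with_reducible apply ptBigOr
    | with_reducible apply ptTsum
    | with_reducible apply pt_vr
    | with_reducible apply pt_V
    | with_reducible apply pt_px
    | with_reducible apply pt_py
    | with_reducible apply pt_ec
    | with_reducible apply pt_len
    | with_reducible apply pt_tsub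
    | with_reducible apply pt_tsq
    | with_reducible apply pt_edgeL
    | with_reducible apply pt_offL
    | with_reducible apply pt_radL
    | with_reducible apply pt_LTs
    | with_reducible apply pt_llP
    | with_reducible apply pt_lcP
    | with_reducible apply pt_EPs
    | with_reducible apply pt_Evs
    | with_reducible apply pt_sx
    | with_reducible apply pt_YPs
    | with_reducible apply pt_NY
    | with_reducible apply pt_Ys
    | with_reducible apply pt_sy
    | with_reducible apply pt_offF
    | with_reducible apply pt_crossF
    | with_reducible apply pt_stepF
    | with_reducible apply pt_mid
    | with_reducible apply pt_covF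
    | with_reducible apply pt_goodF
    | with_reducible apply pt_roots
    | with_reducible apply pt_isRat
    | with_reducible apply pt_F2
    | with_reducible apply pt_F3
    | with_reducible apply pt_F4
    | with_reducible apply PolyTime.pair

theorem pt_F5 {n : γ → ℕ} {m : γ → ℕ} {a : γ → ℕ} {b : γ → ℕ} {c : γ → ℕ}
    (h0 : PolyTime n) (h1 : PolyTime m) (h2 : PolyTime a) (h3 : PolyTime b) (h4 : PolyTime c) :
    PolyTime fun z => F5 (n z) (m z) (a z) (b z) (c z) := by
  have h := ptb_F5.comp (h0.pair (h1.pair (h2.pair (h3.pair h4))))
  exact h

theorem ptb_F6 : PolyTime fun p : ℕ × (ℕ × (ℕ × (ℕ × (ℕ × ℕ)))) => F6 (p.1) (p.2.1) (p.2.2.1) (p.2.2.2.1) (p.2.2.2.2.1) (p.2.2.2.2.2) := by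
  unfold F6
  repeat first
    | with_reducible exact PolyTime.const _
    | with_reducible exact PolyTime.id
    | with_reducible assumption
    | with_reducible apply ptFst
    | with_reducible apply ptSnd
    | with_reducible apply PolyTime.add
    | with_reducible apply PolyTime.mul
    | with_reducible apply PolyTime.range
    | with_reducible apply PolyTime.length
    | with_reducible apply PolyTime.append
    | with_reducible apply PolyTime.map
    | with_reducible apply PolyTime.flatMap
    | with_reducible apply ptCons
    | with_reducible apply ptGetD
    | with_reducible apply ptPair
    | with_reducible apply ptVar
    | with_reducible apply ptConst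
    | with_reducible apply ptNum
    | with_reducible apply ptDen
    | with_reducible apply ptAdd
    | with_reducible apply ptMul
    | with_reducible apply ptEq
    | with_reducible apply ptLe
    | with_reducible apply ptLt
    | with_reducible apply ptNot
    | with_reducible apply ptAnd
    | with_reducible apply ptOr
    | with_reducible apply ptBigAnd
    | with_reducible apply ptBigOr
    | with_reducible apply ptTsum
    | with_reducible apply pt_vr
    | with_reducible apply pt_V
    | with_reducible apply pt_px
    | with_reducible apply pt_py
    | with_reducible apply pt_ec
    | with_reducible apply pt_len
    | with_reducible apply pt_tsub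
    | with_reducible apply pt_tsq
    | with_reducible apply pt_edgeL
    | with_reducible apply pt_offL
    | with_reducible apply pt_radL
    | with_reducible apply pt_LTs
    | with_reducible apply pt_llP
    | with_reducible apply pt_lcP
    | with_reducible apply pt_EPs
    | with_reducible apply pt_Evs
    | with_reducible apply pt_sx
    | with_reducible apply pt_YPs
    | with_reducible apply pt_NY
    | with_reducible apply pt_Ys
    | with_reducible apply pt_sy
    | with_reducible apply pt_offF
    | with_reducible apply pt_crossF
    | with_reducible apply pt_stepF
    | with_reducible apply pt_mid
    | with_reducible apply pt_covF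
    | with_reducible apply pt_goodF
    | with_reducible apply pt_roots
    | with_reducible apply pt_isRat
    | with_reducible apply pt_F2
    | with_reducible apply pt_F3
    | with_reducible apply pt_F4
    | with_reducible apply pt_F5
    | with_reducible apply PolyTime.pair

theorem pt_F6 {n : γ → ℕ} {m : γ → ℕ} {a : γ → ℕ} {b : γ → ℕ} {c : γ → ℕ} {d : γ → ℕ}
    (h0 : PolyTime n) (h1 : PolyTime m) (h2 : PolyTime a) (h3 : PolyTime b) (h4 : PolyTime c) (h5 : PolyTime d) :
    PolyTime fun z => F6 (n z) (m z) (a z) (b z) (c z) (d z) := by
  have h := ptb_F6.comp (h0.pair (h1.pair (h2.pair (h3.pair (h4.pair h5)))))
  exact h

theorem ptb_FL : PolyTime fun p : ℤ × ℕ => FL (p.1) (p.2) := by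
  unfold FL
  repeat first
    | with_reducible exact PolyTime.const _
    | with_reducible exact PolyTime.id
    | with_reducible assumption
    | with_reducible apply ptFst
    | with_reducible apply ptSnd
    | with_reducible apply PolyTime.add
    | with_reducible apply PolyTime.mul
    | with_reducible apply PolyTime.range
    | with_reducible apply PolyTime.length
    | with_reducible apply PolyTime.append
    | with_reducible apply PolyTime.map
    | with_reducible apply PolyTime.flatMap
    | with_reducible apply ptCons
    | with_reducible apply ptGetD
    | with_reducible apply ptPair
    | with_reducible apply ptVar
    | with_reducible apply ptConst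
    | with_reducible apply ptNum
    | with_reducible apply ptDen
    | with_reducible apply ptAdd
    | with_reducible apply ptMul
    | with_reducible apply ptEq
    | with_reducible apply ptLe
    | with_reducible apply ptLt
    | with_reducible apply ptNot
    | with_reducible apply ptAnd
    | with_reducible apply ptOr
    | with_reducible apply ptBigAnd
    | with_reducible apply ptBigOr
    | with_reducible apply ptTsum
    | with_reducible apply pt_vr
    | with_reducible apply pt_V
    | with_reducible apply pt_px
    | with_reducible apply pt_py
    | with_reducible apply pt_ec
    | with_reducible apply pt_len
    | with_reducible apply pt_tsub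
    | with_reducible apply pt_tsq
    | with_reducible apply pt_edgeL
    | with_reducible apply pt_offL
    | with_reducible apply pt_radL
    | with_reducible apply pt_LTs
    | with_reducible apply pt_llP
    | with_reducible apply pt_lcP
    | with_reducible apply pt_EPs
    | with_reducible apply pt_Evs
    | with_reducible apply pt_sx
    | with_reducible apply pt_YPs
    | with_reducible apply pt_NY
    | with_reducible apply pt_Ys
    | with_reducible apply pt_sy
    | with_reducible apply pt_offF
    | with_reducible apply pt_crossF
    | with_reducible apply pt_stepF
    | with_reducible apply pt_mid
    | with_reducible apply pt_covF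
    | with_reducible apply pt_goodF
    | with_reducible apply pt_roots
    | with_reducible apply pt_isRat
    | with_reducible apply pt_F2
    | with_reducible apply pt_F3
    | with_reducible apply pt_F4
    | with_reducible apply pt_F5
    | with_reducible apply pt_F6
    | with_reducible apply PolyTime.pair

theorem pt_FL {k : γ → ℤ} {m : γ → ℕ}
    (h0 : PolyTime k) (h1 : PolyTime m) :
    PolyTime fun z => FL (k z) (m z) := by
  have h := ptb_FL.comp (h0.pair h1)
  exact h

theorem ptb_constraints : PolyTime fun p : (List ((ℚ × ℚ) × (ℚ × ℚ))) × (ℤ × ℕ) => constraints (p.1) (p.2.1) (p.2.2) := by
  unfold constraints
  repeat first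
    | with_reducible exact PolyTime.const _
    | with_reducible exact PolyTime.id
    | with_reducible assumption
    | with_reducible apply ptFst
    | with_reducible apply ptSnd
    | with_reducible apply PolyTime.add
    | with_reducible apply PolyTime.mul
    | with_reducible apply PolyTime.range
    | with_reducible apply PolyTime.length
    | with_reducible apply PolyTime.append
    | with_reducible apply PolyTime.map
    | with_reducible apply PolyTime.flatMap
    | with_reducible apply ptCons
    | with_reducible apply ptGetD
    | with_reducible apply ptPair
    | with_reducible apply ptVar
    | with_reducible apply ptConst
    | with_reducible apply ptNum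
    | with_reducible apply ptDen
    | with_reducible apply ptAdd
    | with_reducible apply ptMul
    | with_reducible apply ptEq
    | with_reducible apply ptLe
    | with_reducible apply ptLt
    | with_reducible apply ptNot
    | with_reducible apply ptAnd
    | with_reducible apply ptOr
    | with_reducible apply ptBigAnd
    | with_reducible apply ptBigOr
    | with_reducible apply ptTsum
    | with_reducible apply pt_vr
    | with_reducible apply pt_V
    | with_reducible apply pt_px
    | with_reducible apply pt_py
    | with_reducible apply pt_ec
    | with_reducible apply pt_len
    | with_reducible apply pt_tsub
    | with_reducible apply pt_tsq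
    | with_reducible apply pt_edgeL
    | with_reducible apply pt_offL
    | with_reducible apply pt_radL
    | with_reducible apply pt_LTs
    | with_reducible apply pt_llP
    | with_reducible apply pt_lcP
    | with_reducible apply pt_EPs
    | with_reducible apply pt_Evs
    | with_reducible apply pt_sx
    | with_reducible apply pt_YPs
    | with_reducible apply pt_NY
    | with_reducible apply pt_Ys
    | with_reducible apply pt_sy
    | with_reducible apply pt_offF
    | with_reducible apply pt_crossF
    | with_reducible apply pt_stepF
    | with_reducible apply pt_mid
    | with_reducible apply pt_covF
    | with_reducible apply pt_goodF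
    | with_reducible apply pt_roots
    | with_reducible apply pt_isRat
    | with_reducible apply pt_F2
    | with_reducible apply pt_F3
    | with_reducible apply pt_F4
    | with_reducible apply pt_F5
    | with_reducible apply pt_F6
    | with_reducible apply pt_FL
    | with_reducible apply PolyTime.pair

theorem pt_constraints {E : γ → List ((ℚ × ℚ) × (ℚ × ℚ))} {k : γ → ℤ} {m : γ → ℕ}
    (h0 : PolyTime E) (h1 : PolyTime k) (h2 : PolyTime m) :
    PolyTime fun z => constraints (E z) (k z) (m z) := by
  have h := ptb_constraints.comp (h0.pair (h1.pair h2))
  exact h

end

end Pool.Agent.MP_3ba9a9_lc
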