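import Pool.Agent.MP_3ba9a9_lc.PTBuild

/-!
# The reduction is computed in polynomial time by a Turing machine
-/

open Pool.Agent.H66

namespace Pool.Agent.MP_3ba9a9_lc

theorem ptb_edgesOf : PolyTime edgesOf := by
  have h : PolyTime fun l : List (ℚ × ℚ) => (List.range l.length).map fun i =>
      (l.getD i (0, 0), l.getD (if i + 1 = l.length then 0 else i + 1) (0, 0)) := by
    repeat first
      | with_reducible exact PolyTime.const _
      | with_reducible exact PolyTime.id
      | with_reducible apply ptFst
      | with_reducible apply ptSnd
      | with_reducible apply PolyTime.map
      | with_reducible apply PolyTime.range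
      | with_reducible apply PolyTime.length
      | with_reducible apply PolyTime.add
      | with_reducible apply ptIte
      | with_reducible apply PolyTime.eqb
      | with_reducible apply ptGetD
      | with_reducible apply PolyTime.pair
  refine h.of_eq fun l => ?_
  refine List.map_congr_left fun i hi => ?_
  have hi' := List.mem_range.1 hi
  have : (if i + 1 = l.length then 0 else i + 1) = (i + 1) % l.length := by
    by_cases h1 : i + 1 = l.length
    · rw [if_pos h1, h1, Nat.mod_self]
    · rw [if_neg h1, Nat.mod_eq_of_lt (by omega)]
  rw [this]

theorem ptb_edges : PolyTime Instance.edges := by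
  have h : PolyTime fun I : Instance => (I.outer :: I.holes).flatMap fun l => edgesOf l := by
    have h1 : PolyTime fun I : Instance => I.outer :: I.holes := ptCons ptOuter ptHoles
    exact PolyTime.flatMap (f := fun _ l => edgesOf l) h1 (ptb_edgesOf.comp PolyTime.snd)
  exact h

theorem ptb_sentence : PolyTime sentence := by
  unfold sentence
  exact ptBigAnd (pt_constraints ptb_edges ptK ptM)

/-- The sentence of an instance is computed in polynomial time. -/
theorem computable_sentence :
    Nonempty (Turing.TM2ComputableInPolyTime Instance.code Formula.code sentence) := by
  have e1 : Instance.code = (enc : Instance → List Bool) := funext inst_code_eq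
  have e2 : Formula.code = (enc : Formula → List Bool) := funext formula_code_eq
  rw [e1, e2]
  exact ptb_sentence.tm2

end Pool.Agent.MP_3ba9a9_lc
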