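import Pool.Agent.MP_3ba9a9_lc.SegDist

/-!
# Coverage can be tested on finitely many sample points
-/

open Set Filter Topology

namespace Pool.Agent.MP_3ba9a9_lc

open Instance

/-- The point `z` has distance at most `1` from the curve `v₀ … vₘ`. -/
def Cov (v : ℕ → ℂ) (m : ℕ) (z : ℂ) : Prop :=
  ∃ i < m, ∃ w ∈ segment ℝ (v i) (v (i + 1)), dist z w ≤ 1

/-- Edges with rational ends. -/
abbrev Edge := (ℚ × ℚ) × (ℚ × ℚ)

/-- The height of the line through an edge above the abscissa `x`. -/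
noncomputable def height (e : Edge) (x : ℝ) : ℝ :=
  (e.1.2 : ℝ) + ((e.2.2 : ℝ) - e.1.2) * (x - e.1.1) / ((e.2.1 : ℝ) - e.1.1)

/-- The point `z` is not on the line through the edge `e`. -/
def OffLine (z : ℂ) (e : Edge) : Prop :=
  ((e.1.1 : ℝ) ≠ e.2.1 ∧
    ((e.2.1 : ℝ) - e.1.1) * (z.im - e.1.2) ≠ ((e.2.2 : ℝ) - e.1.2) * (z.re - e.1.1)) ∨
  ((e.1.1 : ℝ) = e.2.1 ∧ z.re ≠ e.1.1)

open Classical in
/-- The number of edges crossed by the upward ray from `z`. -/
noncomputable def crossings (E : List Edge) (z : ℂ) : ℕ :=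
  (E.filter fun e => decide (Crosses z e)).length

/-- The line through an edge. -/
noncomputable def edgeLine (e : Edge) : ℝ × ℝ × ℝ :=
  (-((e.2.2 : ℝ) - e.1.2), (e.2.1 : ℝ) - e.1.1,
    ((e.2.2 : ℝ) - e.1.2) * e.1.1 - ((e.2.1 : ℝ) - e.1.1) * e.1.2)

/-- The lines at distance `1` from the segment `[a, b]`. -/
noncomputable def offLine (a b : ℂ) (σ : ℝ) : ℝ × ℝ × ℝ :=
  (-(b.im - a.im), b.re - a.re,
    (b.im - a.im) * a.re - (b.re - a.re) * a.im - σ * dist a b)

/-- All lines. -/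
def lines (E : List Edge) (v : ℕ → ℂ) (m : ℕ) : Set (ℝ × ℝ × ℝ) :=
  {L | (∃ e ∈ E, L = edgeLine e) ∨ ∃ i < m, ∃ σ : ℝ, (σ = 1 ∨ σ = -1) ∧
    L = offLine (v i) (v (i + 1)) σ}

/-- The point `(x, y)` lies on the line `L`. -/
def OnL (L : ℝ × ℝ × ℝ) (x y : ℝ) : Prop := L.1 * x + L.2.1 * y + L.2.2 = 0

/-- The point `(x, y)` lies on the unit circle around `c`. -/
def OnC (c : ℂ) (x y : ℝ) : Prop := (x - c.re) ^ 2 + (y - c.im) ^ 2 = 1

/-- The condition that the set `Ev` of abscissas contains all events. -/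
structure Events (E : List Edge) (v : ℕ → ℂ) (m : ℕ) (Ev : Set ℝ) : Prop where
  fin : Ev.Finite
  edge : ∀ e ∈ E, (e.1.1 : ℝ) ∈ Ev ∧ (e.2.1 : ℝ) ∈ Ev
  tan : ∀ i ≤ m, (v i).re + 1 ∈ Ev ∧ (v i).re - 1 ∈ Ev
  ll : ∀ L ∈ lines E v m, ∀ L' ∈ lines E v m, L.1 * L'.2.1 - L'.1 * L.2.1 ≠ 0 →
    ∀ x y, OnL L x y → OnL L' x y → x ∈ Ev
  lc : ∀ L ∈ lines E v m, L.2.1 ≠ 0 → ∀ i ≤ m, ∀ x y, OnL L x y → OnC (v i) x y → x ∈ Ev
  cc : ∀ i ≤ m, ∀ j ≤ m, v i ≠ v j → ∀ x y, OnC (v i) x y → OnC (v j) x y → x ∈ Ev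

/-- The condition tested at a sample point. -/
def Good (E : List Edge) (v : ℕ → ℂ) (m : ℕ) (z : ℂ) : Prop :=
  (∀ e ∈ E, OffLine z e) → Odd (crossings E z) → Cov v m z

theorem lines_finite (E : List Edge) (v : ℕ → ℂ) (m : ℕ) : (lines E v m).Finite := by
  have h1 : (edgeLine '' {e | e ∈ E}).Finite := (List.finite_toSet E).image _
  have h2 : ((fun i => offLine (v i) (v (i + 1)) 1) '' {i | i < m}).Finite :=
    (Set.finite_lt_nat m).image _
  have h3 : ((fun i => offLine (v i) (v (i + 1)) (-1)) '' {i | i < m}).Finite :=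
    (Set.finite_lt_nat m).image _
  refine ((h1.union h2).union h3).subset ?_
  rintro L (⟨e, he, rfl⟩ | ⟨i, hi, σ, rfl | rfl, rfl⟩)
  · exact Or.inl (Or.inl ⟨e, he, rfl⟩)
  · exact Or.inl (Or.inr ⟨i, hi, rfl⟩)
  · exact Or.inr ⟨i, hi, rfl⟩

theorem isClosed_cov (v : ℕ → ℂ) (m : ℕ) : IsClosed {z | Cov v m z} := by
  have : {z | Cov v m z} = ⋃ i ∈ {i | i < m},
      {z | Metric.infDist z (segment ℝ (v i) (v (i + 1))) ≤ 1} := by
    ext z
    simp only [Cov, mem_ofPred_eq, mem_iUnion, exists_prop, infDist_le_one_iff]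
  rw [this]
  refine (Set.finite_lt_nat m).isClosed_biUnion fun i _ => ?_
  exact isClosed_le (Metric.continuous_infDist_pt _) continuous_const

/-- The line branch. -/
noncomputable def lineFun (L : ℝ × ℝ × ℝ) (x : ℝ) : ℝ := -(L.1 * x + L.2.2) / L.2.1

theorem onL_iff {L : ℝ × ℝ × ℝ} (h : L.2.1 ≠ 0) {x y : ℝ} : OnL L x y ↔ y = lineFun L x := by
  unfold OnL lineFun
  rw [eq_div_iff h]
  constructor <;> intro h' <;> linarith

/-- The circle branches. -/
noncomputable def circFun (c : ℂ) (σ : ℝ) (x : ℝ) : ℝ := c.im + σ * √(1 - (x - c.re) ^ 2)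

theorem onC_iff {c : ℂ} {x y : ℝ} (hx : (x - c.re) ^ 2 ≤ 1) :
    OnC c x y ↔ y = circFun c 1 x ∨ y = circFun c (-1) x := by
  unfold OnC circFun
  have hs : √(1 - (x - c.re) ^ 2) ^ 2 = 1 - (x - c.re) ^ 2 := Real.sq_sqrt (by linarith)
  constructor
  · intro h
    have : (y - c.im) ^ 2 = √(1 - (x - c.re) ^ 2) ^ 2 := by rw [hs]; linarith
    rcases sq_eq_sq_iff_eq_or_eq_neg.1 this with h' | h'
    · left; linarith
    · right; linarith
  · rintro (rfl | rfl)
    · nlinarith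
    · nlinarith

theorem edge_height {e : Edge} (h : (e.1.1 : ℝ) ≠ e.2.1) (x : ℝ) :
    lineFun (edgeLine e) x = height e x := by
  unfold lineFun edgeLine height
  have : (e.2.1 : ℝ) - e.1.1 ≠ 0 := sub_ne_zero.2 h.symm
  simp only
  field_simp
  ring

/-- The set of branches in the slab `(α, β)`. -/
def branches (E : List Edge) (v : ℕ → ℂ) (m : ℕ) (α β : ℝ) : Set (ℝ → ℝ) :=
  {g | (∃ L ∈ lines E v m, L.2.1 ≠ 0 ∧ g = lineFun L) ∨
    ∃ i ≤ m, (v i).re - 1 ≤ α ∧ β ≤ (v i).re + 1 ∧ ∃ σ : ℝ, (σ = 1 ∨ σ = -1) ∧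
      g = circFun (v i) σ}

theorem branches_finite (E : List Edge) (v : ℕ → ℂ) (m : ℕ) (α β : ℝ) :
    (branches E v m α β).Finite := by
  have h1 : (lineFun '' lines E v m).Finite := (lines_finite E v m).image _
  have h2 : ((fun i => circFun (v i) 1) '' {i | i ≤ m}).Finite := (Set.finite_le_nat m).image _
  have h3 : ((fun i => circFun (v i) (-1)) '' {i | i ≤ m}).Finite :=
    (Set.finite_le_nat m).image _
  refine ((h1.union h2).union h3).subset ?_
  rintro g (⟨L, hL, -, rfl⟩ | ⟨i, hi, -, -, σ, rfl | rfl, rfl⟩)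
  · exact Or.inl (Or.inl ⟨L, hL, rfl⟩)
  · exact Or.inl (Or.inr ⟨i, hi, rfl⟩)
  · exact Or.inr ⟨i, hi, rfl⟩

theorem branches_cont {E : List Edge} {v : ℕ → ℂ} {m : ℕ} {α β : ℝ} :
    ∀ g ∈ branches E v m α β, Continuous g := by
  rintro g (⟨L, hL, h, rfl⟩ | ⟨i, hi, -, -, σ, -, rfl⟩)
  · unfold lineFun
    fun_prop
  · unfold circFun
    fun_prop

section slab
variable {E : List Edge} {v : ℕ → ℂ} {m : ℕ} {Ev : Set ℝ} {α β : ℝ}

theorem circ_in {i : ℕ} (hα : (v i).re - 1 ≤ α) (hβ : β ≤ (v i).re + 1) {x : ℝ}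
    (hx : x ∈ Ioo α β) : (x - (v i).re) ^ 2 < 1 := by
  have h1 : -1 < x - (v i).re := by linarith [hx.1]
  have h2 : x - (v i).re < 1 := by linarith [hx.2]
  nlinarith

theorem branches_ne (hEv : Events E v m Ev) (hno : ∀ x ∈ Ioo α β, x ∉ Ev) :
    ∀ g ∈ branches E v m α β, ∀ h ∈ branches E v m α β,
      (∀ x ∈ Ioo α β, g x ≠ h x) ∨ ∀ x ∈ Ioo α β, g x = h x := by
  have key : ∀ L ∈ lines E v m, L.2.1 ≠ 0 → ∀ i ≤ m, (v i).re - 1 ≤ α → β ≤ (v i).re + 1 →
      ∀ σ : ℝ, (σ = 1 ∨ σ = -1) → ∀ x ∈ Ioo α β, lineFun L x ≠ circFun (v i) σ x := by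
    intro L hL hB i hi h1 h2 σ hσ x hx he
    refine hno x hx (hEv.lc L hL hB i hi x (lineFun L x) ((onL_iff hB).2 rfl) ?_)
    refine (onC_iff (circ_in h1 h2 hx).le).2 ?_
    rcases hσ with rfl | rfl
    · exact Or.inl he
    · exact Or.inr he
  rintro g (⟨L, hL, hB, rfl⟩ | ⟨i, hi, h1, h2, σ, hσ, rfl⟩) h
    (⟨L', hL', hB', rfl⟩ | ⟨j, hj, h1', h2', τ, hτ, rfl⟩)
  · by_cases hd : L.1 * L'.2.1 - L'.1 * L.2.1 = 0
    · by_cases hc : L.2.2 * L'.2.1 - L'.2.2 * L.2.1 = 0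
      · right
        intro x hx
        unfold lineFun
        rw [div_eq_div_iff hB hB']
        linear_combination -x * hd - hc
      · left
        intro x hx he
        apply hc
        unfold lineFun at he
        rw [div_eq_div_iff hB hB'] at he
        linear_combination -he - x * hd
    · left
      intro x hx he
      exact hno x hx (hEv.ll L hL L' hL' hd x (lineFun L x) ((onL_iff hB).2 rfl)
        ((onL_iff hB').2 he))
  · left
    exact key L hL hB j hj h1' h2' τ hτ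
  · left
    intro x hx he
    exact key L' hL' hB' i hi h1 h2 σ hσ x hx he.symm
  · by_cases hv : v i = v j
    · by_cases hst : σ = τ
      · right
        intro x hx
        rw [hst, hv]
      · left
        intro x hx he
        have hlt := circ_in h1 h2 hx
        have hpos : 0 < √(1 - (x - (v i).re) ^ 2) := Real.sqrt_pos.2 (by linarith)
        unfold circFun at he
        rw [← hv] at he
        have : (σ - τ) * √(1 - (x - (v i).re) ^ 2) = 0 := by linarith
        rcases mul_eq_zero.1 this with h' | h'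
        · exact hst (by linarith)
        · exact hpos.ne' h'
    · left
      intro x hx he
      refine hno x hx (hEv.cc i hi j hj hv x (circFun (v i) σ x) ?_ ?_)
      · refine (onC_iff (circ_in h1 h2 hx).le).2 ?_
        rcases hσ with rfl | rfl
        · exact Or.inl rfl
        · exact Or.inr rfl
      · refine (onC_iff (circ_in h1' h2' hx).le).2 ?_
        rcases hτ with rfl | rfl
        · exact Or.inl he
        · exact Or.inr he

/-- In the slab, points off the branches are not at distance `1` from a segment. -/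
theorem infDist_ne_one (hEv : Events E v m Ev) (hno : ∀ x ∈ Ioo α β, x ∉ Ev) {z : ℂ}
    (hz : z.re ∈ Ioo α β) (hoff : ∀ g ∈ branches E v m α β, z.im ≠ g z.re) {i : ℕ} (hi : i < m) :
    Metric.infDist z (segment ℝ (v i) (v (i + 1))) ≠ 1 := by
  have circ : ∀ j ≤ m, dist z (v j) ≠ 1 := by
    intro j hj hd
    rw [dist_eq_one_iff] at hd
    have hx : (z.re - (v j).re) ^ 2 ≤ 1 := by nlinarith [sq_nonneg (z.im - (v j).im)]
    have hl : (v j).re - 1 ≤ z.re := by nlinarith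
    have hr : z.re ≤ (v j).re + 1 := by nlinarith
    have h1 : (v j).re - 1 ≤ α := by
      by_contra hc
      push Not at hc
      exact hno _ ⟨hc, lt_of_le_of_lt hl hz.2⟩ (hEv.tan j hj).2
    have h2 : β ≤ (v j).re + 1 := by
      by_contra hc
      push Not at hc
      exact hno _ ⟨lt_of_lt_of_le hz.1 hr, hc⟩ (hEv.tan j hj).1
    rcases (onC_iff hx).1 hd with h | h
    · exact hoff _ (Or.inr ⟨j, hj, h1, h2, 1, Or.inl rfl, rfl⟩) h
    · exact hoff _ (Or.inr ⟨j, hj, h1, h2, -1, Or.inr rfl, rfl⟩) h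
  intro hd
  rcases on_curve hd with h | h | ⟨σ, hσ, hne, h⟩
  · exact circ i hi.le h
  · exact circ (i + 1) hi h
  · by_cases hB : (v (i + 1)).re - (v i).re = 0
    · -- a vertical segment
      have hD : dist (v i) (v (i + 1)) ^ 2 = ((v (i + 1)).im - (v i).im) ^ 2 := by
        rw [dist_sq]
        nlinarith
      have hpos : 0 < dist (v i) (v (i + 1)) := dist_pos.2 hne
      have hsq : (z.re - (v i).re) ^ 2 = 1 := by
        have h2 : ((v (i + 1)).im - (v i).im) ^ 2 * (z.re - (v i).re) ^ 2 =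
            dist (v i) (v (i + 1)) ^ 2 := by
          have : (σ * dist (v i) (v (i + 1))) ^ 2 = dist (v i) (v (i + 1)) ^ 2 := by
            rcases hσ with rfl | rfl <;> ring
          rw [← this, ← h, hB]
          ring
        rw [← hD] at h2
        have : dist (v i) (v (i + 1)) ^ 2 ≠ 0 := by positivity
        exact mul_left_cancel₀ this (by rw [h2, mul_one])
      have hcase : z.re = (v i).re + 1 ∨ z.re = (v i).re - 1 := by
        have : (z.re - (v i).re - 1) * (z.re - (v i).re + 1) = 0 := by linarith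
        rcases mul_eq_zero.1 this with h' | h'
        · left; linarith
        · right; linarith
      rcases hcase with h' | h'
      · exact hno _ hz (h' ▸ (hEv.tan i hi.le).1)
      · exact hno _ hz (h' ▸ (hEv.tan i hi.le).2)
    · have hmem : offLine (v i) (v (i + 1)) σ ∈ lines E v m := Or.inr ⟨i, hi, σ, hσ, rfl⟩
      refine hoff _ (Or.inl ⟨_, hmem, hB, rfl⟩) ?_
      refine (onL_iff (L := offLine (v i) (v (i + 1)) σ) hB).1 ?_
      unfold OnL offLine
      simp only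
      linarith

/-- In the slab, an edge is crossed either by all or by no ray from points of a connected set which
avoids the branches. -/
theorem crosses_iff (hEv : Events E v m Ev) (hno : ∀ x ∈ Ioo α β, x ∉ Ev) {C : Set ℂ}
    (hC : IsPreconnected C)
    (hoff : ∀ z ∈ C, z.re ∈ Ioo α β ∧ ∀ g ∈ branches E v m α β, z.im ≠ g z.re) {z z' : ℂ}
    (hz : z ∈ C) (hz' : z' ∈ C) {e : Edge} (he : e ∈ E) (h : Crosses z e) : Crosses z' e := by
  obtain ⟨hr, hlt⟩ := h
  obtain ⟨hz1, -⟩ := hoff z hz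
  obtain ⟨hz2, -⟩ := hoff z' hz'
  obtain ⟨ha, hb⟩ := hEv.edge e he
  have hane : ∀ x ∈ Ioo α β, x ≠ (e.1.1 : ℝ) := fun x hx h' => hno x hx (h' ▸ ha)
  have hbne : ∀ x ∈ Ioo α β, x ≠ (e.2.1 : ℝ) := fun x hx h' => hno x hx (h' ▸ hb)
  have side : ∀ c : ℝ, c ∉ Ioo α β → (c ≤ z.re → c ≤ z'.re) ∧ (z.re < c → z'.re < c) := by
    intro c hc
    constructor
    · intro h1
      by_contra h2
      push Not at h2
      exact hc ⟨hz2.1.trans h2, lt_of_le_of_lt h1 hz1.2⟩
    · intro h1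
      by_contra h2
      push Not at h2
      exact hc ⟨hz1.1.trans h1, lt_of_le_of_lt h2 hz2.2⟩
  have hac : (e.1.1 : ℝ) ∉ Ioo α β := fun h' => hno _ h' ha
  have hbc : (e.2.1 : ℝ) ∉ Ioo α β := fun h' => hno _ h' hb
  have hne : (e.1.1 : ℝ) ≠ e.2.1 := by
    rintro h'
    rcases hr with h1 | h1 <;> linarith
  refine ⟨?_, ?_⟩
  · rcases hr with ⟨h1, h2⟩ | ⟨h1, h2⟩
    · exact Or.inl ⟨(side _ hac).1 h1, (side _ hbc).2 h2⟩
    · exact Or.inr ⟨(side _ hbc).1 h1, (side _ hac).2 h2⟩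
  · change z'.im < height e z'.re
    change z.im < height e z.re at hlt
    by_contra hcon
    push Not at hcon
    have hcont : Continuous fun x => height e x := by
      unfold height
      fun_prop
    obtain ⟨y, hy, hye⟩ := hC.intermediate_value₂ hz hz' Complex.continuous_im.continuousOn
      (hcont.comp Complex.continuous_re).continuousOn hlt.le hcon
    have hmem : edgeLine e ∈ lines E v m := Or.inl ⟨e, he, rfl⟩
    have hB : (edgeLine e).2.1 ≠ 0 := sub_ne_zero.2 hne.symm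
    refine (hoff y hy).2 _ (Or.inl ⟨_, hmem, hB, rfl⟩) ?_
    rw [edge_height hne]
    exact hye

end slab

theorem eventually_crosses {z₁ : ℂ} {e : Edge} (hoff : z₁ ∉ segment ℝ (toC e.1) (toC e.2)) :
    ∀ᶠ z in 𝓝[{z | z₁.re ≤ z.re}] z₁, (Crosses z e ↔ Crosses z₁ e) := by
  have hre : Tendsto Complex.re (𝓝 z₁) (𝓝 z₁.re) := Complex.continuous_re.continuousAt
  have hge : ∀ᶠ z in 𝓝[{z | z₁.re ≤ z.re}] z₁, z₁.re ≤ z.re := eventually_mem_nhdsWithin
  have lt : ∀ c : ℝ, z₁.re < c → ∀ᶠ z in 𝓝[{z | z₁.re ≤ z.re}] z₁, z.re < c := fun c hc =>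
    (hre.eventually (Iio_mem_nhds hc)).filter_mono nhdsWithin_le_nhds
  have lt_iff : ∀ c : ℝ, ∀ᶠ z in 𝓝[{z | z₁.re ≤ z.re}] z₁, (z.re < c ↔ z₁.re < c) := by
    intro c
    by_cases hc : z₁.re < c
    · filter_upwards [lt c hc] with z hz
      exact ⟨fun _ => hc, fun _ => hz⟩
    · filter_upwards [hge] with z hz
      exact ⟨fun h => absurd (lt_of_le_of_lt hz h) hc, fun h => absurd h hc⟩
  have range_iff : ∀ᶠ z in 𝓝[{z | z₁.re ≤ z.re}] z₁,
      ((((e.1.1 : ℝ) ≤ z.re ∧ z.re < (e.2.1 : ℝ)) ∨ ((e.2.1 : ℝ) ≤ z.re ∧ z.re < (e.1.1 : ℝ))) ↔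
      (((e.1.1 : ℝ) ≤ z₁.re ∧ z₁.re < (e.2.1 : ℝ)) ∨
        ((e.2.1 : ℝ) ≤ z₁.re ∧ z₁.re < (e.1.1 : ℝ)))) := by
    filter_upwards [lt_iff e.1.1, lt_iff e.2.1] with z h1 h2
    have h3 : (e.1.1 : ℝ) ≤ z.re ↔ (e.1.1 : ℝ) ≤ z₁.re := by rw [← not_lt, h1, not_lt]
    have h4 : (e.2.1 : ℝ) ≤ z.re ↔ (e.2.1 : ℝ) ≤ z₁.re := by rw [← not_lt, h2, not_lt]
    rw [h1, h2, h3, h4]
  by_cases hr : (((e.1.1 : ℝ) ≤ z₁.re ∧ z₁.re < (e.2.1 : ℝ)) ∨
      ((e.2.1 : ℝ) ≤ z₁.re ∧ z₁.re < (e.1.1 : ℝ)))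
  · have hne : (e.2.1 : ℝ) - e.1.1 ≠ 0 := by
      intro h'
      rcases hr with h1 | h1 <;> linarith
    have hcont : Continuous fun x => height e x := by
      unfold height
      fun_prop
    have hh : z₁.im ≠ height e z₁.re := by
      intro h'
      apply hoff
      rw [segment_eq_image]
      refine ⟨(z₁.re - e.1.1) / ((e.2.1 : ℝ) - e.1.1), ⟨?_, ?_⟩, ?_⟩
      · rcases hr with h1 | h1
        · exact div_nonneg (by linarith) (by linarith)
        · exact div_nonneg_of_nonpos (by linarith) (by linarith)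
      · rcases hr with h1 | h1
        · rw [div_le_one (by linarith)]; linarith
        · rw [div_le_one_of_neg (by linarith)]; linarith
      · have hx : z₁.re = (1 - (z₁.re - e.1.1) / ((e.2.1 : ℝ) - e.1.1)) * e.1.1 +
            (z₁.re - e.1.1) / ((e.2.1 : ℝ) - e.1.1) * e.2.1 := by
          field_simp
          ring
        have hy : z₁.im = (1 - (z₁.re - e.1.1) / ((e.2.1 : ℝ) - e.1.1)) * e.1.2 +
            (z₁.re - e.1.1) / ((e.2.1 : ℝ) - e.1.1) * e.2.2 := by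
          rw [h']
          unfold height
          field_simp
          ring
        refine Complex.ext ?_ ?_
        · simp only [toC, Complex.add_re, Complex.real_smul, Complex.mul_re, Complex.ofReal_re,
            Complex.ofReal_im, zero_mul, sub_zero]
          exact hx.symm
        · simp only [toC, Complex.add_im, Complex.real_smul, Complex.mul_im, Complex.ofReal_re,
            Complex.ofReal_im, zero_mul, add_zero]
          exact hy.symm
    have hiff : ∀ᶠ z in 𝓝[{z | z₁.re ≤ z.re}] z₁,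
        (z.im < height e z.re ↔ z₁.im < height e z₁.re) := by
      have h1 : ContinuousAt (fun z : ℂ => z.im) z₁ := Complex.continuous_im.continuousAt
      have h2 : ContinuousAt (fun z : ℂ => height e z.re) z₁ :=
        (hcont.comp Complex.continuous_re).continuousAt
      rcases lt_or_gt_of_ne hh with h' | h'
      · have := (h1.eventually_lt h2 h').filter_mono
          (nhdsWithin_le_nhds (s := {z | z₁.re ≤ z.re}))
        filter_upwards [this] with z hz
        exact ⟨fun _ => h', fun _ => hz⟩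
      · have := (h2.eventually_lt h1 h').filter_mono
          (nhdsWithin_le_nhds (s := {z | z₁.re ≤ z.re}))
        filter_upwards [this] with z hz
        exact ⟨fun h => absurd h (not_lt.2 hz.le), fun h => absurd h (not_lt.2 h'.le)⟩
    filter_upwards [range_iff, hiff] with z h1 h2
    exact and_congr h1 h2
  · filter_upwards [range_iff] with z h1
    exact ⟨fun h => absurd (h1.1 h.1) hr, fun h => absurd h.1 hr⟩

theorem branch_mem {E : List Edge} {v : ℕ → ℂ} {m : ℕ} {α β : ℝ} {Y : Set ℝ} {x : ℝ}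
    (hx : x ∈ Ioo α β) (h1 : ∀ L ∈ lines E v m, L.2.1 ≠ 0 → ∀ y, OnL L x y → y ∈ Y)
    (h2 : ∀ i ≤ m, ∀ y, OnC (v i) x y → y ∈ Y) : ∀ g ∈ branches E v m α β, g x ∈ Y := by
  rintro g (⟨L, hL, hB, rfl⟩ | ⟨i, hi, ha, hb, σ, hσ, rfl⟩)
  · exact h1 L hL hB _ ((onL_iff hB).2 rfl)
  · refine h2 i hi _ ((onC_iff (circ_in ha hb hx).le).2 ?_)
    rcases hσ with rfl | rfl
    · exact Or.inl rfl
    · exact Or.inr rfl

theorem sampling {E : List Edge} {v : ℕ → ℂ} {m : ℕ} {Ev : Set ℝ} (hEv : Events E v m Ev)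
    (H : ∀ e ∈ Ev, ∀ e' ∈ Ev, ∃ Y : Set ℝ,
      (∀ L ∈ lines E v m, L.2.1 ≠ 0 → ∀ y, OnL L ((e + e') / 2) y → y ∈ Y) ∧
      (∀ i ≤ m, ∀ y, OnC (v i) ((e + e') / 2) y → y ∈ Y) ∧
      ∀ y ∈ Y, ∀ y', (y' = y - 2 ∨ y' ∈ Y) → Good E v m ⟨(e + e') / 2, (y + y') / 2⟩) :
    ∀ z ∈ closure {z : ℂ | (∀ e ∈ E, z ∉ segment ℝ (toC e.1) (toC e.2)) ∧ Odd (crossings E z)},
      Cov v m z := by
  have hsub : {z : ℂ | (∀ e ∈ E, z ∉ segment ℝ (toC e.1) (toC e.2)) ∧ Odd (crossings E z)} ⊆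
      {z | Cov v m z} := by
    rintro z₁ ⟨hz₁, hodd⟩
    by_contra hcov
    replace hcov : ¬ Cov v m z₁ := hcov
    -- a nearby generic point
    have h1 : ∀ᶠ z in 𝓝[{z | z₁.re ≤ z.re}] z₁, ∀ e ∈ {e | e ∈ E},
        (Crosses z e ↔ Crosses z₁ e) :=
      (Filter.eventually_all_finite (List.finite_toSet E)).2 fun e he =>
        eventually_crosses (hz₁ e he)
    have h2' : ∀ᶠ z in 𝓝 z₁, ¬ Cov v m z := (isClosed_cov v m).isOpen_compl.mem_nhds hcov
    have h2 : ∀ᶠ z in 𝓝[{z | z₁.re ≤ z.re}] z₁, ¬ Cov v m z :=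
      h2'.filter_mono nhdsWithin_le_nhds
    obtain ⟨ε, hε, hball⟩ := Metric.mem_nhdsWithin_iff.1 (h1.and h2)
    have near : ∀ x y : ℝ, z₁.re ≤ x → x < z₁.re + ε / 2 → z₁.im ≤ y → y < z₁.im + ε / 2 →
        (∀ e ∈ E, (Crosses ⟨x, y⟩ e ↔ Crosses z₁ e)) ∧ ¬ Cov v m ⟨x, y⟩ := by
      intro x y hx1 hx2 hy1 hy2
      refine hball ⟨?_, hx1⟩
      rw [Metric.mem_ball]
      have hd := dist_sq (⟨x, y⟩ : ℂ) z₁
      simp only at hd
      by_contra hc
      push Not at hc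
      nlinarith
    obtain ⟨x₀, ⟨hx₀, hx₀'⟩, hx₀Ev⟩ :=
      ((Set.Ioo_infinite (show z₁.re < z₁.re + ε / 2 by linarith)).sdiff hEv.fin).nonempty
    -- an edge is crossed
    obtain ⟨e, he, hec⟩ : ∃ e ∈ E, Crosses z₁ e := by
      by_contra hcon
      push Not at hcon
      have h0 : crossings E z₁ = 0 := by
        classical
        unfold crossings
        rw [List.length_eq_zero_iff, List.filter_eq_nil_iff]
        intro a ha
        simpa using hcon a ha
      rw [h0] at hodd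
      simp at hodd
    obtain ⟨ha, hb⟩ := hEv.edge e he
    have hex := ((near x₀ z₁.im hx₀.le hx₀' le_rfl (by linarith)).1 e he).2 hec
    have hane : x₀ ≠ (e.1.1 : ℝ) := fun h' => hx₀Ev (h' ▸ ha)
    have hbne : x₀ ≠ (e.2.1 : ℝ) := fun h' => hx₀Ev (h' ▸ hb)
    have hlo : ({x ∈ Ev | x < x₀} : Set ℝ).Nonempty := by
      rcases hex.1 with ⟨h3, -⟩ | ⟨h3, -⟩
      · exact ⟨_, ha, lt_of_le_of_ne h3 hane.symm⟩
      · exact ⟨_, hb, lt_of_le_of_ne h3 hbne.symm⟩
    have hhi : ({x ∈ Ev | x₀ < x} : Set ℝ).Nonempty := by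
      rcases hex.1 with ⟨-, h3⟩ | ⟨-, h3⟩
      · exact ⟨_, hb, h3⟩
      · exact ⟨_, ha, h3⟩
    obtain ⟨α, ⟨hαE, hα⟩, hαmax⟩ := Set.exists_max_image {x ∈ Ev | x < x₀} id
      (hEv.fin.subset fun x hx => hx.1) hlo
    obtain ⟨β, ⟨hβE, hβ⟩, hβmin⟩ := Set.exists_min_image {x ∈ Ev | x₀ < x} id
      (hEv.fin.subset fun x hx => hx.1) hhi
    have hno : ∀ x ∈ Ioo α β, x ∉ Ev := by
      rintro x ⟨hx1, hx2⟩ hxE
      rcases lt_trichotomy x x₀ with h | h | h
      · exact absurd (hαmax x ⟨hxE, h⟩) (not_le.2 hx1)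
      · exact hx₀Ev (h ▸ hxE)
      · exact absurd (hβmin x ⟨hxE, h⟩) (not_le.2 hx2)
    have hB : ((fun g : ℝ → ℝ => g x₀) '' branches E v m α β).Finite :=
      (branches_finite E v m α β).image _
    obtain ⟨y₀, ⟨hy₀, hy₀'⟩, hy₀B⟩ :=
      ((Set.Ioo_infinite (show z₁.im < z₁.im + ε / 2 by linarith)).sdiff hB).nonempty
    obtain ⟨hcr, hnc⟩ := near x₀ y₀ hx₀.le hx₀' hy₀.le hy₀'
    have hαβ : α < β := hα.trans hβ
    have hec0 := (hcr e he).2 hec
    have hne : (e.1.1 : ℝ) ≠ e.2.1 := by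
      intro h'
      rcases hec0.1 with h3 | h3 <;> linarith
    obtain ⟨C, hC, hzC, hCoff, g, hg, u, hu, hsC⟩ := exists_cell hαβ (branches E v m α β)
      (branches_finite E v m α β) (fun g hg => (branches_cont g hg).continuousOn)
      (branches_ne hEv hno) (x₀ := x₀) (y₀ := y₀) ⟨hα, hβ⟩
      (fun g hg h' => hy₀B ⟨g, hg, h'⟩)
      ⟨lineFun (edgeLine e), Or.inl ⟨_, Or.inl ⟨e, he, rfl⟩, sub_ne_zero.2 hne.symm, rfl⟩, by
        rw [edge_height hne]; exact hec0.2⟩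
    -- nothing in the cell is covered
    have hCn : ∀ z ∈ C, ¬ Cov v m z := by
      rintro z hz ⟨i, hi, hw⟩
      rw [← infDist_le_one_iff] at hw
      have h0 : 1 ≤ Metric.infDist (⟨x₀, y₀⟩ : ℂ) (segment ℝ (v i) (v (i + 1))) := by
        by_contra hc
        push Not at hc
        exact hnc ⟨i, hi, infDist_le_one_iff.1 hc.le⟩
      obtain ⟨y, hy, hye⟩ := hC.intermediate_value₂ hz hzC
        (Metric.continuous_infDist_pt (segment ℝ (v i) (v (i + 1)))).continuousOn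
        continuousOn_const hw h0
      exact infDist_ne_one hEv hno (hCoff y hy).1 (hCoff y hy).2 hi hye
    -- the sample point
    obtain ⟨Y, hY1, hY2, hY3⟩ := H α hαE β hβE
    have hs : (α + β) / 2 ∈ Ioo α β := ⟨by linarith, by linarith⟩
    have hgY := branch_mem hs hY1 hY2
    have hgood := hY3 (g ((α + β) / 2)) (hgY g hg) u (by
      rcases hu with hu | ⟨h, hh, hu⟩
      · exact Or.inl hu
      · exact Or.inr (hu ▸ hgY h hh))
    refine hCn _ hsC (hgood ?_ ?_)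
    · intro e' he'
      by_cases hv : (e'.1.1 : ℝ) = e'.2.1
      · refine Or.inr ⟨hv, fun h' => hno _ hs ?_⟩
        simp only at h'
        rw [h']
        exact (hEv.edge e' he').1
      · refine Or.inl ⟨hv, fun h' => ?_⟩
        have hB' : (edgeLine e').2.1 ≠ 0 := sub_ne_zero.2 (Ne.symm hv)
        refine (hCoff _ hsC).2 _ (Or.inl ⟨_, Or.inl ⟨e', he', rfl⟩, hB', rfl⟩) ?_
        refine (onL_iff hB').1 ?_
        unfold OnL edgeLine
        simp only at h' ⊢
        linarith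
    · have : crossings E (⟨(α + β) / 2, (g ((α + β) / 2) + u) / 2⟩ : ℂ) = crossings E z₁ := by
        classical
        unfold crossings
        congr 1
        refine List.filter_congr fun e' he' => ?_
        rw [decide_eq_decide, ← hcr e' he']
        exact ⟨crosses_iff hEv hno hC hCoff hsC hzC he', crosses_iff hEv hno hC hCoff hzC hsC he'⟩
      rw [this]
      exact hodd
  exact fun z hz => (isClosed_cov v m).closure_subset_iff.2 hsub hz

end Pool.Agent.MP_3ba9a9_lc
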