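import Pool.Agent.MP_3ba9a9_lc.Cell

/-!
# Distance to a segment
-/

open Set Filter Topology

namespace Pool.Agent.MP_3ba9a9_lc

theorem segment_compact (a b : ℂ) : IsCompact (segment ℝ a b) := by
  rw [segment_eq_image]
  exact isCompact_Icc.image (by fun_prop)

theorem segment_nonempty' (a b : ℂ) : (segment ℝ a b).Nonempty := ⟨a, left_mem_segment ℝ a b⟩

theorem infDist_le_one_iff {a b z : ℂ} :
    Metric.infDist z (segment ℝ a b) ≤ 1 ↔ ∃ w ∈ segment ℝ a b, dist z w ≤ 1 := by
  constructor
  · intro h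
    obtain ⟨w, hw, he⟩ := (segment_compact a b).exists_infDist_eq_dist (segment_nonempty' a b) z
    exact ⟨w, hw, he ▸ h⟩
  · rintro ⟨w, hw, h⟩
    exact (Metric.infDist_le_dist_of_mem hw).trans h

theorem dist_sq (z w : ℂ) : dist z w ^ 2 = (z.re - w.re) ^ 2 + (z.im - w.im) ^ 2 := by
  rw [Complex.dist_eq, ← Complex.normSq_eq_norm_sq, Complex.normSq_apply]
  simp only [Complex.sub_re, Complex.sub_im]
  ring

theorem dist_le_one_iff (z w : ℂ) :
    dist z w ≤ 1 ↔ (z.re - w.re) ^ 2 + (z.im - w.im) ^ 2 ≤ 1 := by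
  rw [← dist_sq]
  constructor
  · intro h
    have := dist_nonneg (x := z) (y := w)
    nlinarith
  · intro h
    by_contra hc
    push Not at hc
    nlinarith

theorem dist_eq_one_iff (z w : ℂ) :
    dist z w = 1 ↔ (z.re - w.re) ^ 2 + (z.im - w.im) ^ 2 = 1 := by
  rw [← dist_sq]
  constructor
  · intro h
    rw [h]; norm_num
  · intro h
    have := dist_nonneg (x := z) (y := w)
    nlinarith [sq_nonneg (dist z w - 1)]

theorem on_curve {a b z : ℂ} (h : Metric.infDist z (segment ℝ a b) = 1) :
    dist z a = 1 ∨ dist z b = 1 ∨ ∃ σ : ℝ, (σ = 1 ∨ σ = -1) ∧ a ≠ b ∧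
      (b.re - a.re) * (z.im - a.im) - (b.im - a.im) * (z.re - a.re) = σ * dist a b := by
  by_cases hab : a = b
  · left
    subst hab
    rw [segment_same, Metric.infDist_singleton] at h
    exact h
  obtain ⟨w, hw, he⟩ := (segment_compact a b).exists_infDist_eq_dist (segment_nonempty' a b) z
  rw [h] at he
  have hmin : ∀ w' ∈ segment ℝ a b, 1 ≤ dist z w' := fun w' hw' =>
    h ▸ Metric.infDist_le_dist_of_mem hw'
  rw [segment_eq_image] at hw
  obtain ⟨t, ⟨ht0, ht1⟩, rfl⟩ := hw
  rcases ht0.eq_or_lt with h0 | h0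
  · left
    subst h0
    simpa using he.symm
  rcases ht1.eq_or_lt with h1 | h1
  · right; left
    subst h1
    simpa using he.symm
  right; right
  -- the foot is an interior minimum
  set ux := z.re - ((1 - t) * a.re + t * b.re) with hux
  set uy := z.im - ((1 - t) * a.im + t * b.im) with huy
  have hw1 : ux ^ 2 + uy ^ 2 = 1 := by
    have := (dist_eq_one_iff z ((fun θ : ℝ => (1 - θ) • a + θ • b) t)).1 he.symm
    simpa [hux, huy] using this
  have hq : ∀ s ∈ Icc (0 : ℝ) 1, 1 ≤ (z.re - ((1 - s) * a.re + s * b.re)) ^ 2 +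
      (z.im - ((1 - s) * a.im + s * b.im)) ^ 2 := by
    intro s hs
    have hm := hmin ((1 - s) • a + s • b) (by
      rw [segment_eq_image]; exact ⟨s, hs, rfl⟩)
    have e1 : ((1 - s) • a + s • b).re = (1 - s) * a.re + s * b.re := by simp
    have e2 : ((1 - s) • a + s • b).im = (1 - s) * a.im + s * b.im := by simp
    have := dist_sq z ((1 - s) • a + s • b)
    rw [e1, e2] at this
    rw [← this]
    nlinarith
  have horth : ux * (b.re - a.re) + uy * (b.im - a.im) = 0 := by
    set f : ℝ → ℝ := fun s => (z.re - ((1 - s) * a.re + s * b.re)) ^ 2 +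
      (z.im - ((1 - s) * a.im + s * b.im)) ^ 2 with hf
    have hloc : IsLocalMin f t := by
      have : Icc (0 : ℝ) 1 ∈ 𝓝 t := Icc_mem_nhds h0 h1
      refine Filter.mem_of_superset this fun s hs => ?_
      have e1 := hq s hs
      have e2 : f t = 1 := hw1
      change f t ≤ f s
      rw [e2]
      exact e1
    have h1' : HasDerivAt (fun s : ℝ => z.re - ((1 - s) * a.re + s * b.re))
        (-(b.re - a.re)) t := by
      have : HasDerivAt (fun s : ℝ => z.re - (a.re + s * (b.re - a.re)))
          (-(1 * (b.re - a.re))) t :=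
        (((hasDerivAt_id t).mul_const (b.re - a.re)).const_add a.re).const_sub z.re
      rw [one_mul] at this
      refine this.congr_of_eventuallyEq (Filter.Eventually.of_forall fun s => ?_)
      simp only
      ring
    have h2' : HasDerivAt (fun s : ℝ => z.im - ((1 - s) * a.im + s * b.im))
        (-(b.im - a.im)) t := by
      have : HasDerivAt (fun s : ℝ => z.im - (a.im + s * (b.im - a.im)))
          (-(1 * (b.im - a.im))) t :=
        (((hasDerivAt_id t).mul_const (b.im - a.im)).const_add a.im).const_sub z.im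
      rw [one_mul] at this
      refine this.congr_of_eventuallyEq (Filter.Eventually.of_forall fun s => ?_)
      simp only
      ring
    have hd := hloc.hasDerivAt_eq_zero ((h1'.pow 2).add (h2'.pow 2))
    simp only [Nat.cast_ofNat, Nat.add_one_sub_one, pow_one] at hd
    rw [← hux, ← huy] at hd
    linarith
  have hcross : (b.re - a.re) * (z.im - a.im) - (b.im - a.im) * (z.re - a.re) =
      (b.re - a.re) * uy - (b.im - a.im) * ux := by
    rw [hux, huy]; ring
  have hD : dist a b ^ 2 = (b.re - a.re) ^ 2 + (b.im - a.im) ^ 2 := by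
    rw [dist_sq]; ring
  have hsq : ((b.re - a.re) * uy - (b.im - a.im) * ux) ^ 2 = dist a b ^ 2 := by
    rw [hD]
    have : ((b.re - a.re) * uy - (b.im - a.im) * ux) ^ 2 =
        ((b.re - a.re) ^ 2 + (b.im - a.im) ^ 2) * (ux ^ 2 + uy ^ 2) -
          (ux * (b.re - a.re) + uy * (b.im - a.im)) ^ 2 := by ring
    rw [this, hw1, horth]
    ring
  rw [hcross]
  rcases abs_eq_abs.1 ((sq_eq_sq_iff_abs_eq_abs _ _).1 hsq) with h' | h'
  · exact ⟨1, Or.inl rfl, hab, by rw [h', one_mul]⟩
  · exact ⟨-1, Or.inr rfl, hab, by rw [h']; ring⟩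

end Pool.Agent.MP_3ba9a9_lc
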