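import Pool.Agent.MP_3ba9a9_lc.Dep
import Pool.Agent.MP_3ba9a9_lc.Sampling

/-!
# The meaning of the constraints
-/

open Set Filter Topology

namespace Pool.Agent.MP_3ba9a9_lc

open Instance

/-- The curve described by the values of the variables. -/
def vx (x : ℕ → ℝ) (i : ℕ) : ℂ := ⟨(px i).eval x, (py i).eval x⟩

@[simp] theorem vx_re (x : ℕ → ℝ) (i : ℕ) : (vx x i).re = (px i).eval x := rfl
@[simp] theorem vx_im (x : ℕ → ℝ) (i : ℕ) : (vx x i).im = (py i).eval x := rfl

/-- The first stages of the constraints hold. -/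
structure Rep (E : List Edge) (m : ℕ) (x : ℕ → ℝ) : Prop where
  half : hf.eval x = 1 / 2
  ec0 : ∀ j < E.length, (ec j 0).eval x = ((E.getD j e0).1.1 : ℝ)
  ec1 : ∀ j < E.length, (ec j 1).eval x = ((E.getD j e0).1.2 : ℝ)
  ec2 : ∀ j < E.length, (ec j 2).eval x = ((E.getD j e0).2.1 : ℝ)
  ec3 : ∀ j < E.length, (ec j 3).eval x = ((E.getD j e0).2.2 : ℝ)
  len : ∀ i < m, (len i).eval x = dist (vx x i) (vx x (i + 1))

theorem holds_isRat (x : ℕ → ℝ) (t : Term) (r : ℚ) :
    (isRat t r).Holds x ↔ t.eval x = (r : ℝ) := by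
  have hd : (r.den : ℝ) ≠ 0 := by
    have := r.den_nz
    exact_mod_cast this
  have hr : (r : ℝ) = r.num / r.den := by rw [← Rat.cast_def]
  simp only [isRat, Formula.Holds, Term.eval, Int.cast_natCast]
  rw [hr, eq_div_iff hd]
  constructor <;> intro h <;> linarith

theorem holds_F1 (x : ℕ → ℝ) : F1.Holds x ↔ hf.eval x = 1 / 2 := by
  simp only [F1, Formula.Holds, Term.eval, Int.cast_ofNat, Int.cast_one]
  constructor <;> intro h <;> linarith

theorem holds_F2 (x : ℕ → ℝ) (e : Edge) (j : ℕ) : (F2 e j).Holds x ↔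
    (ec j 0).eval x = (e.1.1 : ℝ) ∧ (ec j 1).eval x = (e.1.2 : ℝ) ∧
    (ec j 2).eval x = (e.2.1 : ℝ) ∧ (ec j 3).eval x = (e.2.2 : ℝ) := by
  simp [F2, holds_isRat]

theorem holds_F3 (x : ℕ → ℝ) (i : ℕ) : (F3 i).Holds x ↔
    (len i).eval x = dist (vx x i) (vx x (i + 1)) := by
  simp only [F3, Formula.Holds, Term.eval, eval_tsq, eval_tsub, Int.cast_zero]
  have h := dist_sq (vx x i) (vx x (i + 1))
  simp only [vx_re, vx_im] at h
  rw [← h]
  constructor
  · rintro ⟨h1, h2⟩
    exact (sq_eq_sq₀ h1 dist_nonneg).1 h2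
  · intro h1
    rw [h1]
    exact ⟨dist_nonneg, rfl⟩

theorem rep_of_holds {E : List Edge} {m : ℕ} {x : ℕ → ℝ} (h1 : F1.Holds x)
    (h2 : ∀ j < E.length, (F2 (E.getD j e0) j).Holds x) (h3 : ∀ i < m, (F3 i).Holds x) :
    Rep E m x where
  half := (holds_F1 x).1 h1
  ec0 j hj := ((holds_F2 x _ _).1 (h2 j hj)).1
  ec1 j hj := ((holds_F2 x _ _).1 (h2 j hj)).2.1
  ec2 j hj := ((holds_F2 x _ _).1 (h2 j hj)).2.2.1
  ec3 j hj := ((holds_F2 x _ _).1 (h2 j hj)).2.2.2
  len i hi := (holds_F3 x i).1 (h3 i hi)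

theorem eval_px_congr {x y : ℕ → ℝ} (h : ∀ n, stg n < 4 → y n = x n) (i : ℕ) :
    vx y i = vx x i := by
  have h1 : (px i).eval y = (px i).eval x := h _ (by simp)
  have h2 : (py i).eval y = (py i).eval x := h _ (by simp)
  simp only [vx, h1, h2]

theorem Rep.congr {E : List Edge} {m : ℕ} {x y : ℕ → ℝ} (h : ∀ n, stg n < 4 → y n = x n)
    (hr : Rep E m x) : Rep E m y where
  half := (h _ (by simp)).trans hr.half
  ec0 j hj := (h _ (by simp)).trans (hr.ec0 j hj)
  ec1 j hj := (h _ (by simp)).trans (hr.ec1 j hj)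
  ec2 j hj := (h _ (by simp)).trans (hr.ec2 j hj)
  ec3 j hj := (h _ (by simp)).trans (hr.ec3 j hj)
  len i hi := by
    rw [eval_px_congr h, eval_px_congr h]
    exact (h _ (by simp)).trans (hr.len i hi)

/-! ## Sums -/

theorem eval_foldl_add (x : ℕ → ℝ) (l : List Term) : ∀ acc : Term,
    (l.foldl (fun acc t => Term.add t acc) acc).eval x =
      acc.eval x + (l.map fun t => t.eval x).sum := by
  induction l with
  | nil => intro acc; simp
  | cons a l ih =>
    intro acc
    rw [List.foldl_cons, ih]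
    simp only [Term.eval, List.map_cons, List.sum_cons]
    ring

theorem eval_tsum (x : ℕ → ℝ) (l : List Term) :
    (tsum l).eval x = (l.map fun t => t.eval x).sum := by
  rw [tsum, eval_foldl_add]
  simp [Term.eval]

theorem sum_range_list (f : ℕ → ℝ) (m : ℕ) :
    ((List.range m).map f).sum = ∑ i ∈ Finset.range m, f i := by
  induction m with
  | zero => simp
  | succ m ih =>
    rw [List.range_succ, List.map_append, List.sum_append, ih, Finset.sum_range_succ]
    simp

theorem holds_FL {x : ℕ → ℝ} {m : ℕ} (h : ∀ i < m, (len i).eval x = dist (vx x i) (vx x (i + 1)))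
    (k : ℤ) : (FL k m).Holds x ↔
      ∑ i ∈ Finset.range m, dist (vx x i) (vx x (i + 1)) ≤ (k : ℝ) := by
  have : (tsum ((List.range m).map fun i => len i)).eval x =
      ∑ i ∈ Finset.range m, dist (vx x i) (vx x (i + 1)) := by
    rw [eval_tsum, List.map_map, sum_range_list]
    exact Finset.sum_congr rfl fun i hi => h i (Finset.mem_range.1 hi)
  simp only [FL, Formula.Holds, this, Term.eval]

/-! ## Lines -/

section
variable {E : List Edge} {m : ℕ} {x : ℕ → ℝ}

theorem exists_getD {e : Edge} (he : e ∈ E) : ∃ j < E.length, E.getD j e0 = e := by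
  obtain ⟨j, hj, rfl⟩ := List.getElem_of_mem he
  exact ⟨j, hj, by simp [List.getD_eq_getElem?_getD, hj]⟩

theorem getD_mem {j : ℕ} (hj : j < E.length) : E.getD j e0 ∈ E := by
  rw [List.getD_eq_getElem?_getD, List.getElem?_eq_getElem hj]
  exact List.getElem_mem hj

theorem eval_edgeL (hr : Rep E m x) {j : ℕ} (hj : j < E.length) :
    (edgeL j).eval x = edgeLine (E.getD j e0) := by
  simp only [T3.eval, edgeL, edgeLine, eval_tsub, Term.eval, hr.ec0 j hj, hr.ec1 j hj,
    hr.ec2 j hj, hr.ec3 j hj, neg_sub]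

theorem eval_offL (hr : Rep E m x) {i : ℕ} (hi : i < m) (σ : ℤ) :
    (offL i σ).eval x = offLine (vx x i) (vx x (i + 1)) (σ : ℝ) := by
  simp only [T3.eval, offL, offLine, eval_tsub, Term.eval, hr.len i hi, vx_re, vx_im, neg_sub]

theorem lines_sub (hr : Rep E m x) {L : ℝ × ℝ × ℝ} (hL : L ∈ lines E (vx x) m) :
    ∃ A ∈ LTs E.length m, T3.eval x A = L := by
  rcases hL with ⟨e, he, rfl⟩ | ⟨i, hi, σ, rfl | rfl, rfl⟩
  · obtain ⟨j, hj, rfl⟩ := exists_getD he
    refine ⟨edgeL j, ?_, eval_edgeL hr hj⟩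
    simp only [LTs, List.mem_append, List.mem_map, List.mem_range]
    exact Or.inl ⟨j, hj, rfl⟩
  · refine ⟨offL i 1, ?_, by rw [eval_offL hr hi]; norm_num⟩
    simp only [LTs, List.mem_append, List.mem_flatMap, List.mem_range, List.mem_cons]
    exact Or.inr (Or.inl ⟨i, hi, Or.inl rfl⟩)
  · refine ⟨offL i (-1), ?_, by rw [eval_offL hr hi]; norm_num⟩
    simp only [LTs, List.mem_append, List.mem_flatMap, List.mem_range, List.mem_cons]
    exact Or.inr (Or.inl ⟨i, hi, Or.inr (Or.inl rfl)⟩)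

theorem radL_mem {i j n : ℕ} (hi : i ≤ m) (hj : j ≤ m) : radL i j ∈ LTs n m := by
  simp only [LTs, List.mem_append, List.mem_flatMap, List.mem_range, List.mem_map]
  exact Or.inr (Or.inr ⟨i, by omega, j, by omega, rfl⟩)

theorem getD3_of_mem {l : List T3} {A : T3} (h : A ∈ l) :
    ∃ a < l.length, l.getD a (.const 0, .const 0, .const 0) = A := by
  obtain ⟨j, hj, rfl⟩ := List.getElem_of_mem h
  exact ⟨j, hj, by simp [List.getD_eq_getElem?_getD, hj]⟩

theorem getD_of_mem {l : List Term} {t : Term} (h : t ∈ l) :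
    ∃ a < l.length, l.getD a (.const 0) = t := by
  obtain ⟨j, hj, rfl⟩ := List.getElem_of_mem h
  exact ⟨j, hj, by simp [List.getD_eq_getElem?_getD, hj]⟩

/-- Roots of the event polynomials are events. -/
theorem event_of_root {n : ℕ} (h4 : ∀ a < (EPs n m).length, (F4 n m a).Holds x) {A : T3}
    (hA : A ∈ EPs n m) (hne : A.1.eval x ≠ 0 ∨ A.2.1.eval x ≠ 0) {r : ℝ}
    (hr : A.1.eval x * r ^ 2 + A.2.1.eval x * r + A.2.2.eval x = 0) :
    ∃ t ∈ Evs n m, t.eval x = r := by
  obtain ⟨a, ha, rfl⟩ := getD3_of_mem hA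
  have hR := (holds_roots x _ _ _).1 (h4 a ha)
  rcases hR.mem hne hr with h | h
  · refine ⟨V 4 a 0, ?_, h.symm⟩
    simp only [Evs, List.mem_append, List.mem_flatMap, List.mem_range, List.mem_cons]
    exact Or.inl ⟨a, ha, Or.inl rfl⟩
  · refine ⟨V 4 a 1, ?_, h.symm⟩
    simp only [Evs, List.mem_append, List.mem_flatMap, List.mem_range, List.mem_cons]
    exact Or.inl ⟨a, ha, Or.inr (Or.inl rfl)⟩

theorem line_circle {A B C p q r y : ℝ} (h1 : A * r + B * y + C = 0)
    (h2 : (r - p) ^ 2 + (y - q) ^ 2 = 1) :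
    (A ^ 2 + B ^ 2) * r ^ 2 + (2 * (A * (C + B * q)) - 2 * (B ^ 2 * p)) * r +
      (B ^ 2 * p ^ 2 + ((C + B * q) ^ 2 - B ^ 2)) = 0 := by
  have e1 : B * (y - q) = -(A * r + (C + B * q)) := by linarith
  have e2 : B ^ 2 * (r - p) ^ 2 + (B * (y - q)) ^ 2 = B ^ 2 := by
    have : B ^ 2 * (r - p) ^ 2 + (B * (y - q)) ^ 2 = B ^ 2 * ((r - p) ^ 2 + (y - q) ^ 2) := by
      ring
    rw [this, h2, mul_one]
  rw [e1] at e2
  linarith

theorem lc_event {n : ℕ} (h4 : ∀ a < (EPs n m).length, (F4 n m a).Holds x) {A : T3}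
    (hA : A ∈ LTs n m) (hne : A.1.eval x ≠ 0 ∨ A.2.1.eval x ≠ 0) {i : ℕ} (hi : i ≤ m) {r y : ℝ}
    (h1 : OnL (A.eval x) r y) (h2 : OnC (vx x i) r y) : ∃ t ∈ Evs n m, t.eval x = r := by
  have hmem : lcP A i ∈ EPs n m := by
    simp only [EPs, List.mem_append, List.mem_flatMap, List.mem_map, List.mem_range]
    exact Or.inr ⟨A, hA, i, by omega, rfl⟩
  refine event_of_root h4 hmem ?_ ?_
  · left
    simp only [lcP, Term.eval, eval_tsq]
    rcases hne with h | h
    · have := pow_pos (abs_pos.2 h) 2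
      rw [sq_abs] at this
      positivity
    · have := pow_pos (abs_pos.2 h) 2
      rw [sq_abs] at this
      positivity
  · have := line_circle h1 h2
    simp only [lcP, Term.eval, eval_tsq, eval_tsub, Int.cast_ofNat]
    exact this

theorem events {E : List Edge} {m : ℕ} {x : ℕ → ℝ} (hr : Rep E m x)
    (h4 : ∀ a < (EPs E.length m).length, (F4 E.length m a).Holds x) :
    Events E (vx x) m {r | ∃ t ∈ Evs E.length m, t.eval x = r} where
  fin := by
    have : {r | ∃ t ∈ Evs E.length m, t.eval x = r} =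
        (fun t : Term => t.eval x) '' {t | t ∈ Evs E.length m} := rfl
    rw [this]
    exact (List.finite_toSet _).image _
  edge e he := by
    obtain ⟨j, hj, rfl⟩ := exists_getD he
    refine ⟨⟨ec j 0, ?_, hr.ec0 j hj⟩, ⟨ec j 2, ?_, hr.ec2 j hj⟩⟩
    · simp only [Evs, List.mem_append, List.mem_flatMap, List.mem_range, List.mem_cons]
      exact Or.inr (Or.inl ⟨j, hj, Or.inl rfl⟩)
    · simp only [Evs, List.mem_append, List.mem_flatMap, List.mem_range, List.mem_cons]
      exact Or.inr (Or.inl ⟨j, hj, Or.inr (Or.inl rfl)⟩)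
  tan i hi := by
    refine ⟨⟨.add (px i) (.const 1), ?_, by simp [Term.eval]⟩,
      ⟨tsub (px i) (.const 1), ?_, by simp [Term.eval]⟩⟩
    · simp only [Evs, List.mem_append, List.mem_flatMap, List.mem_range, List.mem_cons]
      exact Or.inr (Or.inr ⟨i, by omega, Or.inl rfl⟩)
    · simp only [Evs, List.mem_append, List.mem_flatMap, List.mem_range, List.mem_cons]
      exact Or.inr (Or.inr ⟨i, by omega, Or.inr (Or.inl rfl)⟩)
  ll L hL L' hL' hne r y h1 h2 := by
    obtain ⟨A, hA, rfl⟩ := lines_sub hr hL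
    obtain ⟨B, hB, rfl⟩ := lines_sub hr hL'
    have hmem : llP A B ∈ EPs E.length m := by
      simp only [EPs, List.mem_append, List.mem_flatMap, List.mem_map]
      exact Or.inl ⟨A, hA, B, hB, rfl⟩
    refine event_of_root h4 hmem ?_ ?_
    · right
      simp only [llP, Term.eval, eval_tsub]
      exact hne
    · simp only [OnL, T3.eval] at h1 h2
      simp only [llP, Term.eval, eval_tsub, Int.cast_zero]
      linear_combination B.2.1.eval x * h1 - A.2.1.eval x * h2
  lc L hL hne i hi r y h1 h2 := by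
    obtain ⟨A, hA, rfl⟩ := lines_sub hr hL
    exact lc_event h4 hA (Or.inr hne) hi h1 h2
  cc i hi j hj hne r y h1 h2 := by
    refine lc_event h4 (radL_mem hi hj) ?_ hi (r := r) (y := y) ?_ h1
    · simp only [radL, Term.eval, eval_tsub, Int.cast_ofNat]
      by_contra hcon
      push Not at hcon
      apply hne
      refine Complex.ext ?_ ?_
      · simp only [vx_re]; linarith [hcon.1]
      · simp only [vx_im]; linarith [hcon.2]
    · simp only [OnC, vx_re, vx_im] at h1 h2
      simp only [OnL, T3.eval, radL, Term.eval, eval_tsub, eval_tsq, Int.cast_ofNat]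
      linarith

/-! ## Ordinates -/

/-- The ordinates of the points of the curves above a sample abscissa. -/
theorem ord_of_root {n a b : ℕ} (h5 : ∀ c < NY n m, (F5 n m a b c).Holds x) {A : T3}
    (hA : A ∈ YPs n m (sx n m a b)) (hne : A.1.eval x ≠ 0 ∨ A.2.1.eval x ≠ 0) {r : ℝ}
    (hr : A.1.eval x * r ^ 2 + A.2.1.eval x * r + A.2.2.eval x = 0) :
    ∃ t ∈ Ys n m (Nat.pair a b), t.eval x = r := by
  obtain ⟨c, hc, rfl⟩ := getD3_of_mem hA
  have hc' : c < NY n m := by
    have : (YPs n m (sx n m a b)).length = NY n m := by simp [YPs, NY]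
    omega
  have hR := (holds_roots x _ _ _).1 (h5 c hc')
  rcases hR.mem hne hr with h | h
  · refine ⟨V 5 (Nat.pair (Nat.pair a b) c) 0, ?_, h.symm⟩
    simp only [Ys, List.mem_flatMap, List.mem_range, List.mem_cons]
    exact ⟨c, hc', Or.inl rfl⟩
  · refine ⟨V 5 (Nat.pair (Nat.pair a b) c) 1, ?_, h.symm⟩
    simp only [Ys, List.mem_flatMap, List.mem_range, List.mem_cons]
    exact ⟨c, hc', Or.inr (Or.inl rfl)⟩

theorem ord_line (hr : Rep E m x) {a b : ℕ}
    (h5 : ∀ c < NY E.length m, (F5 E.length m a b c).Holds x) {L : ℝ × ℝ × ℝ}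
    (hL : L ∈ lines E (vx x) m) (hne : L.2.1 ≠ 0) {y : ℝ}
    (hy : OnL L ((sx E.length m a b).eval x) y) :
    ∃ t ∈ Ys E.length m (Nat.pair a b), t.eval x = y := by
  obtain ⟨A, hA, rfl⟩ := lines_sub hr hL
  have hmem : ((.const 0, A.2.1, .add (.mul A.1 (sx E.length m a b)) A.2.2) : T3) ∈
      YPs E.length m (sx E.length m a b) := by
    simp only [YPs, List.mem_append, List.mem_map]
    exact Or.inl ⟨A, hA, rfl⟩
  refine ord_of_root h5 hmem (Or.inr hne) ?_
  simp only [OnL, T3.eval] at hy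
  simp only [Term.eval, Int.cast_zero]
  linarith

theorem ord_circle {a b : ℕ}
    (h5 : ∀ c < NY E.length m, (F5 E.length m a b c).Holds x) {i : ℕ} (hi : i ≤ m) {y : ℝ}
    (hy : OnC (vx x i) ((sx E.length m a b).eval x) y) :
    ∃ t ∈ Ys E.length m (Nat.pair a b), t.eval x = y := by
  have hmem : ((.const 1, .mul (.const (-2)) (py i),
      tsub (.add (tsq (tsub (sx E.length m a b) (px i))) (tsq (py i))) (.const 1)) : T3) ∈
      YPs E.length m (sx E.length m a b) := by
    simp only [YPs, List.mem_append, List.mem_map, List.mem_range]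
    exact Or.inr ⟨i, by omega, rfl⟩
  refine ord_of_root h5 hmem (Or.inl (by simp [Term.eval])) ?_
  simp only [OnC, vx_re, vx_im] at hy
  simp only [Term.eval, eval_tsub, eval_tsq, Int.cast_one, Int.cast_neg, Int.cast_ofNat]
  linarith

/-! ## Sample points -/

theorem holds_offF (hr : Rep E m x) (X Y : Term) {j : ℕ} (hj : j < E.length) :
    (offF X Y j).Holds x ↔ OffLine ⟨X.eval x, Y.eval x⟩ (E.getD j e0) := by
  simp only [offF, Formula.Holds, Term.eval, eval_tsub, OffLine, hr.ec0 j hj, hr.ec1 j hj,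
    hr.ec2 j hj, hr.ec3 j hj]

theorem holds_crossF (hr : Rep E m x) (X Y : Term) {j : ℕ} (hj : j < E.length) :
    (crossF X Y j).Holds x ↔ Crosses ⟨X.eval x, Y.eval x⟩ (E.getD j e0) := by
  simp only [crossF, Formula.Holds, Term.eval, eval_tsub, Crosses, hr.ec0 j hj, hr.ec1 j hj,
    hr.ec2 j hj, hr.ec3 j hj]
  generalize ((E.getD j e0).1.1 : ℝ) = a
  generalize ((E.getD j e0).1.2 : ℝ) = b
  generalize ((E.getD j e0).2.1 : ℝ) = c
  generalize ((E.getD j e0).2.2 : ℝ) = d
  generalize X.eval x = u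
  generalize Y.eval x = w
  constructor
  · rintro (⟨h1, h2, h3⟩ | ⟨h1, h2, h3⟩)
    · refine ⟨Or.inl ⟨h1, h2⟩, ?_⟩
      have hp : 0 < c - a := by linarith
      have : w - b < (d - b) * (u - a) / (c - a) := by
        rw [lt_div_iff₀ hp]; linarith
      linarith
    · refine ⟨Or.inr ⟨h1, h2⟩, ?_⟩
      have hp : 0 < a - c := by linarith
      have : w - b < (d - b) * (u - a) / (c - a) := by
        have e : (d - b) * (u - a) / (c - a) = -((d - b) * (u - a)) / (a - c) := by
          have h4 : c - a ≠ 0 := by intro h; linarith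
          have h5 : a - c ≠ 0 := hp.ne'
          rw [div_eq_div_iff h4 h5]
          ring
        rw [e, lt_div_iff₀ hp]; linarith
      linarith
  · rintro ⟨⟨h1, h2⟩ | ⟨h1, h2⟩, h3⟩
    · refine Or.inl ⟨h1, h2, ?_⟩
      have hp : 0 < c - a := by linarith
      have : w - b < (d - b) * (u - a) / (c - a) := by linarith
      rw [lt_div_iff₀ hp] at this
      linarith
    · refine Or.inr ⟨h1, h2, ?_⟩
      have hp : 0 < a - c := by linarith
      have : w - b < (d - b) * (u - a) / (c - a) := by linarith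
      have e : (d - b) * (u - a) / (c - a) = -((d - b) * (u - a)) / (a - c) := by
        have h4 : c - a ≠ 0 := by intro h; linarith
        have h5 : a - c ≠ 0 := hp.ne'
        rw [div_eq_div_iff h4 h5]
        ring
      rw [e, lt_div_iff₀ hp] at this
      linarith

theorem crossings_succ (z : ℂ) {j : ℕ} (hj : j < E.length) : crossings (E.take (j + 1)) z =
    crossings (E.take j) z + (open Classical in if Crosses z (E.getD j e0) then 1 else 0) := by
  classical
  have h1 : E.take (j + 1) = E.take j ++ [E.getD j e0] := by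
    rw [List.take_add_one, List.getElem?_eq_getElem hj, List.getD_eq_getElem?_getD,
      List.getElem?_eq_getElem hj]
    rfl
  unfold crossings
  rw [h1, List.filter_append, List.length_append]
  congr 1
  by_cases h : Crosses z (E.getD j e0) <;> simp only [List.filter_cons, List.filter_nil, h,
    decide_true, decide_false, if_true, if_false] <;> simp

open Classical in
/-- The parity of the number of crossed edges among the first `j` edges. -/
noncomputable def par (E : List Edge) (z : ℂ) (j : ℕ) : ℝ :=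
  if Odd (crossings (E.take j) z) then 1 else 0

theorem par_zero (z : ℂ) : par E z 0 = 0 := by
  unfold par
  rw [if_neg]
  simp [crossings]

theorem par_step (z : ℂ) {j : ℕ} (hj : j < E.length) :
    (Crosses z (E.getD j e0) ∧ par E z (j + 1) = 1 - par E z j) ∨
      (¬ Crosses z (E.getD j e0) ∧ par E z (j + 1) = par E z j) := by
  classical
  have h := crossings_succ z hj
  unfold par
  by_cases hc : Crosses z (E.getD j e0)
  · left
    refine ⟨hc, ?_⟩
    rw [if_pos hc] at h
    rw [h]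
    by_cases ho : Odd (crossings (E.take j) z)
    · have h' : ¬ Odd (crossings (E.take j) z + 1) := by
        rw [Nat.odd_add_one]
        exact not_not.2 ho
      rw [if_neg h', if_pos ho]
      norm_num
    · have h' : Odd (crossings (E.take j) z + 1) := by
        rw [Nat.odd_add_one]
        exact ho
      rw [if_pos h', if_neg ho]
      norm_num
  · right
    refine ⟨hc, ?_⟩
    rw [if_neg hc] at h
    rw [h, Nat.add_zero]

theorem par_unique (z : ℂ) (t : ℕ → ℝ) (h0 : t 0 = 0)
    (hs : ∀ j < E.length, (Crosses z (E.getD j e0) ∧ t (j + 1) = 1 - t j) ∨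
      (¬ Crosses z (E.getD j e0) ∧ t (j + 1) = t j)) : ∀ j ≤ E.length, t j = par E z j := by
  intro j
  induction j with
  | zero => intro _; rw [h0, par_zero]
  | succ j ih =>
    intro hj
    have h1 := ih (by omega)
    rcases hs j (by omega) with ⟨h2, h3⟩ | ⟨h2, h3⟩ <;>
      rcases par_step z (E := E) (j := j) (by omega) with ⟨h4, h5⟩ | ⟨h4, h5⟩
    · rw [h3, h5, h1]
    · exact absurd h2 h4
    · exact absurd h4 h2
    · rw [h3, h5, h1]

/-- The meaning of the coverage condition. -/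
theorem holds_covF (X Y : Term) (w i : ℕ) : (covF X Y w i).Holds x ↔
    0 ≤ x (vr 6 w (2 * i + 1)) ∧ x (vr 6 w (2 * i + 1)) ≤ 1 ∧
    dist (⟨X.eval x, Y.eval x⟩ : ℂ) ((1 - x (vr 6 w (2 * i + 1))) • vx x i +
      x (vr 6 w (2 * i + 1)) • vx x (i + 1)) ≤ 1 := by
  rw [dist_le_one_iff]
  simp only [covF, mid, Formula.Holds, Term.eval, eval_tsub, eval_tsq, V, Int.cast_zero,
    Int.cast_one, Complex.add_re, Complex.add_im, Complex.real_smul, Complex.mul_re,
    Complex.mul_im, Complex.ofReal_re, Complex.ofReal_im, vx_re, vx_im, zero_mul, sub_zero,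
    add_zero]

/-- Soundness of the condition at a sample point. -/
theorem good_of_holds (hr : Rep E m x) {X Y : Term} {w : ℕ}
    (h : (goodF E.length m X Y w).Holds x) : Good E (vx x) m ⟨X.eval x, Y.eval x⟩ := by
  obtain ⟨h0, hs, hg⟩ := h
  intro hoff hodd
  rw [holds_bigAnd] at hs
  have hs' : ∀ j < E.length, (Crosses ⟨X.eval x, Y.eval x⟩ (E.getD j e0) ∧
      x (vr 6 w (2 * (j + 1))) = 1 - x (vr 6 w (2 * j))) ∨
      (¬ Crosses ⟨X.eval x, Y.eval x⟩ (E.getD j e0) ∧
        x (vr 6 w (2 * (j + 1))) = x (vr 6 w (2 * j))) := by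
    intro j hj
    have := hs (stepF X Y w j) (List.mem_map.2 ⟨j, List.mem_range.2 hj, rfl⟩)
    rcases this with ⟨h1, h2⟩ | ⟨h1, h2⟩
    · refine Or.inl ⟨(holds_crossF hr X Y hj).1 h1, ?_⟩
      simpa [Formula.Holds, Term.eval, V] using h2
    · refine Or.inr ⟨fun hc => h1 ((holds_crossF hr X Y hj).2 hc), ?_⟩
      simpa [Formula.Holds, Term.eval, V] using h2
  have h0' : x (vr 6 w (2 * 0)) = 0 := by
    simpa [Formula.Holds, Term.eval, V] using h0
  have hpar := par_unique ⟨X.eval x, Y.eval x⟩ (fun j => x (vr 6 w (2 * j))) h0' hs' E.length le_rfl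
  rcases hg with hg | hg | hg
  · exfalso
    apply hg
    rw [holds_bigAnd]
    intro φ hφ
    obtain ⟨j, hj, rfl⟩ := List.mem_map.1 hφ
    have hj' := List.mem_range.1 hj
    exact (holds_offF hr X Y hj').2 (hoff _ (getD_mem hj'))
  · exfalso
    have h1 : x (vr 6 w (2 * E.length)) = 0 := by
      simpa [Formula.Holds, Term.eval, V] using hg
    simp only [h1] at hpar
    unfold par at hpar
    rw [List.take_length, if_pos hodd] at hpar
    norm_num at hpar
  · rw [holds_bigOr] at hg
    obtain ⟨φ, hφ, hh⟩ := hg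
    obtain ⟨i, hi, rfl⟩ := List.mem_map.1 hφ
    obtain ⟨h1, h2, h3⟩ := (holds_covF X Y w i).1 hh
    refine ⟨i, List.mem_range.1 hi, _, ?_, h3⟩
    rw [segment_eq_image]
    exact ⟨_, ⟨h1, h2⟩, rfl⟩

/-- A point off the line through an edge is not on the edge. -/
theorem not_mem_of_offLine {z : ℂ} {e : Edge} (h : OffLine z e) :
    z ∉ segment ℝ (toC e.1) (toC e.2) := by
  intro hz
  rw [segment_eq_image] at hz
  obtain ⟨t, -, rfl⟩ := hz
  rcases h with ⟨-, h⟩ | ⟨h1, h⟩
  · apply h
    simp only [toC, Complex.add_re, Complex.add_im, Complex.real_smul, Complex.mul_re,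
      Complex.mul_im, Complex.ofReal_re, Complex.ofReal_im, zero_mul, sub_zero, add_zero]
    ring
  · apply h
    simp only [toC, Complex.add_re, Complex.real_smul, Complex.mul_re,
      Complex.ofReal_re, Complex.ofReal_im, zero_mul, sub_zero]
    rw [← h1]
    ring

/-- Completeness of the condition at a sample point. -/
theorem exists_good (hr : Rep E m x) {X Y : Term} {w : ℕ} (hX : X.On fun k => stg k < 6)
    (hY : Y.On fun k => stg k < 6) (hg : Good E (vx x) m ⟨X.eval x, Y.eval x⟩) :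
    ∃ f, (goodF E.length m X Y w).Holds (fill x 6 w f) := by
  classical
  set z : ℂ := ⟨X.eval x, Y.eval x⟩ with hz
  obtain ⟨lam, hlam⟩ : ∃ lam : ℕ → ℝ, ((∀ e ∈ E, OffLine z e) → Odd (crossings E z) →
      ∃ i < m, 0 ≤ lam i ∧ lam i ≤ 1 ∧
        dist z ((1 - lam i) • vx x i + lam i • vx x (i + 1)) ≤ 1) := by
    by_cases h : (∀ e ∈ E, OffLine z e) ∧ Odd (crossings E z)
    · obtain ⟨i, hi, u, hu, hd⟩ := hg h.1 h.2
      rw [segment_eq_image] at hu
      obtain ⟨t, ⟨ht0, ht1⟩, rfl⟩ := hu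
      exact ⟨fun _ => t, fun _ _ => ⟨i, hi, ht0, ht1, hd⟩⟩
    · exact ⟨fun _ => 0, fun h1 h2 => absurd ⟨h1, h2⟩ h⟩
  set f : ℕ → ℝ := fun k => if k % 2 = 0 then par E z (k / 2) else lam (k / 2) with hf
  refine ⟨f, ?_⟩
  set y := fill x 6 w f with hy
  have hyx : ∀ n, stg n < 4 → y n = x n := fun n hn => fill_lt x f (by omega)
  have hry : Rep E m y := hr.congr hyx
  have hXy : X.eval y = X.eval x := eval_fill x f hX
  have hYy : Y.eval y = Y.eval x := eval_fill x f hY
  have hvy : ∀ i, vx y i = vx x i := eval_px_congr hyx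
  have heven : ∀ j, y (vr 6 w (2 * j)) = par E z j := by
    intro j
    rw [hy, fill_own, hf]
    simp
  have hodd' : ∀ j, y (vr 6 w (2 * j + 1)) = lam j := by
    intro j
    rw [hy, fill_own, hf]
    have h1 : (2 * j + 1) % 2 ≠ 0 := by omega
    have h2 : (2 * j + 1) / 2 = j := by omega
    simp only [if_neg h1, h2]
  refine ⟨?_, ?_, ?_⟩
  · have := heven 0
    rw [par_zero] at this
    simpa [Formula.Holds, Term.eval, V] using this
  · rw [holds_bigAnd]
    intro φ hφ
    obtain ⟨j, hj, rfl⟩ := List.mem_map.1 hφ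
    have hj' := List.mem_range.1 hj
    have hc := holds_crossF hry X Y hj'
    rw [hXy, hYy] at hc
    rcases par_step z hj' with ⟨h1, h2⟩ | ⟨h1, h2⟩
    · refine Or.inl ⟨hc.2 h1, ?_⟩
      have e1 := heven (j + 1)
      have e2 := heven j
      simp only [Formula.Holds, Term.eval, V, eval_tsub, Int.cast_one, e1, e2, h2]
    · refine Or.inr ⟨fun h => h1 (hc.1 h), ?_⟩
      have e1 := heven (j + 1)
      have e2 := heven j
      simp only [Formula.Holds, Term.eval, V, e1, e2, h2]
  · by_cases hoff : ∀ e ∈ E, OffLine z e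
    · right
      by_cases ho : Odd (crossings E z)
      · right
        obtain ⟨i, hi, h1, h2, h3⟩ := hlam hoff ho
        rw [holds_bigOr]
        refine ⟨covF X Y w i, List.mem_map.2 ⟨i, List.mem_range.2 hi, rfl⟩, ?_⟩
        rw [holds_covF, hodd' i, hXy, hYy, hvy, hvy]
        exact ⟨h1, h2, h3⟩
      · left
        have := heven E.length
        unfold par at this
        rw [List.take_length, if_neg ho] at this
        simpa [Formula.Holds, Term.eval, V] using this
    · left
      intro hcon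
      rw [holds_bigAnd] at hcon
      apply hoff
      intro e he
      obtain ⟨j, hj, rfl⟩ := exists_getD he
      have := hcon _ (List.mem_map.2 ⟨j, List.mem_range.2 hj, rfl⟩)
      have h2 := (holds_offF hry X Y hj).1 this
      rwa [hXy, hYy] at h2

end

end Pool.Agent.MP_3ba9a9_lc
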