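import Pool.Agent.MP_3ba9a9_lc.Defs

/-!
# Existential formulas whose variables are introduced in stages
-/

namespace Pool.Agent.MP_3ba9a9_lc

/-! ## Variables -/

/-- The `j`-th variable of the block `w` of stage `T`. -/
def vr (T w j : ℕ) : ℕ := Nat.pair T (Nat.pair w j)

/-- The stage of a variable. -/
def stg (n : ℕ) : ℕ := n.unpair.1

/-- The block of a variable. -/
def blk (n : ℕ) : ℕ := n.unpair.2.unpair.1

/-- The position of a variable in its block. -/
def pos (n : ℕ) : ℕ := n.unpair.2.unpair.2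

@[simp] theorem stg_vr (T w j : ℕ) : stg (vr T w j) = T := by simp [stg, vr]
@[simp] theorem blk_vr (T w j : ℕ) : blk (vr T w j) = w := by simp [blk, vr]
@[simp] theorem pos_vr (T w j : ℕ) : pos (vr T w j) = j := by simp [pos, vr]

/-- All variables of a polynomial expression satisfy `P`. -/
def Term.On (P : ℕ → Prop) : Term → Prop
  | .var n => P n
  | .const _ => True
  | .add s t => s.On P ∧ t.On P
  | .mul s t => s.On P ∧ t.On P

/-- All variables of a formula satisfy `P`. -/
def Formula.On (P : ℕ → Prop) : Formula → Prop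
  | .eq s t => s.On P ∧ t.On P
  | .le s t => s.On P ∧ t.On P
  | .lt s t => s.On P ∧ t.On P
  | .not φ => φ.On P
  | .and φ ψ => φ.On P ∧ ψ.On P
  | .or φ ψ => φ.On P ∧ ψ.On P

theorem Term.eval_congr {P : ℕ → Prop} {x y : ℕ → ℝ} (h : ∀ n, P n → x n = y n) :
    ∀ t : Term, t.On P → t.eval x = t.eval y
  | .var n, ht => h n ht
  | .const _, _ => rfl
  | .add s t, ht => by
    simp only [Term.eval, s.eval_congr h ht.1, t.eval_congr h ht.2]
  | .mul s t, ht => by
    simp only [Term.eval, s.eval_congr h ht.1, t.eval_congr h ht.2]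

theorem Formula.holds_congr {P : ℕ → Prop} {x y : ℕ → ℝ} (h : ∀ n, P n → x n = y n) :
    ∀ φ : Formula, φ.On P → (φ.Holds x ↔ φ.Holds y)
  | .eq s t, ht => by simp only [Formula.Holds, s.eval_congr h ht.1, t.eval_congr h ht.2]
  | .le s t, ht => by simp only [Formula.Holds, s.eval_congr h ht.1, t.eval_congr h ht.2]
  | .lt s t, ht => by simp only [Formula.Holds, s.eval_congr h ht.1, t.eval_congr h ht.2]
  | .not φ, ht => by simp only [Formula.Holds, φ.holds_congr h ht]
  | .and φ ψ, ht => by simp only [Formula.Holds, φ.holds_congr h ht.1, ψ.holds_congr h ht.2]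
  | .or φ ψ, ht => by simp only [Formula.Holds, φ.holds_congr h ht.1, ψ.holds_congr h ht.2]

theorem Term.On.mono {P Q : ℕ → Prop} (h : ∀ n, P n → Q n) : ∀ {t : Term}, t.On P → t.On Q
  | .var n, ht => h n ht
  | .const _, _ => trivial
  | .add _ _, ht => ⟨ht.1.mono h, ht.2.mono h⟩
  | .mul _ _, ht => ⟨ht.1.mono h, ht.2.mono h⟩

theorem Formula.On.mono {P Q : ℕ → Prop} (h : ∀ n, P n → Q n) :
    ∀ {φ : Formula}, φ.On P → φ.On Q
  | .eq _ _, ht => ⟨ht.1.mono h, ht.2.mono h⟩
  | .le _ _, ht => ⟨ht.1.mono h, ht.2.mono h⟩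
  | .lt _ _, ht => ⟨ht.1.mono h, ht.2.mono h⟩
  | .not φ, ht => Formula.On.mono (φ := φ) h ht
  | .and φ ψ, ht => ⟨Formula.On.mono (φ := φ) h ht.1, Formula.On.mono (φ := ψ) h ht.2⟩
  | .or φ ψ, ht => ⟨Formula.On.mono (φ := φ) h ht.1, Formula.On.mono (φ := ψ) h ht.2⟩

/-! ## Stages -/

/-- The variables which a constraint of the block `w` of stage `T` may use. -/
def Dom (T w n : ℕ) : Prop := stg n < T ∨ (stg n = T ∧ blk n = w)

/-- Redefine the variables of one block. -/
def fill (x : ℕ → ℝ) (T w : ℕ) (f : ℕ → ℝ) : ℕ → ℝ :=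
  fun n => if stg n = T ∧ blk n = w then f (pos n) else x n

@[simp] theorem fill_own (x : ℕ → ℝ) (T w j : ℕ) (f : ℕ → ℝ) : fill x T w f (vr T w j) = f j := by
  simp [fill]

theorem fill_lt (x : ℕ → ℝ) {T w n : ℕ} (f : ℕ → ℝ) (h : stg n < T) : fill x T w f n = x n := by
  unfold fill
  rw [if_neg]
  omega

theorem eval_fill (x : ℕ → ℝ) {T w : ℕ} (f : ℕ → ℝ) {t : Term} (h : t.On fun n => stg n < T) :
    t.eval (fill x T w f) = t.eval x :=
  t.eval_congr (fun _ hn => fill_lt x f hn) h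

theorem stage (T : ℕ) (x : ℕ → ℝ) (F : ℕ → Formula) (P : ℕ → Prop)
    (hOn : ∀ w, P w → (F w).On (Dom T w))
    (hfill : ∀ w, P w → ∃ f, (F w).Holds (fill x T w f)) :
    ∃ y : ℕ → ℝ, (∀ n, stg n ≠ T → y n = x n) ∧ ∀ w, P w → (F w).Holds y := by
  classical
  choose! f hf using hfill
  refine ⟨fun n => if stg n = T ∧ P (blk n) then f (blk n) (pos n) else x n, ?_, ?_⟩
  · intro n hn
    simp [hn]
  · intro w hw
    refine ((F w).holds_congr (P := Dom T w) ?_ (hOn w hw)).2 (hf w hw)
    rintro n (hn | ⟨hn, hb⟩)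
    · have h1 : ¬ (stg n = T ∧ P (blk n)) := by omega
      rw [if_neg h1, fill_lt _ _ hn]
    · subst hb
      rw [if_pos ⟨hn, hw⟩]
      unfold fill
      rw [if_pos ⟨hn, rfl⟩]

/-- If every constraint of every stage can be satisfied by choosing the variables of its block,
given that all constraints of the earlier stages hold, then all constraints can be satisfied. -/
theorem staged (F : ℕ → ℕ → Formula) (P : ℕ → ℕ → Prop) (x₀ : ℕ → ℝ)
    (hOn : ∀ T w, P T w → (F T w).On (Dom T w)) (hP : ∀ w, ¬ P 0 w)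
    (hfill : ∀ T x, (∀ n, stg n = 0 → x n = x₀ n) →
      (∀ T' < T, ∀ w, P T' w → (F T' w).Holds x) → ∀ w, P T w →
        ∃ f, (F T w).Holds (fill x T w f)) (K : ℕ) :
    ∃ x : ℕ → ℝ, (∀ n, stg n = 0 → x n = x₀ n) ∧ ∀ T < K, ∀ w, P T w → (F T w).Holds x := by
  induction K with
  | zero => exact ⟨x₀, fun _ _ => rfl, fun T hT => absurd hT (Nat.not_lt_zero T)⟩
  | succ K ih =>
    obtain ⟨x, hx0, hx⟩ := ih
    rcases Nat.eq_zero_or_pos K with rfl | hK
    · refine ⟨x, hx0, fun T hT w hw => ?_⟩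
      have : T = 0 := by omega
      subst this
      exact absurd hw (hP w)
    obtain ⟨y, hy, hyF⟩ := stage K x (F K) (P K) (hOn K) (hfill K x hx0 hx)
    refine ⟨y, fun n hn => by rw [hy n (by omega), hx0 n hn], fun T hT w hw => ?_⟩
    rcases Nat.lt_succ_iff_lt_or_eq.1 hT with h | rfl
    · refine ((F T w).holds_congr (P := Dom T w) ?_ (hOn T w hw)).2 (hx T h w hw)
      rintro n (hn | ⟨hn, -⟩)
      · exact hy n (by omega)
      · exact hy n (by omega)
    · exact hyF w hw

/-! ## Terms and formulas -/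

/-- Differences. -/
def tsub (s t : Term) : Term := .add s (.mul (.const (-1)) t)

/-- Squares. -/
def tsq (s : Term) : Term := .mul s s

@[simp] theorem eval_tsub (x : ℕ → ℝ) (s t : Term) : (tsub s t).eval x = s.eval x - t.eval x := by
  simp [tsub, Term.eval, sub_eq_add_neg]

@[simp] theorem eval_tsq (x : ℕ → ℝ) (s : Term) : (tsq s).eval x = s.eval x ^ 2 := by
  simp [tsq, Term.eval, sq]

@[simp] theorem on_tsub {P : ℕ → Prop} {s t : Term} : (tsub s t).On P ↔ s.On P ∧ t.On P := by
  simp [tsub, Term.On]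

@[simp] theorem on_tsq {P : ℕ → Prop} {s : Term} : (tsq s).On P ↔ s.On P := by
  simp [tsq, Term.On]

/-- The conjunction of a list of formulas. -/
def bigAnd (l : List Formula) : Formula :=
  l.foldl (fun acc φ => .and φ acc) (.eq (.const 0) (.const 0))

/-- The disjunction of a list of formulas. -/
def bigOr (l : List Formula) : Formula :=
  l.foldl (fun acc φ => .or φ acc) (.not (.eq (.const 0) (.const 0)))

theorem holds_foldl_and (x : ℕ → ℝ) (l : List Formula) : ∀ acc : Formula,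
    (l.foldl (fun acc φ => .and φ acc) acc).Holds x ↔ acc.Holds x ∧ ∀ φ ∈ l, φ.Holds x := by
  induction l with
  | nil => simp
  | cons a l ih =>
    intro acc
    simp only [List.foldl_cons, ih, Formula.Holds, List.forall_mem_cons]
    tauto

@[simp] theorem holds_bigAnd (x : ℕ → ℝ) (l : List Formula) :
    (bigAnd l).Holds x ↔ ∀ φ ∈ l, φ.Holds x := by
  unfold bigAnd
  rw [holds_foldl_and]
  simp [Formula.Holds]

theorem holds_foldl_or (x : ℕ → ℝ) (l : List Formula) : ∀ acc : Formula,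
    (l.foldl (fun acc φ => .or φ acc) acc).Holds x ↔ acc.Holds x ∨ ∃ φ ∈ l, φ.Holds x := by
  induction l with
  | nil => simp
  | cons a l ih =>
    intro acc
    simp only [List.foldl_cons, ih, Formula.Holds, List.exists_mem_cons_iff]
    tauto

@[simp] theorem holds_bigOr (x : ℕ → ℝ) (l : List Formula) :
    (bigOr l).Holds x ↔ ∃ φ ∈ l, φ.Holds x := by
  unfold bigOr
  rw [holds_foldl_or]
  simp [Formula.Holds]

theorem on_foldl_and {P : ℕ → Prop} (l : List Formula) : ∀ acc : Formula,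
    (l.foldl (fun acc φ => .and φ acc) acc).On P ↔ acc.On P ∧ ∀ φ ∈ l, φ.On P := by
  induction l with
  | nil => simp
  | cons a l ih =>
    intro acc
    simp only [List.foldl_cons, ih, Formula.On, List.forall_mem_cons]
    tauto

@[simp] theorem on_bigAnd {P : ℕ → Prop} (l : List Formula) :
    (bigAnd l).On P ↔ ∀ φ ∈ l, φ.On P := by
  unfold bigAnd
  rw [on_foldl_and]
  simp [Formula.On, Term.On]

theorem on_foldl_or {P : ℕ → Prop} (l : List Formula) : ∀ acc : Formula,
    (l.foldl (fun acc φ => .or φ acc) acc).On P ↔ acc.On P ∧ ∀ φ ∈ l, φ.On P := by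
  induction l with
  | nil => simp
  | cons a l ih =>
    intro acc
    simp only [List.foldl_cons, ih, Formula.On, List.forall_mem_cons]
    tauto

@[simp] theorem on_bigOr {P : ℕ → Prop} (l : List Formula) :
    (bigOr l).On P ↔ ∀ φ ∈ l, φ.On P := by
  unfold bigOr
  rw [on_foldl_or]
  simp [Formula.On, Term.On]

/-! ## Roots of quadratic polynomials -/

/-- Triples of polynomial expressions. -/
abbrev T3 := Term × Term × Term

/-- All three expressions of a triple only use variables with the property `P`. -/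
def T3.On (P : ℕ → Prop) (L : T3) : Prop := L.1.On P ∧ L.2.1.On P ∧ L.2.2.On P

/-- The values of a triple. -/
def T3.eval (x : ℕ → ℝ) (L : T3) : ℝ × ℝ × ℝ := (L.1.eval x, L.2.1.eval x, L.2.2.eval x)

/-- The condition on reals that `r, s` contain all roots of `a x² + b x + c`, unless
`a = b = 0`. -/
def RootsIn (a b c r s : ℝ) : Prop :=
  b ^ 2 < 4 * (a * c) ∨ (a ≠ 0 ∧ a * (r + s) = -b ∧ a * (r * s) = c) ∨ (a = 0 ∧ b * r = -c) ∨
    (a = 0 ∧ b = 0)

theorem RootsIn.mem {a b c r s x : ℝ} (h : RootsIn a b c r s) (hab : a ≠ 0 ∨ b ≠ 0)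
    (hx : a * x ^ 2 + b * x + c = 0) : x = r ∨ x = s := by
  rcases h with h | ⟨ha, h1, h2⟩ | ⟨ha, h1⟩ | ⟨ha, hb⟩
  · have e : (2 * a * x + b) ^ 2 = 4 * a * (a * x ^ 2 + b * x + c) + (b ^ 2 - 4 * (a * c)) := by
      ring
    rw [hx] at e
    nlinarith [sq_nonneg (2 * a * x + b)]
  · have : a * ((x - r) * (x - s)) = 0 := by
      have e : a * ((x - r) * (x - s)) = a * x ^ 2 - a * (r + s) * x + a * (r * s) := by ring
      rw [e, h1, h2]
      linarith
    rcases mul_eq_zero.1 this with h' | h'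
    · exact absurd h' ha
    · rcases mul_eq_zero.1 h' with h'' | h''
      · left; linarith
      · right; linarith
  · have hb : b ≠ 0 := hab.resolve_left (not_not.2 ha)
    left
    have : b * (x - r) = 0 := by
      rw [ha] at hx
      linarith
    rcases mul_eq_zero.1 this with h' | h'
    · exact absurd h' hb
    · linarith
  · rcases hab with h' | h'
    · exact absurd ha h'
    · exact absurd hb h'

theorem exists_rootsIn (a b c : ℝ) : ∃ r s, RootsIn a b c r s := by
  by_cases hd : b ^ 2 < 4 * (a * c)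
  · exact ⟨0, 0, Or.inl hd⟩
  push Not at hd
  by_cases ha : a = 0
  · by_cases hb : b = 0
    · exact ⟨0, 0, Or.inr (Or.inr (Or.inr ⟨ha, hb⟩))⟩
    · refine ⟨-c / b, 0, Or.inr (Or.inr (Or.inl ⟨ha, ?_⟩))⟩
      field_simp
  · have hs : √(b ^ 2 - 4 * (a * c)) ^ 2 = b ^ 2 - 4 * (a * c) := Real.sq_sqrt (by linarith)
    refine ⟨(-b + √(b ^ 2 - 4 * (a * c))) / (2 * a), (-b - √(b ^ 2 - 4 * (a * c))) / (2 * a),
      Or.inr (Or.inl ⟨ha, ?_, ?_⟩)⟩
    · field_simp
      ring
    · have : (-b + √(b ^ 2 - 4 * (a * c))) / (2 * a) *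
          ((-b - √(b ^ 2 - 4 * (a * c))) / (2 * a)) =
          (b ^ 2 - √(b ^ 2 - 4 * (a * c)) ^ 2) / (4 * a ^ 2) := by
        field_simp
        ring
      rw [this, hs]
      field_simp
      ring

/-- The formula expressing `RootsIn`. -/
def roots (L : T3) (r s : Term) : Formula :=
  .or (.lt (tsq L.2.1) (.mul (.const 4) (.mul L.1 L.2.2)))
    (.or (.and (.not (.eq L.1 (.const 0))) (.and
        (.eq (.mul L.1 (.add r s)) (.mul (.const (-1)) L.2.1))
        (.eq (.mul L.1 (.mul r s)) L.2.2)))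
      (.or (.and (.eq L.1 (.const 0)) (.eq (.mul L.2.1 r) (.mul (.const (-1)) L.2.2)))
        (.and (.eq L.1 (.const 0)) (.eq L.2.1 (.const 0)))))

theorem holds_roots (x : ℕ → ℝ) (L : T3) (r s : Term) :
    (roots L r s).Holds x ↔
      RootsIn (L.1.eval x) (L.2.1.eval x) (L.2.2.eval x) (r.eval x) (s.eval x) := by
  simp [roots, Formula.Holds, Term.eval, RootsIn]

theorem on_roots {P : ℕ → Prop} {L : T3} {r s : Term} (hL : L.On P) (hr : r.On P) (hs : s.On P) :
    (roots L r s).On P := by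
  obtain ⟨h1, h2, h3⟩ := hL
  simp [roots, Formula.On, Term.On, *]

end Pool.Agent.MP_3ba9a9_lc
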